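import Pool.Agent.L5helper45.MB.Main

set_option autoImplicit false

/-! # Record gaps in windows where a set is equidistributed with a power saving -/

namespace Pool.Agent.L5helper45.MB

open Finset Filter
open Pool.Agent.H469R2.NK (e norm_e e_add)
open Pool.Agent.W147.PS (ff ff_compare ev_pow)

set_option maxHeartbeats 4000000 in
/-- If on a window the indicator function of a set is, in a residue class, a constant plus a function
with exponential sums saving a power, then the window contains a member of the set in this class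
without primes at record distance. -/
theorem abs_main (m : ℕ) (hm1 : 1 ≤ m) (P δ ε₁ : ℝ) (hP0 : 0 < P) (hP1 : P ≤ 1) (hδ0 : 0 < δ)
    (hδ1 : δ ≤ 1) (hε0 : 0 < ε₁) (hε1 : ε₁ ≤ 1) :
    ∃ κ : ℝ, 0 < κ ∧ ∀ᶠ M : ℝ in atTop, ∀ (N H n₀ : ℕ) (T : Set ℕ) (D : ℕ → ℂ), M < N →
      M ^ ε₁ ≤ H → (∀ n, n ≡ n₀ [MOD m] → n ∈ T → D n + P = 1) →
      (∀ n, n ≡ n₀ [MOD m] → n ∉ T → D n + P = 0) →
      (∀ x : ℝ, ‖∑ n ∈ range H, e (((N + n : ℕ) : ℝ) * x) * D (N + n)‖ ≤ (H : ℝ) ^ (1 - δ)) →
      ∃ i < H, N + i ∈ T ∧ N + i ≡ n₀ [MOD m] ∧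
        ∀ q : ℕ, q.Prime → κ * ff M < |(q : ℝ) - (N + i : ℕ)| := by
  classical
  have hmr : (1 : ℝ) ≤ m := by exact_mod_cast hm1
  have hmpos : (0 : ℝ) < m := by linarith
  set η : ℝ := ε₁ * δ / 4 with hη
  have hη0 : 0 < η := by rw [hη]; positivity
  have hη1 : η ≤ 1 := by
    rw [hη]
    nlinarith
  obtain ⟨κ, hκ, hcrit⟩ := crit_int_cop m hm1 η hη0 hη1
  refine ⟨κ, hκ, ?_⟩
  filter_upwards [hcrit, (tendsto_rpow_atTop hη0).eventually_ge_atTop
    (5 * (m : ℝ) ^ 2 / P), eventually_ge_atTop (1 : ℝ)] with M hcr hMη hM1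
  intro N H n₀ T D hNM hHge hDT hDT' hD1
  have hM0 : 0 < M := by linarith
  set A : ℝ := M ^ η with hA
  have hA0 : 0 < A := by rw [hA]; positivity
  have hA1 : 1 ≤ A := Real.one_le_rpow hM1 hη0.le
  have hApm : 5 * (m : ℝ) ^ 2 ≤ A * P := by
    rw [div_le_iff₀ hP0] at hMη
    exact hMη
  have hM4 : 1 ≤ M ^ ε₁ := Real.one_le_rpow hM1 hε0.le
  have hHr1 : (1 : ℝ) ≤ H := hM4.trans hHge
  have hHp : (0 : ℝ) < H := by linarith
  have hA4 : A ^ 4 ≤ (H : ℝ) ^ δ := by
    have h1 : A ^ 4 = (M ^ ε₁) ^ δ := by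
      rw [hA, ← Real.rpow_natCast, ← Real.rpow_mul hM0.le, ← Real.rpow_mul hM0.le]
      congr 1
      rw [hη]
      push_cast
      ring
    rw [h1]
    exact Real.rpow_le_rpow (by positivity) hHge hδ0.le
  have hA4' : A ^ 4 ≤ H := by
    refine hA4.trans ?_
    calc (H : ℝ) ^ δ ≤ (H : ℝ) ^ (1 : ℝ) := Real.rpow_le_rpow_of_exponent_le hHr1 hδ1
      _ = H := Real.rpow_one _
  have hHδ : (H : ℝ) ^ (1 - δ) * A ^ 4 ≤ H := by
    calc (H : ℝ) ^ (1 - δ) * A ^ 4 ≤ (H : ℝ) ^ (1 - δ) * (H : ℝ) ^ δ :=
          mul_le_mul_of_nonneg_left hA4 (by positivity)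
      _ = H := by rw [← Real.rpow_add hHp]; simp
  set W : ℝ := (H : ℝ) ^ (1 - δ) with hW
  have hW0 : 0 ≤ W := by positivity
  -- the family
  set s : Finset ℕ := (range H).filter (fun n => N + n ≡ n₀ [MOD m] ∧ N + n ∈ T) with hs
  have hsum : ∀ x : ℝ, ∑ n ∈ s, e (((N + n : ℕ) : ℝ) * x) =
      ∑ n ∈ (range H).filter (fun n => N + n ≡ n₀ [MOD m]), e (((N + n : ℕ) : ℝ) * x) * D (N + n) +
      P * ∑ n ∈ (range H).filter (fun n => N + n ≡ n₀ [MOD m]), e (((N + n : ℕ) : ℝ) * x) := by
    intro x
    rw [mul_sum, ← sum_add_distrib, hs, ← filter_filter, sum_filter]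
    refine sum_congr rfl fun n hn => ?_
    have hn2 := (mem_filter.1 hn).2
    by_cases h : N + n ∈ T
    · rw [if_pos h]
      have := hDT _ hn2 h
      calc e (((N + n : ℕ) : ℝ) * x) = e (((N + n : ℕ) : ℝ) * x) * (D (N + n) + P) := by
            rw [this, mul_one]
        _ = _ := by ring
    · rw [if_neg h]
      have := hDT' _ hn2 h
      calc (0 : ℂ) = e (((N + n : ℕ) : ℝ) * x) * (D (N + n) + P) := by
            rw [this, mul_zero]
        _ = _ := by ring
  -- the number of elements
  have hcnt : (H : ℝ) / m - 1 ≤ ((range H).filter (fun n => N + n ≡ n₀ [MOD m])).card := by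
    have h1 : H / m ≤ ((range H).filter (fun n => N + n ≡ n₀ [MOD m])).card := by
      set r : ℕ := (n₀ + (m - 1) * N) % m with hr
      have hrm : r < m := Nat.mod_lt _ (by omega)
      have hrN : N + r ≡ n₀ [MOD m] := by
        have h2 : N + r ≡ N + (n₀ + (m - 1) * N) [MOD m] := (Nat.mod_modEq _ _).add_left N
        have h3 : N + (n₀ + (m - 1) * N) = n₀ + m * N := by
          obtain ⟨c, hc⟩ : ∃ c, m = c + 1 := ⟨m - 1, by omega⟩
          rw [hc]
          simp only [Nat.add_sub_cancel]
          ring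
        rw [h3] at h2
        refine h2.trans ?_
        have h4 : n₀ + m * N ≡ n₀ + 0 [MOD m] :=
          (Nat.modEq_zero_iff_dvd.2 (dvd_mul_right m N)).add_left n₀
        simpa using h4
      calc H / m = (range (H / m)).card := (card_range _).symm
        _ ≤ _ := by
            apply Finset.card_le_card_of_injOn (fun t => m * t + r)
            · intro t ht
              rw [mem_coe, mem_range] at ht
              rw [mem_coe, mem_filter, mem_range]
              constructor
              · show m * t + r < H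
                have h2 : m * (t + 1) ≤ m * (H / m) := Nat.mul_le_mul_left _ ht
                have h3 : m * (H / m) ≤ H := Nat.mul_div_le H m
                have h4 : m * (t + 1) = m * t + m := by ring
                omega
              · show N + (m * t + r) ≡ n₀ [MOD m]
                have h2 : N + (m * t + r) = (N + r) + m * t := by ring
                rw [h2]
                have h4 : (N + r) + m * t ≡ (N + r) + 0 [MOD m] :=
                  (Nat.modEq_zero_iff_dvd.2 (dvd_mul_right m t)).add_left _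
                exact h4.trans (by simpa using hrN)
            · intro t _ t' _ h
              simp only at h
              have : m * t = m * t' := by omega
              exact Nat.eq_of_mul_eq_mul_left (by omega) this
    have h2 : (H : ℝ) / m - 1 ≤ ((H / m : ℕ) : ℝ) := by
      have h3 := Nat.lt_floor_add_one ((H : ℝ) / m)
      rw [Nat.floor_div_eq_div] at h3
      linarith
    exact h2.trans (by exact_mod_cast h1)
  have hcard : P * ((H : ℝ) / m - 1) - W ≤ s.card := by
    have h1 := hsum 0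
    simp only [mul_zero, Pool.Agent.H469R2.NK.e_zero, sum_const, nsmul_eq_mul, mul_one, one_mul]
      at h1
    have h2 := ap_sum m hm1 n₀ D N H 0 W (fun l _ => hD1 _)
    simp only [mul_zero, Pool.Agent.H469R2.NK.e_zero, one_mul] at h2
    have h3 : ∑ n ∈ (range H).filter (fun n => N + n ≡ n₀ [MOD m]), D (N + n) =
        ((s.card - P * ((range H).filter (fun n => N + n ≡ n₀ [MOD m])).card : ℝ) : ℂ) := by
      push_cast
      rw [h1]
      ring
    rw [h3, Complex.norm_real, Real.norm_eq_abs] at h2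
    have h4 := (abs_le.1 h2).1
    have h5 : P * ((H : ℝ) / m - 1) ≤ P * ((range H).filter (fun n => N + n ≡ n₀ [MOD m])).card :=
      mul_le_mul_of_nonneg_left hcnt hP0.le
    linarith
  -- the exponential sums
  have hexp : ∀ q h : ℕ, (q : ℝ) ≤ A → Nat.Coprime q m → 1 ≤ h → h < q →
      ‖∑ n ∈ s, e (((N + n : ℕ) : ℝ) * ((h : ℝ) / q))‖ ≤ W + 2 * (A * m) := by
    intro q h hq hqm hh1 hh2
    rw [hsum]
    refine (norm_add_le _ _).trans (add_le_add ?_ ?_)
    · exact ap_sum m hm1 n₀ D N H _ W (fun l _ => hD1 _)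
    · rw [norm_mul, Complex.norm_real, Real.norm_of_nonneg hP0.le]
      have h1 := ap_sum m hm1 n₀ (fun _ => 1) N H ((h : ℝ) / q) (2 * (q * m)) (fun l _ => by
        simp only [mul_one]
        exact geo m q h l N H hm1 hqm hh1 hh2)
      simp only [mul_one] at h1
      calc _ ≤ 1 * (2 * (q * m : ℝ)) := mul_le_mul hP1 h1 (norm_nonneg _) zero_le_one
        _ ≤ 2 * (A * m) := by
            rw [one_mul]
            gcongr
  -- numerical facts
  have hkey : (W + 2 * (A * m)) * A ≤ s.card := by
    refine le_trans ?_ hcard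
    have hm0 : (0 : ℝ) < m := hmpos
    have e1 : P * ((H : ℝ) / m - 1) - W - (W + 2 * (A * m)) * A =
        (P * H - (P + W + (W + 2 * (A * m)) * A) * m) / m := by
      field_simp
      ring
    have e2 : (P + W + (W + 2 * (A * m)) * A) * m ≤ P * H := by
      have f1 : (P + W + (W + 2 * (A * m)) * A) * m * A ^ 4 ≤ P * H * A ^ 4 := by
        have g1 : P * A ^ 4 ≤ H := by
          calc P * A ^ 4 ≤ 1 * H := mul_le_mul hP1 hA4' (by positivity) zero_le_one
            _ = H := one_mul _
        have g2 : W * A ^ 4 ≤ H := hHδ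
        have g3 : W * A * A ^ 4 ≤ H * A := by
          calc W * A * A ^ 4 = (W * A ^ 4) * A := by ring
            _ ≤ H * A := mul_le_mul_of_nonneg_right g2 hA0.le
        have g4 : 2 * (A * m) * A * A ^ 4 ≤ 2 * m * A ^ 2 * H := by
          calc 2 * (A * m) * A * A ^ 4 = 2 * m * A ^ 2 * A ^ 4 := by ring
            _ ≤ _ := mul_le_mul_of_nonneg_left hA4' (by positivity)
        have g5 : (P + W + (W + 2 * (A * m)) * A) * A ^ 4 ≤ H * (5 * m * A ^ 2) := by
          have k1 : (1 : ℝ) ≤ m * A ^ 2 := by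
            have := one_le_pow₀ hA1 (n := 2)
            nlinarith
          have k2 : A ≤ m * A ^ 2 := by
            have : A ≤ A ^ 2 := by nlinarith
            nlinarith
          have k3 : (H : ℝ) * A ≤ H * (m * A ^ 2) := mul_le_mul_of_nonneg_left k2 hHp.le
          have k4 : (H : ℝ) ≤ H * (m * A ^ 2) := le_mul_of_one_le_right hHp.le k1
          calc (P + W + (W + 2 * (A * m)) * A) * A ^ 4 =
                P * A ^ 4 + W * A ^ 4 + W * A * A ^ 4 + 2 * (A * m) * A * A ^ 4 := by ring
            _ ≤ H + H + H * A + 2 * m * A ^ 2 * H := by linarith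
            _ ≤ H * (m * A ^ 2) + H * (m * A ^ 2) + H * (m * A ^ 2) + 2 * m * A ^ 2 * H := by
                linarith
            _ = _ := by ring
        calc (P + W + (W + 2 * (A * m)) * A) * m * A ^ 4 =
              ((P + W + (W + 2 * (A * m)) * A) * A ^ 4) * m := by ring
          _ ≤ (H * (5 * m * A ^ 2)) * m := mul_le_mul_of_nonneg_right g5 hm0.le
          _ = H * A ^ 2 * (5 * m ^ 2) := by ring
          _ ≤ H * A ^ 2 * (A * P) := mul_le_mul_of_nonneg_left hApm (by positivity)
          _ = P * H * A ^ 3 := by ring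
          _ ≤ P * H * A ^ 4 := by
              apply mul_le_mul_of_nonneg_left _ (by positivity)
              exact pow_le_pow_right₀ hA1 (by norm_num)
      exact le_of_mul_le_mul_right f1 (by positivity)
    have e3 : 0 ≤ (P * H - (P + W + (W + 2 * (A * m)) * A) * m) / m :=
      div_nonneg (by linarith) hm0.le
    rw [← e1] at e3
    linarith
  have hspos : (0 : ℝ) < s.card := by
    refine lt_of_lt_of_le ?_ hkey
    positivity
  have hsne : s.Nonempty := by
    rw [← card_pos]
    exact_mod_cast hspos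
  obtain ⟨i, hi, hi2⟩ := hcr ℕ s (fun n => ((N + n : ℕ) : ℤ)) hsne (by
    intro i _
    push_cast
    have : (0 : ℝ) ≤ i := Nat.cast_nonneg i
    linarith) (by
    intro q h hq hqm hh1 hhq
    have e1 : ∑ i ∈ s, e ((h : ℝ) / q * (((N + i : ℕ) : ℤ) : ℝ)) =
        ∑ i ∈ s, e (((N + i : ℕ) : ℝ) * ((h : ℝ) / q)) := by
      refine sum_congr rfl fun i _ => ?_
      congr 1
      push_cast
      ring
    rw [e1]
    refine (hexp q h hq hqm hh1 hhq).trans ?_
    rw [Real.rpow_neg hM0.le, ← hA, ← div_eq_mul_inv, le_div_iff₀ hA0]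
    exact hkey)
  rw [hs, mem_filter, mem_range] at hi
  obtain ⟨hi1, hi3, hi4⟩ := hi
  refine ⟨i, hi1, hi4, hi3, ?_⟩
  intro q hq
  have := hi2 q hq
  push_cast at this ⊢
  exact this

end Pool.Agent.L5helper45.MB
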