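import Pool.Agent.L5helper45.MB.Vec

set_option autoImplicit false

/-! # Digital functions in several bases: the power saving -/

namespace Pool.Agent.L5helper45.MB

open Finset Filter

/-- a common exponent -/
lemma exists_lam {ι : Type} [Fintype ι] (b : ι → ℕ) (hb : ∀ j, 2 ≤ b j) (ρ : ι → ℝ)
    (hρ : ∀ j, 1 ≤ ρ j ∧ ρ j < (b j : ℝ) ^ 2) :
    ∃ lam : ℝ, 1 / 2 ≤ lam ∧ lam < 1 ∧ ∀ j, ρ j ≤ ((b j : ℝ) ^ 2) ^ lam := by
  classical
  have hb4 : ∀ j, (4 : ℝ) ≤ (b j : ℝ) ^ 2 := by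
    intro j
    have : (2 : ℝ) ≤ b j := by exact_mod_cast hb j
    nlinarith
  have hlog : ∀ j, 0 < Real.log ((b j : ℝ) ^ 2) := fun j => Real.log_pos (by linarith [hb4 j])
  have h1 : ∀ j, Real.log (ρ j) / Real.log ((b j : ℝ) ^ 2) < 1 := by
    intro j
    rw [div_lt_one (hlog j)]
    exact Real.log_lt_log (by linarith [(hρ j).1]) (hρ j).2
  obtain ⟨lam, hl1, hl2⟩ : ∃ lam : ℝ, lam < 1 ∧
      ∀ j, Real.log (ρ j) / Real.log ((b j : ℝ) ^ 2) ≤ lam := by
    rcases isEmpty_or_nonempty ι with h | h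
    · exact ⟨0, by norm_num, fun j => (h.false j).elim⟩
    · refine ⟨univ.sup' univ_nonempty (fun j => Real.log (ρ j) / Real.log ((b j : ℝ) ^ 2)), ?_, ?_⟩
      · rw [sup'_lt_iff]
        exact fun j _ => h1 j
      · intro j
        exact le_sup' (fun j => Real.log (ρ j) / Real.log ((b j : ℝ) ^ 2)) (mem_univ j)
  refine ⟨max (1 / 2) lam, le_max_left _ _, max_lt (by norm_num) hl1, ?_⟩
  intro j
  have hρ0 : 0 < ρ j := by linarith [(hρ j).1]
  have hb0 : 0 < (b j : ℝ) ^ 2 := by linarith [hb4 j]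
  calc ρ j = ((b j : ℝ) ^ 2) ^ (Real.log (ρ j) / Real.log ((b j : ℝ) ^ 2)) := by
        rw [Real.rpow_def_of_pos hb0, mul_div_cancel₀ _ (hlog j).ne', Real.exp_log hρ0]
    _ ≤ _ := Real.rpow_le_rpow_of_exponent_le (by linarith [hb4 j])
        ((hl2 j).trans (le_max_right _ _))

set_option maxHeartbeats 4000000 in
/-- the power saving -/
theorem power_saving {ι : Type} [Fintype ι] [DecidableEq ι] (G : ι → Type) [∀ j, Group (G j)]
    [∀ j, Fintype (G j)] [∀ j, DecidableEq (G j)] (b : ι → ℕ) (hb : ∀ j, 2 ≤ b j)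
    (hco : ∀ i j, i ≠ j → Nat.Coprime (b i) (b j)) (a : ∀ j, ℕ → G j)
    (ha : ∀ j n d, d < b j → a j (b j * n + d) = a j n * a j d) :
    ∃ (u : ∀ j, ℕ → G j → ℂ) (p : ι → ℝ) (δ : ℝ), 0 < δ ∧ δ ≤ 1 ∧
      (∀ j, 0 < p j ∧ p j ≤ 1) ∧ (∀ j n, u j n (a j n) = p j) ∧
      (∀ j n k, u j (n + (b j - 1) * k) = u j n) ∧
      ∀ᶠ H : ℕ in atTop, ∀ (N : ℕ) (z : ℂ), ‖z‖ = 1 →
        ∀ x : (∀ j, G j), ‖∑ n ∈ range H, z ^ (N + n) *
          ((∏ j, if a j (N + n) = x j then (1 : ℂ) else 0) - ∏ j, u j (N + n) (x j))‖ ≤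
        (H : ℝ) ^ (1 - δ) := by
  obtain ⟨u, p, ρ, hρ, hp, hu1, hu2, hmain⟩ := vec_bound G b hb hco a ha
  obtain ⟨lam, hl1, hl2, hl3⟩ := exists_lam b hb ρ hρ
  set k : ℕ := Fintype.card ι with hk
  set β : ℝ := 1 / (2 * (k + 1)) with hβ
  have hβ0 : 0 < β := by rw [hβ]; positivity
  have hβ1 : β ≤ 1 / 2 := by
    rw [hβ]
    have : (0 : ℝ) ≤ k := Nat.cast_nonneg k
    apply one_div_le_one_div_of_le <;> linarith
  set δ : ℝ := β * (1 - lam) / 8 with hδ
  have hδ0 : 0 < δ := by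
    have : 0 < 1 - lam := by linarith
    rw [hδ]; positivity
  have hδ1 : δ ≤ 1 := by
    rw [hδ]
    nlinarith
  set S2 : ℝ := ∑ j, (b j : ℝ) ^ 2 with hS2
  have hS20 : 0 ≤ S2 := sum_nonneg fun j _ => by positivity
  set C₁ : ℝ := 2 + 4 * S2 + 2 * (k + 1) + 4 * k with hC₁
  have hk0 : (0 : ℝ) ≤ k := Nat.cast_nonneg k
  have hC₁0 : 0 ≤ C₁ := by rw [hC₁]; positivity
  refine ⟨u, p, δ, hδ0, hδ1, hp, hu1, hu2, ?_⟩
  have hcast : Tendsto (fun H : ℕ => (H : ℝ)) atTop atTop := tendsto_natCast_atTop_atTop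
  have ev1 : ∀ᶠ H : ℕ in atTop, 1 + Real.sqrt C₁ ≤ (H : ℝ) ^ δ :=
    ((tendsto_rpow_atTop hδ0).comp hcast).eventually_ge_atTop _
  have ev2 : ∀ᶠ H : ℕ in atTop, S2 + 1 ≤ (H : ℝ) ^ (8 * δ) :=
    ((tendsto_rpow_atTop (show 0 < 8 * δ by positivity)).comp hcast).eventually_ge_atTop _
  filter_upwards [ev1, ev2, eventually_ge_atTop 1] with H hH1 hH2 hH0
  intro N z hz x
  have hHr : (1 : ℝ) ≤ H := by exact_mod_cast hH0
  have hHp : (0 : ℝ) < H := by linarith
  set T : ℝ := (H : ℝ) ^ β with hT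
  have hT1 : 1 ≤ T := Real.one_le_rpow hHr hβ0.le
  have hT0 : 0 < T := by linarith
  have hTH : T ^ (2 * (k + 1)) = H := by
    rw [hT, ← Real.rpow_natCast, ← Real.rpow_mul hHp.le]
    have : β * ((2 * (k + 1) : ℕ) : ℝ) = 1 := by
      rw [hβ]; push_cast; field_simp
    rw [this, Real.rpow_one]
  set y : ℝ := T ^ ((1 - lam) / 2) with hy
  have hy1 : 1 ≤ y := Real.one_le_rpow hT1 (by linarith)
  have hy0 : 0 < y := by linarith
  have hy2 : y ^ 2 = T ^ (1 - lam) := by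
    rw [hy, ← Real.rpow_natCast, ← Real.rpow_mul hT0.le]
    congr 1
    push_cast
    ring
  have hTlam : T ^ lam * y ^ 2 = T := by
    rw [hy2, ← Real.rpow_add hT0]
    have : lam + (1 - lam) = 1 := by ring
    rw [this, Real.rpow_one]
  have hy4 : y ^ 4 ≤ T := by
    have h1 : y ^ 4 = T ^ (2 * (1 - lam)) := by
      have : y ^ 4 = (y ^ 2) ^ (2 : ℕ) := by ring
      rw [this, hy2, ← Real.rpow_natCast, ← Real.rpow_mul hT0.le]
      congr 1
      push_cast
      ring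
    rw [h1]
    calc T ^ (2 * (1 - lam)) ≤ T ^ (1 : ℝ) := Real.rpow_le_rpow_of_exponent_le hT1 (by linarith)
      _ = T := Real.rpow_one T
  have hy2b : S2 + 1 ≤ y ^ 2 := by
    rw [hy2, hT, ← Real.rpow_mul hHp.le]
    have : β * (1 - lam) = 8 * δ := by rw [hδ]; ring
    rw [this]
    exact hH2
  -- the parameters
  have hb4 : ∀ j, (4 : ℝ) ≤ (b j : ℝ) ^ 2 := by
    intro j
    have : (2 : ℝ) ≤ b j := by exact_mod_cast hb j
    nlinarith
  choose L hL1 hL2 using fun j => exists_nat_pow_near hT1 (show (1 : ℝ) < (b j : ℝ) ^ 2 by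
    linarith [hb4 j])
  have hQeq : ∀ j, ((b j ^ (2 * L j) : ℕ) : ℝ) = ((b j : ℝ) ^ 2) ^ L j := by
    intro j
    push_cast
    rw [pow_mul]
  set Q : ι → ℝ := fun j => ((b j ^ (2 * L j) : ℕ) : ℝ) with hQ
  have hQT : ∀ j, Q j ≤ T := fun j => by rw [hQ]; beta_reduce; rw [hQeq]; exact hL1 j
  have hTQ : ∀ j, T ≤ Q j * (b j : ℝ) ^ 2 := fun j => by
    rw [hQ]; beta_reduce; rw [hQeq, ← pow_succ]; exact (hL2 j).le
  have hQ0 : ∀ j, 0 < Q j := fun j => by
    have := hb j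
    rw [hQ]
    beta_reduce
    exact_mod_cast (by positivity : 0 < b j ^ (2 * L j))
  set R : ℕ := ⌊T ^ lam⌋₊ with hR
  have hTl1 : 1 ≤ T ^ lam := Real.one_le_rpow hT1 (by linarith)
  have hR1 : (R : ℝ) ≤ T ^ lam := Nat.floor_le (by linarith)
  have hR2 : T ^ lam ≤ 2 * R := by
    have h1 := Nat.lt_floor_add_one (T ^ lam)
    have h2 : 1 ≤ R := Nat.le_floor (by exact_mod_cast hTl1)
    have h3 : (1 : ℝ) ≤ R := by exact_mod_cast h2
    rw [← hR] at h1
    linarith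
  have hR0 : (0 : ℝ) < R := by linarith
  have hRy : (R : ℝ) * y ^ 2 ≤ T := by
    rw [← hTlam]
    exact mul_le_mul_of_nonneg_right hR1 (by positivity)
  have hTR : T ≤ 2 * R * y ^ 2 := by
    rw [← hTlam]
    exact mul_le_mul_of_nonneg_right hR2 (by positivity)
  have hRQ : ∀ j, (R : ℝ) * y ^ 2 ≤ Q j * (b j : ℝ) ^ 2 := fun j => hRy.trans (hTQ j)
  have hbS : ∀ j, (b j : ℝ) ^ 2 ≤ S2 := fun j => single_le_sum (f := fun j => (b j : ℝ) ^ 2)
    (fun i _ => by positivity) (mem_univ j)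
  have hRQ' : ∀ j, R ≤ b j ^ (2 * L j) := by
    intro j
    have h1 : (R : ℝ) * (b j : ℝ) ^ 2 ≤ Q j * (b j : ℝ) ^ 2 := by
      refine le_trans ?_ (hRQ j)
      apply mul_le_mul_of_nonneg_left _ hR0.le
      linarith [hbS j]
    have h2 : (R : ℝ) ≤ ((b j ^ (2 * L j) : ℕ) : ℝ) :=
      le_of_mul_le_mul_right h1 (by linarith [hb4 j])
    exact_mod_cast h2
  have hm := hmain L R H N hRQ' z hz x
  -- the individual terms
  have t1 : (H : ℝ) ≤ R * H * (2 / y) := by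
    have h1 : y ≤ 2 * R := by
      have h2 : y ^ 4 ≤ 2 * R * y ^ 2 := hy4.trans hTR
      have h3 : y ^ 2 * y ^ 2 ≤ 2 * R * y ^ 2 := by
        calc y ^ 2 * y ^ 2 = y ^ 4 := by ring
          _ ≤ _ := h2
      have h4 : y ^ 2 ≤ 2 * R := le_of_mul_le_mul_right h3 (by positivity)
      nlinarith
    have h2 : 1 ≤ R * (2 / y) := by
      rw [mul_div_assoc', le_div_iff₀ hy0]
      linarith
    calc (H : ℝ) = H * 1 := by ring
      _ ≤ H * (R * (2 / y)) := mul_le_mul_of_nonneg_left h2 hHp.le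
      _ = _ := by ring
  have hRQy : ∀ j, (R : ℝ) / Q j ≤ (b j : ℝ) ^ 2 / y := by
    intro j
    rw [div_le_div_iff₀ (hQ0 j) hy0]
    calc (R : ℝ) * y ≤ R * y ^ 2 := by
          apply mul_le_mul_of_nonneg_left _ hR0.le
          nlinarith
      _ ≤ Q j * (b j : ℝ) ^ 2 := hRQ j
      _ = _ := by ring
  have hyT : y ≤ T := by
    calc y ≤ y ^ 4 := by
          calc y = y ^ 1 := (pow_one y).symm
            _ ≤ y ^ 4 := pow_le_pow_right₀ hy1 (by norm_num)
      _ ≤ T := hy4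
  have t2 : ∑ j, ((H : ℝ) * R / Q j + Q j) ≤ H * (S2 / y) + k * (H / y) := by
    rw [sum_add_distrib]
    apply add_le_add
    · rw [hS2, sum_div, mul_sum]
      refine sum_le_sum fun j _ => ?_
      rw [mul_div_assoc]
      exact mul_le_mul_of_nonneg_left (hRQy j) hHp.le
    · have h1 : ∀ j ∈ (univ : Finset ι), Q j ≤ H / y := by
        intro j _
        rw [le_div_iff₀ hy0]
        calc Q j * y ≤ T * T := mul_le_mul (hQT j) hyT hy0.le hT0.le
          _ = T ^ 2 := by ring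
          _ ≤ T ^ (2 * (k + 1)) := pow_le_pow_right₀ hT1 (by omega)
          _ = H := hTH
      refine (sum_le_sum h1).trans ?_
      rw [sum_const, card_univ, nsmul_eq_mul]
  have t3 : ((∏ j, b j ^ (2 * L j) : ℕ) : ℝ) ≤ H / y := by
    rw [le_div_iff₀ hy0]
    have h1 : ((∏ j, b j ^ (2 * L j) : ℕ) : ℝ) ≤ T ^ k := by
      have h2 : ((∏ j, b j ^ (2 * L j) : ℕ) : ℝ) = ∏ j, Q j := by
        rw [Nat.cast_prod]
      rw [h2]
      calc ∏ j, Q j ≤ ∏ j : ι, T := prod_le_prod (fun j _ => (hQ0 j).le) (fun j _ => hQT j)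
        _ = T ^ k := by rw [prod_const, card_univ]
    calc ((∏ j, b j ^ (2 * L j) : ℕ) : ℝ) * y ≤ T ^ k * T := mul_le_mul h1 hyT hy0.le (by positivity)
      _ = T ^ (k + 1) := by rw [pow_succ]
      _ ≤ T ^ (2 * (k + 1)) := pow_le_pow_right₀ hT1 (by omega)
      _ = H := hTH
  have t4 : ∀ j, ρ j ^ L j * Real.sqrt (Q j * R) ≤ 2 * R / y * Q j := by
    intro j
    have hρ0 : 0 < ρ j := by linarith [(hρ j).1]
    have h1 : ρ j ^ L j ≤ Q j ^ lam := by
      calc ρ j ^ L j ≤ (((b j : ℝ) ^ 2) ^ lam) ^ L j := pow_le_pow_left₀ hρ0.le (hl3 j) _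
        _ = Q j ^ lam := by
            rw [hQ]
            beta_reduce
            rw [hQeq]
            exact Real.rpow_pow_comm (by positivity) _ _
    have h2 : (Q j ^ lam) ^ 2 ≤ Q j * (T / y ^ 4) := by
      have e1 : (Q j ^ lam) ^ 2 = Q j * Q j ^ (2 * lam - 1) := by
        rw [← Real.rpow_natCast, ← Real.rpow_mul (hQ0 j).le]
        conv_rhs => rw [show Q j * Q j ^ (2 * lam - 1) = Q j ^ (1 : ℝ) * Q j ^ (2 * lam - 1) by
          rw [Real.rpow_one]]
        rw [← Real.rpow_add (hQ0 j)]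
        congr 1
        push_cast
        ring
      have e2 : T / y ^ 4 = T ^ (2 * lam - 1) := by
        rw [div_eq_iff (by positivity)]
        have e3 : y ^ 4 = T ^ (2 * (1 - lam)) := by
          have : y ^ 4 = (y ^ 2) ^ (2 : ℕ) := by ring
          rw [this, hy2, ← Real.rpow_natCast, ← Real.rpow_mul hT0.le]
          congr 1
          push_cast
          ring
        rw [e3, ← Real.rpow_add hT0]
        have : 2 * lam - 1 + 2 * (1 - lam) = 1 := by ring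
        rw [this, Real.rpow_one]
      rw [e1, e2]
      apply mul_le_mul_of_nonneg_left _ (hQ0 j).le
      exact Real.rpow_le_rpow (hQ0 j).le (hQT j) (by linarith)
    have h3 : (ρ j ^ L j * Real.sqrt (Q j * R)) ^ 2 ≤ (2 * R / y * Q j) ^ 2 := by
      rw [mul_pow, Real.sq_sqrt (by have := hQ0 j; positivity)]
      calc (ρ j ^ L j) ^ 2 * (Q j * R) ≤ (Q j * (T / y ^ 4)) * (Q j * R) := by
            apply mul_le_mul_of_nonneg_right _ (by have := hQ0 j; positivity)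
            exact (pow_le_pow_left₀ (by positivity) h1 2).trans h2
        _ ≤ (Q j * (2 * R * y ^ 2 / y ^ 4)) * (Q j * R) := by
            have := hQ0 j
            gcongr
        _ = Q j ^ 2 * (2 * R ^ 2 / y ^ 2) := by
            field_simp
        _ ≤ Q j ^ 2 * (4 * R ^ 2 / y ^ 2) := by
            have := hQ0 j
            gcongr
            norm_num
        _ = _ := by
            field_simp
            norm_num
    exact (pow_le_pow_iff_left₀ (by have := hρ0; positivity) (by have := hQ0 j; positivity)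
      two_ne_zero).1 h3
  have t5 : ∑ j, (ρ j ^ L j * Real.sqrt (Q j * R) + (R : ℝ) ^ 2) / Q j ≤
      k * (2 * R / y) + R * (S2 / y) := by
    have h1 : ∀ j ∈ (univ : Finset ι), (ρ j ^ L j * Real.sqrt (Q j * R) + (R : ℝ) ^ 2) / Q j ≤
        2 * R / y + R * ((b j : ℝ) ^ 2 / y) := by
      intro j _
      rw [add_div]
      apply add_le_add
      · rw [div_le_iff₀ (hQ0 j)]
        exact t4 j
      · rw [sq, mul_div_assoc]
        exact mul_le_mul_of_nonneg_left (hRQy j) hR0.le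
    refine (sum_le_sum h1).trans ?_
    rw [sum_add_distrib, sum_const, card_univ, nsmul_eq_mul, ← mul_sum, ← sum_div]
  -- the total
  have htot : (H : ℝ) * (R * (H + 2 * (R * ((∑ j, ((H : ℝ) * R / Q j + Q j)) +
      (∏ j, b j ^ (2 * L j) : ℕ)) + H * ∑ j, (ρ j ^ L j * Real.sqrt (Q j * R) + (R : ℝ) ^ 2) / Q j)))
      ≤ (R * H) ^ 2 * (C₁ / y) := by
    have h1 : (H : ℝ) + 2 * (R * ((∑ j, ((H : ℝ) * R / Q j + Q j)) +
        (∏ j, b j ^ (2 * L j) : ℕ)) +
        H * ∑ j, (ρ j ^ L j * Real.sqrt (Q j * R) + (R : ℝ) ^ 2) / Q j) ≤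
        R * H * (2 / y) + 2 * (R * ((H * (S2 / y) + k * (H / y)) + H / y) +
          H * (k * (2 * R / y) + R * (S2 / y))) := by
      gcongr
    have h2 : R * H * (2 / y) + 2 * (R * ((H * (S2 / y) + k * (H / y)) + H / y) +
          H * (k * (2 * R / y) + R * (S2 / y))) = R * H * (C₁ / y) := by
      rw [hC₁]
      field_simp
      ring
    rw [h2] at h1
    calc _ ≤ (H : ℝ) * (R * (R * H * (C₁ / y))) := by gcongr
      _ = _ := by ring
  have hsq : Real.sqrt ((R * H) ^ 2 * (C₁ / y)) = R * H * (Real.sqrt C₁ / Real.sqrt y) := by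
    rw [Real.sqrt_mul (by positivity), Real.sqrt_sq (by positivity), Real.sqrt_div hC₁0]
  have hfin1 : (R : ℝ) * ‖∑ n ∈ range H, z ^ (N + n) *
          ((∏ j, if a j (N + n) = x j then (1 : ℂ) else 0) - ∏ j, u j (N + n) (x j))‖ ≤
      R * (R + H * (Real.sqrt C₁ / Real.sqrt y)) := by
    refine hm.trans ?_
    have h1 := Real.sqrt_le_sqrt htot
    rw [hsq] at h1
    calc _ ≤ (R : ℝ) ^ 2 + R * H * (Real.sqrt C₁ / Real.sqrt y) := by
          apply add_le_add le_rfl h1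
      _ = _ := by ring
  have hfin2 := le_of_mul_le_mul_left hfin1 hR0
  refine hfin2.trans ?_
  have hsy : Real.sqrt y = (H : ℝ) ^ (2 * δ) := by
    rw [Real.sqrt_eq_rpow, hy, hT, ← Real.rpow_mul hHp.le, ← Real.rpow_mul hHp.le]
    congr 1
    rw [hδ]
    ring
  have hsy1 : 1 ≤ Real.sqrt y := Real.one_le_sqrt.2 hy1
  have hsyp : 0 < Real.sqrt y := by linarith
  have hRH : (R : ℝ) ≤ H / Real.sqrt y := by
    rw [le_div_iff₀ hsyp]
    have h1 : Real.sqrt y ≤ y := by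
      calc Real.sqrt y ≤ Real.sqrt y * Real.sqrt y := le_mul_of_one_le_right hsyp.le hsy1
        _ = y := Real.mul_self_sqrt hy0.le
    have h2 : (R : ℝ) ≤ T := by
      calc (R : ℝ) ≤ R * y ^ 2 := le_mul_of_one_le_right hR0.le (one_le_pow₀ hy1)
        _ ≤ T := hRy
    calc (R : ℝ) * Real.sqrt y ≤ T * T := mul_le_mul h2 (h1.trans hyT) hsyp.le hT0.le
      _ = T ^ 2 := by ring
      _ ≤ T ^ (2 * (k + 1)) := pow_le_pow_right₀ hT1 (by omega)
      _ = H := hTH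
  calc (R : ℝ) + H * (Real.sqrt C₁ / Real.sqrt y) ≤ H / Real.sqrt y +
        H * (Real.sqrt C₁ / Real.sqrt y) := add_le_add hRH le_rfl
    _ = H * (1 + Real.sqrt C₁) / Real.sqrt y := by ring
    _ ≤ H * (H : ℝ) ^ δ / (H : ℝ) ^ (2 * δ) := by
        rw [hsy]
        gcongr
    _ = (H : ℝ) ^ (1 - δ) := by
        rw [show (H : ℝ) * (H : ℝ) ^ δ = (H : ℝ) ^ (1 : ℝ) * (H : ℝ) ^ δ by rw [Real.rpow_one],
          ← Real.rpow_add hHp, ← Real.rpow_sub hHp]
        congr 1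
        ring

end Pool.Agent.L5helper45.MB
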