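import Pool.Agent.L5helper45.MB.Main

set_option autoImplicit false

/-! # Record gaps around integers with prescribed blocks of digital functions in several bases -/

namespace Pool.Agent.L5helper45.MB

open Finset Filter
open Pool.Agent.W147.PS (ff)

/-- a value and a residue class determine a block -/
lemma block {G : Type} [Group G] (b : ℕ) (hb : 2 ≤ b) (a : ℕ → G)
    (ha : ∀ n d, d < b → a (b * n + d) = a n * a d) (t n n₀ I : ℕ) (ht : n₀ + I < b ^ t)
    (hn : n ≡ n₀ [MOD b ^ t]) (h : a n = a n₀) (i : ℕ) (hi : i ≤ I) : a (n + i) = a (n₀ + i) := by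
  have h1 : n % b ^ t = n₀ := by
    rw [hn, Nat.mod_eq_of_lt (by omega)]
  have h2 : n = b ^ t * (n / b ^ t) + n₀ := by
    conv_lhs => rw [← Nat.div_add_mod n (b ^ t), h1]
  have h3 : a n = a (n / b ^ t) * a n₀ := by
    conv_lhs => rw [h2]
    exact split b hb a ha t _ _ (by omega)
  have h4 : a (n / b ^ t) = 1 := by
    rw [h3] at h
    exact mul_eq_right.1 h
  have h5 : a (n + i) = a (n / b ^ t) * a (n₀ + i) := by
    conv_lhs => rw [h2, add_assoc]
    exact split b hb a ha t _ _ (by omega)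
  rw [h5, h4, one_mul]

lemma ff_nonneg : ∀ᶠ M : ℝ in atTop, 0 ≤ ff M := by
  have h1 := Real.tendsto_log_atTop
  have h4 := h1.comp (h1.comp (h1.comp h1))
  filter_upwards [h1.eventually_ge_atTop 0, h4.eventually_ge_atTop 0] with M hM1 hM4
  simp only [Function.comp] at hM4
  unfold ff
  positivity

theorem blocks {ι : Type} [Fintype ι] [DecidableEq ι] (G : ι → Type) [∀ j, Group (G j)]
    [∀ j, Fintype (G j)] [∀ j, DecidableEq (G j)] (b : ι → ℕ) (hb : ∀ j, 2 ≤ b j)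
    (hco : ∀ i j, i ≠ j → Nat.Coprime (b i) (b j)) (a : ∀ j, ℕ → G j)
    (ha : ∀ j n d, d < b j → a j (b j * n + d) = a j n * a j d) (m : ℕ) (hm : 1 ≤ m) (I : ℕ)
    (ε : ℝ) (hε : 0 < ε) (hε1 : ε ≤ 1) :
    ∃ κ : ℝ, 0 < κ ∧ ∀ᶠ M : ℝ in atTop, ∀ n₀ : ℕ, ∃ n : ℕ, M < n ∧ (n : ℝ) ≤ M + M ^ ε ∧
      n ≡ n₀ [MOD m] ∧ (∀ j, ∀ i ≤ I, a j (n + i) = a j (n₀ + i)) ∧
      ∀ q : ℕ, q.Prime → κ * ff M < |(q : ℝ) - n| := by
  classical
  have hm0 : 0 < m := hm
  set f : ℕ → Fin m × (∀ j, Fin (I + 1) → G j) := fun n =>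
    (⟨n % m, Nat.mod_lt _ hm0⟩, fun j i => a j (n + i)) with hf
  have hrep : ∀ y : Fin m × (∀ j, Fin (I + 1) → G j), ∃ n₁ : ℕ, ∀ n₀, f n₀ = y → f n₁ = y := by
    intro y
    by_cases h : ∃ n₀, f n₀ = y
    · obtain ⟨n₁, hn₁⟩ := h
      exact ⟨n₁, fun _ _ => hn₁⟩
    · exact ⟨0, fun n₀ hn₀ => absurd ⟨n₀, hn₀⟩ h⟩
  choose r hr using hrep
  have hmy : ∀ y, 1 ≤ m * ∏ j, b j ^ (r y + I + 1) := by
    intro y
    apply Nat.mul_pos hm0
    exact Finset.prod_pos fun j _ => by have := hb j; positivity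
  choose κ hκ hκ' using fun y => main G b hb hco a ha (m * ∏ j, b j ^ (r y + I + 1)) (hmy y) ε hε hε1
  have hne : (univ : Finset (Fin m × (∀ j, Fin (I + 1) → G j))).Nonempty := ⟨f 0, mem_univ _⟩
  refine ⟨univ.inf' hne κ, ?_, ?_⟩
  · rw [lt_inf'_iff]
    exact fun y _ => hκ y
  · filter_upwards [eventually_all.2 hκ', ff_nonneg] with M hM hff
    intro n₀
    obtain ⟨n, h1, h2, h3, h4, h5⟩ := hM (f n₀) (r (f n₀))
    have hrf : f (r (f n₀)) = f n₀ := hr (f n₀) n₀ rfl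
    have hrf1 : r (f n₀) ≡ n₀ [MOD m] := by
      have := congrArg (fun z => (z.1 : ℕ)) hrf
      exact this
    have hrf2 : ∀ j, ∀ i ≤ I, a j (r (f n₀) + i) = a j (n₀ + i) := by
      intro j i hi
      have := congrFun (congrFun (congrArg Prod.snd hrf) j) ⟨i, by omega⟩
      exact this
    refine ⟨n, h1, h2, (h3.of_dvd (dvd_mul_right _ _)).trans hrf1, ?_, ?_⟩
    · intro j i hi
      rw [← hrf2 j i hi]
      have hlt : r (f n₀) + I < b j ^ (r (f n₀) + I + 1) := by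
        have h6 : r (f n₀) + I + 1 < b j ^ (r (f n₀) + I + 1) := Nat.lt_pow_self (hb j)
        omega
      apply block (b j) (hb j) (a j) (ha j) (r (f n₀) + I + 1) n (r (f n₀)) I hlt _ (h4 j) i hi
      exact h3.of_dvd ((dvd_prod_of_mem (fun j => b j ^ (r (f n₀) + I + 1)) (mem_univ j)).trans
        (dvd_mul_left _ _))
    · intro q hq
      refine lt_of_le_of_lt ?_ (h5 q hq)
      exact mul_le_mul_of_nonneg_right (inf'_le _ (mem_univ _)) hff

end Pool.Agent.L5helper45.MB
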