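import Mathlib

set_option autoImplicit false

/-! # Correlations of a sequence in a Hilbert space with small exponential sums -/

namespace Pool.Agent.L5helper45.MB

open Finset

variable {E : Type*} [NormedAddCommGroup E] [InnerProductSpace ℂ E]

/-- orthogonality of the characters modulo `K` -/
lemma orth (K : ℕ) (hK : 1 ≤ K) (ζ : ℂ) (hζ : IsPrimitiveRoot ζ K) (i j : ℕ) (hi : i < K)
    (hj : j < K) : ∑ t ∈ range K, (starRingEnd ℂ) ((ζ ^ t) ^ i) * (ζ ^ t) ^ j =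
      if i = j then (K : ℂ) else 0 := by
  have hζn : ‖ζ‖ = 1 := hζ.norm'_eq_one (by omega)
  have hζ0 : ζ ≠ 0 := by
    intro h
    rw [h] at hζn
    simp at hζn
  have hconj : (starRingEnd ℂ) ζ = ζ⁻¹ := by
    rw [Complex.inv_def, Complex.normSq_eq_norm_sq, hζn]
    simp
  have h1 : ∀ t ∈ range K, (starRingEnd ℂ) ((ζ ^ t) ^ i) * (ζ ^ t) ^ j = ((ζ⁻¹) ^ i * ζ ^ j) ^ t := by
    intro t _
    rw [map_pow, map_pow, hconj, mul_pow, ← pow_mul, ← pow_mul, ← pow_mul, ← pow_mul,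
      mul_comm i t, mul_comm j t]
  rw [sum_congr rfl h1]
  split_ifs with hij
  · subst hij
    rw [← mul_pow, inv_mul_cancel₀ hζ0, one_pow]
    simp
  · set ω := (ζ⁻¹) ^ i * ζ ^ j with hω
    have h2 : ω ≠ 1 := by
      intro h3
      apply hij
      apply hζ.pow_inj hi hj
      calc ζ ^ i = ζ ^ i * ω := by rw [h3, mul_one]
        _ = ζ ^ j := by
            rw [hω, ← mul_assoc, ← mul_pow, mul_inv_cancel₀ hζ0, one_pow, one_mul]
    have h3 : ω ^ K = 1 := by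
      rw [hω, mul_pow, ← pow_mul, ← pow_mul, mul_comm i K, mul_comm j K, pow_mul, pow_mul, inv_pow,
        hζ.pow_eq_one, inv_one, one_pow, one_pow, mul_one]
    have h4 := geom_sum_mul ω K
    rw [h3, sub_self] at h4
    rcases mul_eq_zero.1 h4 with h5 | h5
    · exact h5
    · exact absurd (sub_eq_zero.1 h5) h2

/-- Parseval -/
lemma parseval (K : ℕ) (hK : 1 ≤ K) (ζ : ℂ) (hζ : IsPrimitiveRoot ζ K) (N : ℕ) (hN : N ≤ K)
    (c : ℕ → E) : ∑ t ∈ range K, ‖∑ m ∈ range N, (ζ ^ t) ^ m • c m‖ ^ 2 =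
      K * ∑ m ∈ range N, ‖c m‖ ^ 2 := by
  have h1 : ∀ t, ((‖∑ m ∈ range N, (ζ ^ t) ^ m • c m‖ ^ 2 : ℝ) : ℂ) =
      ∑ m ∈ range N, ∑ m' ∈ range N,
        ((starRingEnd ℂ) ((ζ ^ t) ^ m) * (ζ ^ t) ^ m') * inner ℂ (c m) (c m') := by
    intro t
    have : ((‖∑ m ∈ range N, (ζ ^ t) ^ m • c m‖ ^ 2 : ℝ) : ℂ) =
        inner ℂ (∑ m ∈ range N, (ζ ^ t) ^ m • c m) (∑ m ∈ range N, (ζ ^ t) ^ m • c m) := by
      rw [inner_self_eq_norm_sq_to_K]
      push_cast
      rfl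
    rw [this, sum_inner]
    refine sum_congr rfl fun m _ => ?_
    rw [inner_sum]
    refine sum_congr rfl fun m' _ => ?_
    rw [inner_smul_left, inner_smul_right]
    ring
  have h2 : (((∑ t ∈ range K, ‖∑ m ∈ range N, (ζ ^ t) ^ m • c m‖ ^ 2 : ℝ)) : ℂ) =
      ((K * ∑ m ∈ range N, ‖c m‖ ^ 2 : ℝ) : ℂ) := by
    rw [Complex.ofReal_sum, sum_congr rfl (fun t _ => h1 t), sum_comm]
    push_cast
    rw [mul_sum]
    refine sum_congr rfl fun m hm => ?_
    rw [sum_comm]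
    have h3 : ∀ m' ∈ range N, ∑ t ∈ range K, ((starRingEnd ℂ) ((ζ ^ t) ^ m) * (ζ ^ t) ^ m') *
        inner ℂ (c m) (c m') = if m = m' then (K : ℂ) * inner ℂ (c m) (c m') else 0 := by
      intro m' hm'
      rw [← sum_mul, orth K hK ζ hζ m m' (by have := mem_range.1 hm; omega)
        (by have := mem_range.1 hm'; omega)]
      split_ifs <;> simp
    rw [sum_congr rfl h3, sum_ite_eq, if_pos hm, inner_self_eq_norm_sq_to_K]
    rfl
  exact_mod_cast h2

/-- correlations on average -/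
lemma corr_bound (w : ℕ → E) (Q : ℕ) (hQ : 1 ≤ Q) (S : ℝ) (hS : ∀ z : ℂ, ‖z‖ = 1 →
    ‖∑ m ∈ range Q, z ^ m • w m‖ ≤ S) (hw : ∀ m < Q, ‖w m‖ ≤ 1) (R : ℕ) (hR : R ≤ Q) :
    ∑ s ∈ range R, ‖∑ m ∈ (range Q).filter (fun m => m + s < Q), inner ℂ (w m) (w (m + s))‖ ≤
      S * Real.sqrt (Q * R) := by
  classical
  set K : ℕ := 2 * Q with hK
  have hK1 : 1 ≤ K := by omega
  have hKr : (0 : ℝ) < K := by exact_mod_cast hK1
  have hKc : (K : ℂ) ≠ 0 := by exact_mod_cast hKr.ne'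
  obtain ⟨ζ, hζ⟩ : ∃ ζ : ℂ, IsPrimitiveRoot ζ K := ⟨_, Complex.isPrimitiveRoot_exp K (by omega)⟩
  have hζn : ‖ζ‖ = 1 := hζ.norm'_eq_one (by omega)
  have hS0 : 0 ≤ S := (norm_nonneg _).trans (hS 1 (by simp))
  set C : ℕ → ℂ := fun s => ∑ m ∈ (range Q).filter (fun m => m + s < Q),
    inner ℂ (w m) (w (m + s)) with hC
  -- the signs
  have hσ : ∀ s, ∃ σ : ℂ, ‖σ‖ ≤ 1 ∧ σ * C s = (‖C s‖ : ℂ) := by
    intro s
    by_cases h : C s = 0
    · exact ⟨0, by simp, by simp [h]⟩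
    · refine ⟨(starRingEnd ℂ) (C s) / ‖C s‖, ?_, ?_⟩
      · rw [norm_div, RCLike.norm_conj, Complex.norm_real, norm_norm,
          div_self (norm_ne_zero_iff.2 h)]
      · have hn : (‖C s‖ : ℂ) ≠ 0 := by exact_mod_cast norm_ne_zero_iff.2 h
        rw [div_mul_eq_mul_div, mul_comm, Complex.mul_conj, Complex.normSq_eq_norm_sq]
        push_cast
        field_simp
  choose σ hσ1 hσ2 using hσ
  set F : ℕ → E := fun t => ∑ m ∈ range Q, (ζ ^ t) ^ m • w m with hF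
  set D : ℕ → ℂ := fun t => ∑ s ∈ range R, (ζ ^ t) ^ s • (starRingEnd ℂ) (σ s) with hD
  have hFS : ∀ t, ‖F t‖ ≤ S := fun t => hS _ (by rw [norm_pow, hζn, one_pow])
  -- the identity
  have key : ∑ t ∈ range K, ((‖F t‖ ^ 2 : ℝ) : ℂ) * (starRingEnd ℂ) (D t) =
      K * ∑ s ∈ range R, σ s * C s := by
    have h1 : ∀ t ∈ range K, ((‖F t‖ ^ 2 : ℝ) : ℂ) * (starRingEnd ℂ) (D t) =
        ∑ s ∈ range R, ∑ m ∈ range Q, ∑ m' ∈ range Q,
          σ s * (((starRingEnd ℂ) ((ζ ^ t) ^ (m + s)) * (ζ ^ t) ^ m') * inner ℂ (w m) (w m')) := by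
      intro t _
      have e1 : ((‖F t‖ ^ 2 : ℝ) : ℂ) = inner ℂ (F t) (F t) := by
        rw [inner_self_eq_norm_sq_to_K]
        push_cast
        rfl
      have e2 : inner ℂ (F t) (F t) = ∑ m ∈ range Q, ∑ m' ∈ range Q,
          ((starRingEnd ℂ) ((ζ ^ t) ^ m) * (ζ ^ t) ^ m') * inner ℂ (w m) (w m') := by
        rw [hF]
        simp only
        rw [sum_inner]
        refine sum_congr rfl fun m _ => ?_
        rw [inner_sum]
        refine sum_congr rfl fun m' _ => ?_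
        rw [inner_smul_left, inner_smul_right]
        ring
      rw [e1, e2, hD]
      simp only
      rw [map_sum, mul_sum]
      refine sum_congr rfl fun s _ => ?_
      rw [sum_mul]
      refine sum_congr rfl fun m _ => ?_
      rw [sum_mul]
      refine sum_congr rfl fun m' _ => ?_
      rw [smul_eq_mul, map_mul, Complex.conj_conj, pow_add, map_mul]
      ring
    rw [sum_congr rfl h1, sum_comm, mul_sum]
    refine sum_congr rfl fun s hs => ?_
    have hs' := mem_range.1 hs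
    rw [sum_comm, hC]
    simp only
    rw [mul_sum, mul_sum, sum_filter]
    refine sum_congr rfl fun m hm => ?_
    have hm' := mem_range.1 hm
    rw [sum_comm]
    have h3 : ∀ m' ∈ range Q, ∑ t ∈ range K, σ s * (((starRingEnd ℂ) ((ζ ^ t) ^ (m + s)) *
        (ζ ^ t) ^ m') * inner ℂ (w m) (w m')) =
        if m + s = m' then (K : ℂ) * (σ s * inner ℂ (w m) (w m')) else 0 := by
      intro m' hm'
      rw [← mul_sum, ← sum_mul, orth K hK1 ζ hζ (m + s) m' (by omega)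
        (by have := mem_range.1 hm'; omega)]
      split_ifs
      · ring
      · simp
    rw [sum_congr rfl h3, sum_ite_eq]
    simp only [mem_range]
  -- real form
  have hreal : (K : ℝ) * ∑ s ∈ range R, ‖C s‖ ≤ ∑ t ∈ range K, S * (‖F t‖ * ‖D t‖) := by
    have h1 : ‖(K : ℂ) * ∑ s ∈ range R, σ s * C s‖ = K * ∑ s ∈ range R, ‖C s‖ := by
      rw [sum_congr rfl (fun s _ => hσ2 s), ← Complex.ofReal_sum, norm_mul, Complex.norm_natCast,
        Complex.norm_real, Real.norm_of_nonneg (sum_nonneg fun _ _ => norm_nonneg _)]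
    rw [← h1, ← key]
    refine (norm_sum_le _ _).trans (sum_le_sum fun t _ => ?_)
    rw [norm_mul, Complex.norm_real, RCLike.norm_conj, Real.norm_of_nonneg (by positivity), sq]
    calc ‖F t‖ * ‖F t‖ * ‖D t‖ = ‖F t‖ * (‖F t‖ * ‖D t‖) := by ring
      _ ≤ _ := mul_le_mul_of_nonneg_right (hFS t) (by positivity)
  have hPF : ∑ t ∈ range K, ‖F t‖ ^ 2 ≤ K * Q := by
    rw [hF, parseval K hK1 ζ hζ Q (by omega) w]
    apply mul_le_mul_of_nonneg_left _ hKr.le
    calc ∑ m ∈ range Q, ‖w m‖ ^ 2 ≤ ∑ m ∈ range Q, (1 : ℝ) := by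
          refine sum_le_sum fun m hm => ?_
          exact pow_le_one₀ (norm_nonneg _) (hw m (mem_range.1 hm))
      _ = Q := by simp
  have hPD : ∑ t ∈ range K, ‖D t‖ ^ 2 ≤ K * R := by
    rw [hD, parseval K hK1 ζ hζ R (by omega) (fun s => (starRingEnd ℂ) (σ s))]
    apply mul_le_mul_of_nonneg_left _ hKr.le
    calc ∑ m ∈ range R, ‖(starRingEnd ℂ) (σ m)‖ ^ 2 ≤ ∑ m ∈ range R, (1 : ℝ) := by
          refine sum_le_sum fun m _ => ?_
          rw [RCLike.norm_conj]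
          exact pow_le_one₀ (norm_nonneg _) (hσ1 m)
      _ = R := by simp
  have hCS : ∑ t ∈ range K, ‖F t‖ * ‖D t‖ ≤ K * Real.sqrt (Q * R) := by
    have h1 := sum_mul_sq_le_sq_mul_sq (range K) (fun t => ‖F t‖) (fun t => ‖D t‖)
    have h2 : (∑ t ∈ range K, ‖F t‖ * ‖D t‖) ^ 2 ≤ (K * Real.sqrt (Q * R)) ^ 2 := by
      refine h1.trans ?_
      rw [mul_pow, Real.sq_sqrt (by positivity)]
      calc _ ≤ (K * Q : ℝ) * (K * R) := mul_le_mul hPF hPD (sum_nonneg fun _ _ => by positivity)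
            (by positivity)
        _ = _ := by ring
    exact (pow_le_pow_iff_left₀ (sum_nonneg fun _ _ => by positivity) (by positivity)
      two_ne_zero).1 h2
  have hfin : (K : ℝ) * ∑ s ∈ range R, ‖C s‖ ≤ K * (S * Real.sqrt (Q * R)) := by
    refine hreal.trans ?_
    rw [← mul_sum]
    calc S * ∑ t ∈ range K, ‖F t‖ * ‖D t‖ ≤ S * (K * Real.sqrt (Q * R)) :=
          mul_le_mul_of_nonneg_left hCS hS0
      _ = _ := by ring
  exact le_of_mul_le_mul_left hfin hKr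

end Pool.Agent.L5helper45.MB
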