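import Pool.Agent.TH915.PW.IntCrit

set_option autoImplicit false

/-!
# Record prime-free neighbourhoods without the small primes dividing a fixed modulus

The criterion of `TH915/PW/Crit.lean` for families of integers which are well distributed only
modulo the `q` prime to a fixed modulus `m`: the sieve by the primes up to `log X / 10` is dilated
by `m`, so that the primes dividing `m` are not needed.
-/

namespace Pool.Agent.L5helper45.MB

open Finset Filter
open Pool.Agent.H256R2.SC (ff params survivors)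
open Pool.Agent.H469R2.NK (e norm_e e_add)
open Pool.Agent.TH915.PW (crt_small primorial_eq coveringG class_le)

open scoped Classical

/-- removing the primes dividing `m` from the sieve -/
lemma dilate (m : ℕ) (hm : 1 ≤ m) (Y : ℝ) (L : ℕ) (b : ℕ → ℕ) :
    ∃ f : ℕ → ℕ, ((Finset.Icc 1 (L / m - 1)).filter (fun k => ∀ p : ℕ, p.Prime → ¬ p ∣ m →
          (p : ℝ) ≤ Y → ¬ k ≡ f p [MOD p])).card ≤
        ((Finset.Icc 1 L).filter (fun k => ∀ p : ℕ, p.Prime →
          (p : ℝ) ≤ Y → ¬ k ≡ b p [MOD p])).card := by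
  -- the residue
  obtain ⟨r₀, hr₀⟩ := Nat.chineseRemainderOfFinset (fun p => b p + 1) (fun p => p) m.primeFactors
    (fun p hp => (Nat.prime_of_mem_primeFactors hp).ne_zero) (by
      intro p hp q hq hpq
      exact (Nat.coprime_primes (Nat.prime_of_mem_primeFactors hp)
        (Nat.prime_of_mem_primeFactors hq)).2 hpq)
  set r : ℕ := r₀ % m with hr
  have hrm : r < m := Nat.mod_lt _ (by omega)
  have hr1 : ∀ p, p.Prime → p ∣ m → r ≡ b p + 1 [MOD p] := by
    intro p hp hpm
    have h1 : r ≡ r₀ [MOD p] := (Nat.mod_modEq r₀ m).of_dvd hpm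
    exact h1.trans (hr₀ p (Nat.mem_primeFactors.2 ⟨hp, hpm, by omega⟩))
  have hf : ∀ p, ∃ x : ℕ, p.Prime → ¬ p ∣ m → m * x + r ≡ b p [MOD p] := by
    intro p
    by_cases h : p.Prime ∧ ¬ p ∣ m
    · have hco : Nat.Coprime m p := ((Nat.Prime.coprime_iff_not_dvd h.1).2 h.2).symm
      have := Fact.mk h.1
      have hm0 : (m : ZMod p) ≠ 0 := by
        rw [Ne, ZMod.natCast_eq_zero_iff]
        exact h.2
      refine ⟨((((b p : ZMod p) - r) * (m : ZMod p)⁻¹ : ZMod p)).val, fun _ _ => ?_⟩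
      rw [← ZMod.natCast_eq_natCast_iff]
      push_cast
      rw [ZMod.natCast_zmod_val, mul_comm ((b p : ZMod p) - r), ← mul_assoc, mul_inv_cancel₀ hm0]
      ring
    · exact ⟨0, fun h1 h2 => absurd ⟨h1, h2⟩ h⟩
  choose f hf using hf
  refine ⟨f, ?_⟩
  apply Finset.card_le_card_of_injOn (fun k => m * k + r)
  · intro k hk
    rw [Finset.mem_coe, Finset.mem_filter, Finset.mem_Icc] at hk
    rw [Finset.mem_coe, Finset.mem_filter, Finset.mem_Icc]
    obtain ⟨⟨h1, h2⟩, h3⟩ := hk
    refine ⟨⟨?_, ?_⟩, ?_⟩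
    · have : 1 ≤ m * k := Nat.mul_pos hm h1
      show 1 ≤ m * k + r
      omega
    · show m * k + r ≤ L
      have h4 : m * (k + 1) ≤ m * (L / m) := Nat.mul_le_mul_left _ (by omega)
      have h5 : m * (L / m) ≤ L := Nat.mul_div_le L m
      have h6 : m * (k + 1) = m * k + m := by ring
      omega
    · intro p hp hpY hcon
      have hcon : m * k + r ≡ b p [MOD p] := hcon
      by_cases hpm : p ∣ m
      · have h4 : m * k + r ≡ r [MOD p] := by
          have : m * k ≡ 0 [MOD p] := (Nat.modEq_zero_iff_dvd.2 (hpm.mul_right k))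
          simpa using this.add_right r
        have h5 : b p ≡ b p + 1 [MOD p] := hcon.symm.trans (h4.trans (hr1 p hp hpm))
        have h6 : 0 ≡ 1 [MOD p] := by
          have h7 : b p + 0 ≡ b p + 1 [MOD p] := by simpa using h5
          exact Nat.ModEq.add_left_cancel' _ h7
        have h7 : p ∣ 1 := (Nat.modEq_zero_iff_dvd).1 h6.symm
        exact hp.one_lt.ne' (Nat.dvd_one.1 h7)
      · apply h3 p hp hpm hpY
        have h4 : m * k + r ≡ m * f p + r [MOD p] := hcon.trans (hf p hp hpm).symm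
        have h5 : m * k ≡ m * f p [MOD p] := Nat.ModEq.add_right_cancel' _ h4
        exact Nat.ModEq.cancel_left_of_coprime
          ((Nat.Prime.coprime_iff_not_dvd hp).2 hpm) h5
  · intro k _ k' _ h
    simp only at h
    have : m * k = m * k' := by omega
    exact Nat.eq_of_mul_eq_mul_left (by omega) this

/-- integers: the criterion -/
theorem crit_cop (m : ℕ) (hm : 1 ≤ m) : ∃ κ : ℝ, 0 < κ ∧ ∃ X₀ : ℝ, ∀ X : ℝ, X₀ ≤ X →
    κ * ff X + 1 ≤ (Real.log X) ^ 2 ∧
    ∀ (ι : Type) (s : Finset ι) (v : ι → ℤ), s.Nonempty →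
    (∀ q : ℕ, 1 ≤ q → Nat.Coprime q m → (q : ℝ) ≤ X ^ (2 / 5 : ℝ) →
      ∀ r : ℤ, |((s.filter (fun i => (q : ℤ) ∣ v i - r)).card : ℝ) - s.card / q| ≤
        s.card * X ^ (-(3 / 5) : ℝ)) →
    ∃ i ∈ s, ∀ n : ℤ, |(n : ℝ) - v i| ≤ κ * ff X + 1 →
      ∃ p : ℕ, p.Prime ∧ (p : ℝ) ≤ X ^ (1 / 10 : ℝ) ∧ (p : ℤ) ∣ n := by
  obtain ⟨c₁, hc₁, X₁, hcov⟩ := coveringG
  obtain ⟨c, hc, X₂, hpar⟩ := params survivors c₁ hc₁
  have hmr : (1 : ℝ) ≤ m := by exact_mod_cast hm
  have hlogx : ∀ᶠ X : ℝ in atTop, Real.log X / 10 ≤ X ^ (1 / 10 : ℝ) := by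
    have h := (isLittleO_log_rpow_atTop (show (0 : ℝ) < 1 / 10 by norm_num)).def
      (show (0 : ℝ) < 1 by norm_num)
    filter_upwards [h, eventually_ge_atTop (1 : ℝ)] with X hX hX1
    rw [Real.norm_eq_abs, abs_of_nonneg (Real.log_nonneg hX1), Real.norm_eq_abs,
      abs_of_nonneg (Real.rpow_nonneg (by linarith) _)] at hX
    have := Real.log_nonneg hX1
    linarith
  obtain ⟨X₃, hX₃⟩ := eventually_atTop.mp hlogx
  have hL16 : ∀ᶠ X : ℝ in atTop, 160 * m ≤ Real.log X :=
    Real.tendsto_log_atTop.eventually_ge_atTop _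
  obtain ⟨X₄, hX₄⟩ := eventually_atTop.mp hL16
  refine ⟨c / (8 * m), by positivity, max (max X₁ X₂) (max X₃ (max X₄ 1)), ?_⟩
  intro X hX
  have hXX1 : X₁ ≤ X := ((le_max_left _ _).trans (le_max_left _ _)).trans hX
  have hXX2 : X₂ ≤ X := ((le_max_right _ _).trans (le_max_left _ _)).trans hX
  have hXX3 : X₃ ≤ X := ((le_max_left _ _).trans (le_max_right _ _)).trans hX
  have hXX4 : X₄ ≤ X := (((le_max_left _ _).trans (le_max_right _ _)).trans
    (le_max_right _ _)).trans hX
  have hX1 : 1 ≤ X := (((le_max_right _ _).trans (le_max_right _ _)).trans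
    (le_max_right _ _)).trans hX
  have hX0 : 0 < X := by linarith
  obtain ⟨hX1000, hLlog, hLge, hprim, b, hb1, hb2⟩ := hpar X hXX2
  have h3 := hX₃ X hXX3
  have h4 := hX₄ X hXX4
  set l : ℝ := Real.log X with hl
  set L₀ : ℕ := ⌊c * ff X⌋₊ with hL₀
  have hl160 : 160 ≤ l := by nlinarith
  have hL16m : (16 : ℝ) * m ≤ L₀ := by linarith
  have hL16m' : 16 * m ≤ L₀ := by exact_mod_cast hL16m
  obtain ⟨f, hf⟩ := dilate m hm (l / 10) L₀ b
  set L : ℕ := L₀ / m - 1 with hL
  have hLm : 16 ≤ L₀ / m := (Nat.le_div_iff_mul_le (by omega)).2 hL16m'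
  have hL15 : 15 ≤ L := by omega
  have hLL : L₀ + 1 ≤ m * (L + 2) := by
    have h5 : L₀ < m * (L₀ / m + 1) := Nat.lt_mul_div_succ L₀ (by omega)
    have h6 : L₀ / m + 1 = L + 2 := by omega
    rw [h6] at h5
    exact h5
  have hLL' : (L₀ : ℝ) + 1 ≤ m * (L + 2) := by exact_mod_cast hLL
  have hLleL₀ : L ≤ L₀ := by
    have := Nat.div_le_self L₀ m
    omega
  have hLlog' : (L : ℝ) < l ^ 2 := lt_of_le_of_lt (by exact_mod_cast hLleL₀) hLlog
  set Ny : ℕ := ⌊l / 10⌋₊ with hNy
  set S : Finset ℕ := ((Finset.range (Ny + 1)).filter Nat.Prime).filter (fun p => ¬ p ∣ m) with hS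
  set P : ℕ := ∏ p ∈ S, p with hPS
  have hSp : ∀ p ∈ S, p.Prime := fun p hp => (Finset.mem_filter.mp (Finset.mem_filter.mp hp).1).2
  have hSm : ∀ p ∈ S, ¬ p ∣ m := fun p hp => (Finset.mem_filter.mp hp).2
  have hSle : ∀ p ∈ S, (p : ℝ) ≤ l / 10 := by
    intro p hp
    have h5 := Finset.mem_range.mp (Finset.mem_filter.mp (Finset.mem_filter.mp hp).1).1
    have h6 : (p : ℝ) ≤ Ny := by exact_mod_cast Nat.lt_succ_iff.mp h5
    exact h6.trans (Nat.floor_le (by linarith))
  have hSmem : ∀ p : ℕ, p.Prime → ¬ p ∣ m → (p : ℝ) ≤ l / 10 → p ∈ S := by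
    intro p hp hpm hpl
    rw [hS, Finset.mem_filter, Finset.mem_filter, Finset.mem_range]
    exact ⟨⟨Nat.lt_succ_of_le (Nat.le_floor hpl), hp⟩, hpm⟩
  have hPpos : 0 < P := Finset.prod_pos fun p hp => (hSp p hp).pos
  have hPr : (0 : ℝ) < P := by exact_mod_cast hPpos
  have hPprim : (P : ℝ) ≤ X ^ (3 / 20 : ℝ) := by
    refine le_trans ?_ hprim
    have h5 : P ≤ primorial Ny := by
      rw [primorial_eq, hPS]
      apply Finset.prod_le_prod_of_subset_of_one_le' (Finset.filter_subset _ _)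
      intro p hp _
      exact (Finset.mem_filter.mp hp).2.one_le
    exact_mod_cast h5
  have hff : c * ff X < L₀ + 1 := Nat.lt_floor_add_one _
  have hκ8 : c / (8 * m) * ff X < (L + 2) / 8 := by
    have h5 : c * ff X < m * (L + 2) := by linarith
    have h6 : c / (8 * m) * ff X = c * ff X / (8 * m) := by ring
    rw [h6, div_lt_div_iff₀ (by positivity) (by norm_num)]
    nlinarith
  refine ⟨by nlinarith, ?_⟩
  intro ι s v hs hcount
  set h : ℕ := L / 2 with hh
  obtain ⟨r0, hr0⟩ := crt_small S hSp (fun p => f p + (p - 1) * h)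
  -- the candidates
  set 𝒜 : Finset ι := s.filter (fun i => (P : ℤ) ∣ v i - r0) with h𝒜
  set U : Finset ℕ := (Finset.Icc 1 L).filter (fun k => ∀ p : ℕ, p.Prime → ¬ p ∣ m →
          (p : ℝ) ≤ l / 10 → ¬ k ≡ f p [MOD p]) with hU
  have hcard : (Fintype.card {k // k ∈ U} : ℝ) ≤ c₁ * l := by
    rw [Fintype.card_coe]
    refine le_trans ?_ hb2
    exact_mod_cast hf
  set res : ℕ → {k // k ∈ U} → ℤ := fun _ k => (h : ℤ) - (k.1 : ℤ) with hres
  have hinj : ∀ p : ℕ, p.Prime → l ^ 2 < p → (p : ℝ) ≤ X ^ (1 / 10 : ℝ) →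
      p ∉ (∅ : Finset ℕ) → ∀ k k' : {k // k ∈ U}, k ≠ k' → ¬ ((p : ℤ) ∣ res p k - res p k') := by
    intro p hp hpl _ _ k k' hkk hd
    have h5 : res p k - res p k' = (k'.1 : ℤ) - (k.1 : ℤ) := by rw [hres]; ring
    rw [h5] at hd
    have hk := Finset.mem_Icc.mp (Finset.mem_filter.mp k.2).1
    have hk' := Finset.mem_Icc.mp (Finset.mem_filter.mp k'.2).1
    have hLp : L < p := by
      have : (L : ℝ) < p := by linarith
      exact_mod_cast this
    have hne : k.1 ≠ k'.1 := fun h => hkk (Subtype.ext h)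
    rcases lt_or_gt_of_ne hne with h6 | h6
    · have := Int.le_of_dvd (by omega) hd
      omega
    · have h7 : (p : ℤ) ∣ (k.1 : ℤ) - (k'.1 : ℤ) := by
        have := (dvd_neg (a := (p : ℤ))).mpr hd
        rwa [neg_sub] at this
      have := Int.le_of_dvd (by omega) h7
      omega
  have hscard : (0 : ℝ) < s.card := by exact_mod_cast hs.card_pos
  obtain ⟨i, hi, hcovi⟩ := hcov X hXX1 ∅ (by simp; linarith) {k // k ∈ U} hcard res hinj ι 𝒜 v
    (s.card / P) (s.card * X ^ (-(3 / 5) : ℝ)) (by positivity) (by positivity) (by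
      have h5 : (P : ℝ) * X ^ (-(3 / 5) : ℝ) ≤ X ^ (-(2 / 5) : ℝ) := by
        calc (P : ℝ) * X ^ (-(3 / 5) : ℝ) ≤ X ^ (3 / 20 : ℝ) * X ^ (-(3 / 5) : ℝ) := by gcongr
          _ = X ^ (3 / 20 + -(3 / 5) : ℝ) := by rw [Real.rpow_add hX0]
          _ ≤ _ := Real.rpow_le_rpow_of_exponent_le hX1 (by norm_num)
      rw [div_mul_eq_mul_div, le_div_iff₀ hPr]
      calc (s.card : ℝ) * X ^ (-(3 / 5) : ℝ) * P = s.card * (P * X ^ (-(3 / 5) : ℝ)) := by ring
        _ ≤ _ := by gcongr) (by
      intro q hq hqX hqp r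
      have hcop : Nat.Coprime P q := by
        rw [Nat.coprime_comm, hPS]
        apply Nat.Coprime.prod_right
        intro p hp
        rw [Nat.coprime_comm, Nat.Prime.coprime_iff_not_dvd (hSp p hp)]
        intro hd
        have h5 : p ∈ q.primeFactors := Nat.mem_primeFactors.mpr ⟨hSp p hp, hd, hq.ne_zero⟩
        have h6 := (hqp p h5).1
        have h7 := hSle p hp
        have h8 : l ≤ l ^ 2 := by nlinarith
        linarith
      have hcopm : Nat.Coprime (P * q) m := by
        apply Nat.Coprime.mul_left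
        · rw [Nat.coprime_comm, hPS]
          apply Nat.Coprime.prod_right
          intro p hp
          rw [Nat.coprime_comm, Nat.Prime.coprime_iff_not_dvd (hSp p hp)]
          exact hSm p hp
        · apply Nat.Coprime.symm
          apply Nat.Coprime.symm
          apply Nat.coprime_of_dvd
          intro p hp hpq hpm
          have h5 : p ∈ q.primeFactors := Nat.mem_primeFactors.mpr ⟨hp, hpq, hq.ne_zero⟩
          have h6 := (hqp p h5).1
          have h7 : p ≤ m := Nat.le_of_dvd (by omega) hpm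
          have h8 : (p : ℝ) ≤ m := by exact_mod_cast h7
          have h9 : l ≤ l ^ 2 := by nlinarith
          nlinarith
      have hq1 : 1 ≤ q := Nat.one_le_iff_ne_zero.mpr hq.ne_zero
      obtain ⟨u, w, huw⟩ := Nat.isCoprime_iff_coprime.2 hcop
      -- huw : u * P + w * q = 1
      set r' : ℤ := r0 * (w * q) + r * (u * P) with hr'
      have hiff : ∀ x : ℤ, ((P : ℤ) ∣ x - r0 ∧ (q : ℤ) ∣ x - r) ↔ ((P * q : ℕ) : ℤ) ∣ x - r' := by
        intro x
        have e1 : r0 - r' = (r0 - r) * u * P := by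
          rw [hr']
          linear_combination (-(r0 : ℤ)) * huw
        have e2 : r - r' = (r - r0) * w * q := by
          rw [hr']
          linear_combination (-(r : ℤ)) * huw
        constructor
        · rintro ⟨h5, h6⟩
          have h7 : (P : ℤ) ∣ x - r' := by
            have : x - r' = (x - r0) + (r0 - r) * u * P := by rw [← e1]; ring
            rw [this]
            exact dvd_add h5 (Dvd.intro_left _ rfl)
          have h8 : (q : ℤ) ∣ x - r' := by
            have : x - r' = (x - r) + (r - r0) * w * q := by rw [← e2]; ring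
            rw [this]
            exact dvd_add h6 (Dvd.intro_left _ rfl)
          push_cast
          exact IsCoprime.mul_dvd (Nat.isCoprime_iff_coprime.2 hcop) h7 h8
        · intro h5
          push_cast at h5
          constructor
          · have h6 : (P : ℤ) ∣ x - r' := (dvd_mul_right _ _).trans h5
            have : x - r0 = (x - r') - (r0 - r) * u * P := by rw [← e1]; ring
            rw [this]
            exact dvd_sub h6 (Dvd.intro_left _ rfl)
          · have h6 : (q : ℤ) ∣ x - r' := (dvd_mul_left _ _).trans h5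
            have : x - r = (x - r') - (r - r0) * w * q := by rw [← e2]; ring
            rw [this]
            exact dvd_sub h6 (Dvd.intro_left _ rfl)
      have h5 : 𝒜.filter (fun x => (q : ℤ) ∣ v x - r) =
          s.filter (fun x => ((P * q : ℕ) : ℤ) ∣ v x - r') := by
        rw [h𝒜, Finset.filter_filter]
        apply Finset.filter_congr
        intro x _
        exact hiff (v x)
      rw [h5]
      have h6 : (s.card : ℝ) / P / q = s.card / ((P * q : ℕ) : ℝ) := by
        push_cast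
        rw [div_div]
      rw [h6]
      apply hcount (P * q) (Nat.mul_pos hPpos hq1) hcopm
      push_cast
      calc (P : ℝ) * q ≤ X ^ (3 / 20 : ℝ) * X ^ (1 / 4 : ℝ) := by gcongr
        _ = X ^ (3 / 20 + 1 / 4 : ℝ) := by rw [Real.rpow_add hX0]
        _ = _ := by norm_num)
  rw [h𝒜, Finset.mem_filter] at hi
  refine ⟨i, hi.1, ?_⟩
  intro n hn
  have hL15r : (15 : ℝ) ≤ L := by exact_mod_cast hL15
  have hLh : (L : ℝ) ≤ 2 * h + 1 := by
    have : L ≤ 2 * h + 1 := by omega
    exact_mod_cast this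
  have hLh' : 2 * (h : ℝ) ≤ L := by
    have : 2 * h ≤ L := by omega
    exact_mod_cast this
  have hn' := abs_le.mp hn
  have hk1 : (1 : ℤ) ≤ n - v i + h := by
    have : (0 : ℝ) < ((n - v i + h : ℤ) : ℝ) := by
      push_cast
      linarith [hn'.1]
    have : (0 : ℤ) < n - v i + h := by exact_mod_cast this
    omega
  have hk2 : n - v i + h ≤ L := by
    have : ((n - v i + h : ℤ) : ℝ) ≤ ((L : ℤ) : ℝ) := by
      push_cast
      linarith [hn'.2]
    exact_mod_cast this
  obtain ⟨k, hk⟩ : ∃ k : ℕ, (k : ℤ) = n - v i + h := ⟨(n - v i + h).toNat, by omega⟩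
  have hkIcc : k ∈ Finset.Icc 1 L := by
    rw [Finset.mem_Icc]
    omega
  by_cases hkU : k ∈ U
  · obtain ⟨p, hp, _, hpX, _, hd⟩ := hcovi ⟨k, hkU⟩
    refine ⟨p, hp, hpX, ?_⟩
    have : v i - res p ⟨k, hkU⟩ = n := by
      rw [hres]
      simp only
      omega
    rwa [this] at hd
  · have h5 : ∃ p : ℕ, p.Prime ∧ ¬ p ∣ m ∧ (p : ℝ) ≤ l / 10 ∧ k ≡ f p [MOD p] := by
      by_contra hcon
      push Not at hcon
      exact hkU (Finset.mem_filter.mpr ⟨hkIcc, hcon⟩)
    obtain ⟨p, hp, hpm, hpl, hkb⟩ := h5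
    refine ⟨p, hp, hpl.trans h3, ?_⟩
    have hpS := hSmem p hp hpm hpl
    have h6 : (p : ℤ) ∣ (r0 : ℤ) + ((f p : ℤ) + ((p : ℤ) - 1) * h) := by
      have h7 := Int.natCast_dvd_natCast.mpr (hr0 p hpS)
      push_cast [Nat.cast_sub hp.one_le] at h7
      exact h7
    have h7 : (p : ℤ) ∣ v i - r0 := by
      refine dvd_trans ?_ hi.2
      rw [hPS]
      exact Int.natCast_dvd_natCast.mpr (Finset.dvd_prod_of_mem _ hpS)
    have h8 : (p : ℤ) ∣ (k : ℤ) - f p := by
      have := (Nat.modEq_iff_dvd.mp hkb)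
      rw [← neg_sub]
      exact (dvd_neg).mpr this
    have h9 : n = (v i - r0) + ((r0 : ℤ) + ((f p : ℤ) + ((p : ℤ) - 1) * h)) +
        ((k : ℤ) - f p) - p * h := by
      rw [hk]; ring
    rw [h9]
    exact dvd_sub (dvd_add (dvd_add h7 h6) h8) (Dvd.intro _ rfl)

end Pool.Agent.L5helper45.MB
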