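import Pool.Agent.L5helper45.MB.Spec
import Pool.Agent.L5helper45.MB.Corr

set_option autoImplicit false

/-! # Digital functions with values in a finite group: one base -/

namespace Pool.Agent.L5helper45.MB

open Finset

section Decomp

variable {E : Type*} [NormedAddCommGroup E] [InnerProductSpace ℂ E]

/-- the linear part of a sequence -/
lemma decomp [FiniteDimensional ℂ E] (R : ℕ → E →ₗᵢ[ℂ] E) (b : ℕ) (hb : 2 ≤ b)
    (v : ℕ → E) (hv : ∀ n d, d < b → v (b * n + d) = R d (v n)) :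
    ∃ u w : ℕ → E, (∀ n, v n = u n + w n) ∧ (∀ n, u n ∈ LinPart R b) ∧
      (∀ n, w n ∈ (LinPart R b)ᗮ) ∧ (∀ n d, d < b → w (b * n + d) = R d (w n)) ∧
      (∀ n, u n = (R 1)^[n] (u 0)) := by
  choose u hu w hw huw using fun n =>
    Submodule.exists_add_mem_mem_orthogonal (K := LinPart R b) (v n)
  have huniq : ∀ y ∈ LinPart R b, ∀ y' ∈ LinPart R b, ∀ z ∈ (LinPart R b)ᗮ, ∀ z' ∈ (LinPart R b)ᗮ,
      y + z = y' + z' → y = y' ∧ z = z' := by
    intro y hy y' hy' z hz z' hz' h
    have h1 : y - y' = z' - z := by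
      rw [sub_eq_sub_iff_add_eq_add, h, add_comm]
    have h2 : y - y' ∈ LinPart R b := Submodule.sub_mem _ hy hy'
    have h3 : y - y' ∈ (LinPart R b)ᗮ := by rw [h1]; exact Submodule.sub_mem _ hz' hz
    have h4 : y - y' = 0 := inner_self_eq_zero.1 ((Submodule.mem_orthogonal _ _).1 h3 _ h2)
    refine ⟨sub_eq_zero.1 h4, ?_⟩
    rw [h4] at h1
    exact (sub_eq_zero.1 h1.symm).symm
  have hstep : ∀ n d, d < b → u (b * n + d) = (R 1)^[d] (u n) ∧ w (b * n + d) = R d (w n) := by
    intro n d hd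
    have h1 : u (b * n + d) + w (b * n + d) = R d (u n) + R d (w n) := by
      rw [← huw, hv n d hd, huw n, map_add]
    have h2 : R d (u n) = (R 1)^[d] (u n) := LinPart_R R b (u n) (hu n) d hd
    rw [h2] at h1
    exact huniq _ (hu _) _ (LinPart_iter R b (u n) (hu n) d) _ (hw _) _
      (perp_R R b hb (w n) (hw n) d hd) h1
  refine ⟨u, w, huw, hu, hw, fun n d hd => (hstep n d hd).2, ?_⟩
  intro n
  induction n using Nat.strong_induction_on with
  | _ n ih =>
    rcases Nat.eq_zero_or_pos n with rfl | hn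
    · rfl
    · have h1 : n / b < n := Nat.div_lt_self hn (by omega)
      have h2 := (hstep (n / b) (n % b) (Nat.mod_lt _ (by omega))).1
      rw [Nat.div_add_mod, ih _ h1, ← Function.iterate_add_apply] at h2
      rw [h2]
      have h3 : n = (n % b + n / b) + (b - 1) * (n / b) := by
        obtain ⟨c, rfl⟩ : ∃ c, b = c + 1 := ⟨b - 1, by omega⟩
        have := Nat.div_add_mod n (c + 1)
        simp only [Nat.add_sub_cancel]
        nlinarith
      conv_rhs => rw [h3, Function.iterate_add_apply, LinPart_period R b (u 0) (hu 0)]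

lemma inner_iter (R : E →ₗᵢ[ℂ] E) (n : ℕ) (x y : E) :
    inner ℂ (R^[n] x) (R^[n] y) = inner ℂ x y := by
  induction n with
  | zero => rfl
  | succ n ih => rw [Function.iterate_succ_apply', Function.iterate_succ_apply',
      LinearIsometry.inner_map_map, ih]

end Decomp

section Grp

variable {G : Type} [Group G] [Fintype G] [DecidableEq G]

/-- right translation of functions -/
noncomputable def Rt (g : G) : EuclideanSpace ℂ G →ₗᵢ[ℂ] EuclideanSpace ℂ G :=
  (LinearIsometryEquiv.piLpCongrLeft 2 ℂ ℂ (Equiv.mulRight g)).toLinearIsometry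

omit [DecidableEq G] in
lemma Rt_apply (g : G) (f : EuclideanSpace ℂ G) (x : G) : Rt g f x = f (x * g⁻¹) := by
  unfold Rt
  simp [LinearIsometryEquiv.piLpCongrLeft_apply, Equiv.mulRight_symm]

lemma Rt_single (g x : G) : Rt g (EuclideanSpace.single x (1 : ℂ)) =
    EuclideanSpace.single (x * g) (1 : ℂ) := by
  ext y
  rw [Rt_apply]
  simp only [PiLp.single_apply]
  congr 1
  rw [eq_iff_iff]
  constructor
  · intro h
    rw [← h, inv_mul_cancel_right]
  · intro h
    rw [h, mul_inv_cancel_right]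

/-- one base -/
lemma base (b : ℕ) (hb : 2 ≤ b) (a : ℕ → G) (ha : ∀ n d, d < b → a (b * n + d) = a n * a d) :
    ∃ (u : ℕ → G → ℂ) (γ : ℕ → ℂ) (p ρ : ℝ), (1 ≤ ρ ∧ ρ < (b : ℝ) ^ 2) ∧ (0 < p ∧ p ≤ 1) ∧
      γ 0 = p ∧ (∀ s, ‖γ s‖ ≤ 1) ∧
      (∀ n, u n (a n) = p) ∧ (∀ n k, u (n + (b - 1) * k) = u n) ∧
      (∀ n s, ∑ x, (starRingEnd ℂ) (u n x) * u (n + s) x = γ s) ∧
      (∀ n m, u m (a n) = ∑ x, (starRingEnd ℂ) (u n x) * u m x) ∧
      (∀ L R : ℕ, R ≤ (b ^ 2) ^ L → ∑ s ∈ range R,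
        ‖∑ m ∈ (range ((b ^ 2) ^ L)).filter (fun m => m + s < (b ^ 2) ^ L),
          ((if a m = a (m + s) then (1 : ℂ) else 0) - γ s)‖ ≤
        ρ ^ L * Real.sqrt (((b ^ 2) ^ L : ℕ) * R)) := by
  have ha0 : a 0 = 1 := by
    have := ha 0 0 (by omega)
    simpa using this
  set R : ℕ → EuclideanSpace ℂ G →ₗᵢ[ℂ] EuclideanSpace ℂ G := fun d => Rt (a d) with hR
  set v : ℕ → EuclideanSpace ℂ G := fun n => EuclideanSpace.single (a n) (1 : ℂ) with hv
  have hR0 : ∀ f, R 0 f = f := by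
    intro f
    ext x
    rw [hR]
    simp only
    rw [Rt_apply, ha0, inv_one, mul_one]
  have hvR : ∀ n d, d < b → v (b * n + d) = R d (v n) := by
    intro n d hd
    rw [hv, hR]
    simp only
    rw [Rt_single, ha n d hd]
  obtain ⟨ρ, hρ1, hρ2, hρ3⟩ := contraction R b hb hR0
  obtain ⟨u, w, huw, hu, hw, hwR, hu0⟩ := decomp R b hb v hvR
  have hvn : ∀ n, ‖v n‖ = 1 := fun n => by rw [hv]; simp
  have huw0 : ∀ n m, inner ℂ (u n) (w m) = 0 := fun n m =>
    (Submodule.mem_orthogonal _ _).1 (hw m) _ (hu n)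
  have hwu0 : ∀ n m, inner ℂ (w n) (u m) = 0 := fun n m => by
    rw [← inner_conj_symm, huw0, map_zero]
  have hvu : ∀ n m, inner ℂ (v n) (u m) = inner ℂ (u n) (u m) := fun n m => by
    rw [huw n, inner_add_left, hwu0, add_zero]
  have hvw : ∀ n m, inner ℂ (w n) (w m) = inner ℂ (v n) (v m) - inner ℂ (u n) (u m) := fun n m => by
    rw [huw n, huw m, inner_add_left, inner_add_right, inner_add_right, huw0, hwu0]
    ring
  have huu : ∀ n s, inner ℂ (u n) (u (n + s)) = inner ℂ (u 0) ((R 1)^[s] (u 0)) := fun n s => by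
    rw [hu0 (n + s), Function.iterate_add_apply, hu0 n, inner_iter]
  have hunorm : ∀ n, ‖u n‖ = ‖u 0‖ := by
    intro n
    have h1 := huu n 0
    rw [add_zero, Function.iterate_zero_apply, inner_self_eq_norm_sq_to_K,
      inner_self_eq_norm_sq_to_K] at h1
    have h2 : ‖u n‖ ^ 2 = ‖u 0‖ ^ 2 := by exact_mod_cast h1
    exact (pow_left_inj₀ (norm_nonneg _) (norm_nonneg _) two_ne_zero).1 h2
  have hpyth : ∀ n, ‖v n‖ ^ 2 = ‖u n‖ ^ 2 + ‖w n‖ ^ 2 := by
    intro n
    rw [huw n, sq, sq, sq]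
    exact norm_add_sq_eq_norm_sq_add_norm_sq_of_inner_eq_zero _ _ (huw0 n n)
  have hu1 : ‖u 0‖ ^ 2 ≤ 1 := by
    have := hpyth 0
    rw [hvn] at this
    nlinarith [sq_nonneg ‖w 0‖]
  have hw1 : ∀ n, ‖w n‖ ≤ 1 := by
    intro n
    have := hpyth n
    rw [hvn] at this
    have h2 : ‖w n‖ ^ 2 ≤ 1 := by nlinarith [sq_nonneg ‖u n‖]
    exact (sq_le_one_iff₀ (norm_nonneg _)).1 h2
  have hupos : 0 < ‖u 0‖ ^ 2 := by
    -- the constant function
    set c : EuclideanSpace ℂ G := WithLp.toLp 2 (fun _ => (1 : ℂ)) with hc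
    have hRc : ∀ d, R d c = c := by
      intro d
      ext x
      rw [hR]
      simp only
      rw [Rt_apply]
    have hiter : ∀ k, (R 1)^[k] c = c := by
      intro k
      induction k with
      | zero => rfl
      | succ k ih => rw [Function.iterate_succ_apply', ih, hRc]
    have hcmem : c ∈ LinPart R b := by
      rw [mem_LinPart]
      exact ⟨fun k d _ => by rw [hiter, hiter, hRc], hiter _⟩
    have h1 : inner ℂ c (v 0) = 1 := by
      rw [hv]
      simp only
      rw [EuclideanSpace.inner_single_right]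
      simp [hc]
    have h2 : inner ℂ c (w 0) = 0 := (Submodule.mem_orthogonal _ _).1 (hw 0) _ hcmem
    have h3 : inner ℂ c (u 0) = 1 := by
      rw [huw 0, inner_add_right, h2, add_zero] at h1
      exact h1
    have h4 : u 0 ≠ 0 := by
      intro h
      rw [h, inner_zero_right] at h3
      exact zero_ne_one h3
    have := norm_pos_iff.2 h4
    positivity
  have hinner : ∀ f g : EuclideanSpace ℂ G, inner ℂ f g = ∑ x, (starRingEnd ℂ) (f x) * g x := by
    intro f g
    rw [PiLp.inner_apply]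
    refine sum_congr rfl fun x _ => ?_
    rw [RCLike.inner_apply, mul_comm]
  have hvf : ∀ n (f : EuclideanSpace ℂ G), inner ℂ (v n) f = f (a n) := by
    intro n f
    rw [hv]
    simp only
    rw [EuclideanSpace.inner_single_left]
    simp
  refine ⟨fun n x => u n x, fun s => inner ℂ (u 0) ((R 1)^[s] (u 0)), ‖u 0‖ ^ 2, ρ, ⟨hρ1, hρ2⟩,
    ⟨hupos, hu1⟩, ?_, ?_, ?_, ?_, ?_, ?_, ?_⟩
  · beta_reduce
    rw [Function.iterate_zero_apply, inner_self_eq_norm_sq_to_K]
    push_cast
    rfl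
  · intro s
    beta_reduce
    refine (norm_inner_le_norm _ _).trans ?_
    rw [← hu0 s, hunorm s, ← sq]
    exact hu1
  · intro n
    have h1 := hvf n (u n)
    rw [hvu, inner_self_eq_norm_sq_to_K, hunorm] at h1
    beta_reduce
    rw [← h1]
    push_cast
    rfl
  · intro n k
    have h1 : u (n + (b - 1) * k) = u n := by
      rw [hu0 (n + (b - 1) * k), Function.iterate_add_apply, LinPart_period R b (u 0) (hu 0),
        ← hu0 n]
    simp only [h1]
  · intro n s
    beta_reduce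
    rw [← hinner, huu]
  · intro n m
    beta_reduce
    rw [← hinner, ← hvu, hvf]
  · intro L K hK
    have hQ : 1 ≤ (b ^ 2) ^ L := Nat.one_le_iff_ne_zero.2 (by positivity)
    have h1 := corr_bound w ((b ^ 2) ^ L) hQ (ρ ^ L) (by
      intro z hz
      refine (sup_bound R b ρ (by linarith) hρ3 w hwR hw L z hz).trans ?_
      calc ρ ^ L * ‖w 0‖ ≤ ρ ^ L * 1 := mul_le_mul_of_nonneg_left (hw1 0) (by positivity)
        _ = _ := mul_one _) (fun m _ => hw1 m) K hK
    refine le_trans (le_of_eq ?_) h1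
    refine sum_congr rfl fun s _ => ?_
    congr 1
    refine sum_congr rfl fun m _ => ?_
    rw [hvw, huu, hvf]
    congr 1
    rw [hv]
    simp only [PiLp.single_apply]

end Grp

end Pool.Agent.L5helper45.MB
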