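import Pool.Agent.L5helper45.MB.Asym
import Pool.Agent.L5helper45.MB.CritCop
import Pool.Agent.TH915.PW.ExpC

set_option autoImplicit false

/-! # Record gaps around integers with prescribed digital functions in several bases -/

namespace Pool.Agent.L5helper45.MB

open Finset Filter
open Pool.Agent.H469R2.NK (e norm_e e_add)
open Pool.Agent.W147.PS (ff ff_compare ev_pow)
open Pool.Agent.TH915.PW (class_le norm_linear e_int e_natmul sum_char)

/-- Families of integers whose exponential sums at the small rationals `h / q` with `q` prime to `m`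
save a power of `M` have a member without primes at record distance. -/
theorem crit_int_cop (m : ℕ) (hm : 1 ≤ m) (η : ℝ) (h0 : 0 < η) (h1 : η ≤ 1) :
    ∃ κ : ℝ, 0 < κ ∧ ∀ᶠ M : ℝ in atTop,
    ∀ (ι : Type) (s : Finset ι) (v : ι → ℤ), s.Nonempty → (∀ i ∈ s, M ≤ v i) →
    (∀ q h : ℕ, (q : ℝ) ≤ M ^ η → Nat.Coprime q m → 1 ≤ h → h < q →
      ‖∑ i ∈ s, e ((h : ℝ) / q * v i)‖ ≤ s.card * M ^ (-η)) →
    ∃ i ∈ s, ∀ q : ℕ, q.Prime → κ * ff M < |(q : ℝ) - v i| := by
  obtain ⟨κ, hκ, X₀, hc⟩ := crit_cop m hm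
  refine ⟨κ * (η / 32), by positivity, ?_⟩
  filter_upwards [ff_compare η h0 h1, (tendsto_rpow_atTop h0).eventually_ge_atTop (max X₀ 1),
    eventually_ge_atTop (1 : ℝ), Pool.Agent.H256R2.SC.ev_log_sq, ev_pow (1 / 10) 1 4 (by norm_num)]
    with M hM hMX hM1 hlog hM10
  intro ι s v hs hv hE
  have hM0 : 0 < M := by linarith
  obtain ⟨hfl, hcr⟩ := hc (M ^ η) ((le_max_left _ _).trans hMX)
  have hX1 : 1 ≤ M ^ η := (le_max_right _ _).trans hMX
  have hXM : M ^ η ≤ M := by
    calc M ^ η ≤ M ^ (1 : ℝ) := Real.rpow_le_rpow_of_exponent_le hM1 h1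
      _ = M := Real.rpow_one M
  have hpX : (M ^ η) ^ (1 / 10 : ℝ) ≤ M / 4 := by
    rw [Real.rpow_one] at hM10
    have : (M ^ η) ^ (1 / 10 : ℝ) ≤ M ^ (1 / 10 : ℝ) :=
      Real.rpow_le_rpow (by positivity) hXM (by norm_num)
    linarith
  have hN : (0 : ℝ) < s.card := by exact_mod_cast hs.card_pos
  obtain ⟨i, hi, hi2⟩ := hcr ι s v hs (by
    intro q hq hqm hqX r
    refine (class_le s v q hq (s.card * M ^ (-η)) (by positivity) ?_ r).trans ?_
    · intro h hh1 hh2
      apply hE q h _ hqm hh1 hh2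
      refine hqX.trans ?_
      calc (M ^ η) ^ (2 / 5 : ℝ) ≤ (M ^ η) ^ (1 : ℝ) :=
            Real.rpow_le_rpow_of_exponent_le hX1 (by norm_num)
        _ = _ := Real.rpow_one _
    · apply mul_le_mul_of_nonneg_left _ hN.le
      rw [← Real.rpow_mul hM0.le]
      apply Real.rpow_le_rpow_of_exponent_le hM1
      linarith)
  have h5 := (hM.2 (M ^ η) le_rfl (by
    calc M ^ η ≤ M ^ (2 : ℝ) := Real.rpow_le_rpow_of_exponent_le hM1 (by linarith)
      _ = M ^ 2 := by norm_num)).1
  have h6 : κ * (η / 32) * ff M ≤ κ * Pool.Agent.H256R2.SC.ff (M ^ η) := by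
    calc κ * (η / 32) * ff M = κ * (η / 32 * ff M) := by ring
      _ ≤ _ := mul_le_mul_of_nonneg_left h5 hκ.le
  refine ⟨i, hi, fun q hq => ?_⟩
  by_contra hcon
  push Not at hcon
  obtain ⟨p, hp, hpX', hpd⟩ := hi2 q (by
    push_cast
    linarith)
  have h7 : p = q := (Nat.prime_dvd_prime_iff_eq hp hq).mp (by exact_mod_cast hpd)
  rw [h7] at hpX'
  have h8 := hv i hi
  have h9 := (abs_le.mp hcon).1
  have h10 : (Real.log (M ^ η)) ^ 2 ≤ (Real.log M) ^ 2 := by
    rw [Real.log_rpow hM0]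
    have := Real.log_nonneg hM1
    apply pow_le_pow_left₀ (by positivity)
    nlinarith
  linarith

/-- detecting a residue class -/
lemma ap_sum (m : ℕ) (hm : 1 ≤ m) (c : ℕ) (F : ℕ → ℂ) (N H : ℕ) (θ B : ℝ)
    (hB : ∀ l < m, ‖∑ n ∈ range H, e (((N + n : ℕ) : ℝ) * (θ + l / m)) * F (N + n)‖ ≤ B) :
    ‖∑ n ∈ (range H).filter (fun n => N + n ≡ c [MOD m]), e (((N + n : ℕ) : ℝ) * θ) * F (N + n)‖
      ≤ B := by
  have hm0 : 0 < m := hm
  have hm' : (0 : ℝ) < m := by exact_mod_cast hm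
  have hmc : (m : ℂ) ≠ 0 := by exact_mod_cast hm'.ne'
  have h1 : ∀ k : ℤ, ∑ l ∈ range m, e (k * ((l : ℝ) / m)) = if (m : ℤ) ∣ k then (m : ℂ) else 0 := by
    intro k
    split_ifs with hk
    · obtain ⟨t, rfl⟩ := hk
      have : ∀ l ∈ range m, e (((m : ℤ) * t : ℤ) * ((l : ℝ) / m)) = 1 := by
        intro l _
        have e1 : (((m : ℤ) * t : ℤ) : ℝ) * ((l : ℝ) / m) = ((t * l : ℤ) : ℝ) := by
          push_cast
          field_simp
        rw [e1]
        exact e_int _
      rw [sum_congr rfl this]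
      simp
    · exact sum_char m hm0 k hk
  have h2 : (m : ℂ) * ∑ n ∈ (range H).filter (fun n => N + n ≡ c [MOD m]),
      e (((N + n : ℕ) : ℝ) * θ) * F (N + n) =
      ∑ l ∈ range m, e (-(c : ℝ) * ((l : ℝ) / m)) *
        ∑ n ∈ range H, e (((N + n : ℕ) : ℝ) * (θ + l / m)) * F (N + n) := by
    have h3 : ∀ l ∈ range m, e (-(c : ℝ) * ((l : ℝ) / m)) *
        ∑ n ∈ range H, e (((N + n : ℕ) : ℝ) * (θ + l / m)) * F (N + n) =
        ∑ n ∈ range H, (e (((N + n : ℕ) : ℝ) * θ) * F (N + n)) *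
          e ((((N + n : ℕ) : ℤ) - (c : ℤ) : ℤ) * ((l : ℝ) / m)) := by
      intro l _
      rw [mul_sum]
      refine sum_congr rfl fun n _ => ?_
      have e1 : e (((N + n : ℕ) : ℝ) * (θ + l / m)) = e (((N + n : ℕ) : ℝ) * θ) *
          e (((N + n : ℕ) : ℝ) * (l / m)) := by
        rw [← e_add]
        congr 1
        ring
      have e2 : e ((((N + n : ℕ) : ℤ) - (c : ℤ) : ℤ) * ((l : ℝ) / m)) =
          e (-(c : ℝ) * ((l : ℝ) / m)) * e (((N + n : ℕ) : ℝ) * (l / m)) := by
        rw [← e_add]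
        congr 1
        push_cast
        ring
      rw [e1, e2]
      ring
    rw [sum_congr rfl h3, sum_comm]
    simp_rw [← mul_sum, h1]
    rw [mul_sum, sum_filter]
    refine sum_congr rfl fun n _ => ?_
    have h4 : N + n ≡ c [MOD m] ↔ (m : ℤ) ∣ ((N + n : ℕ) : ℤ) - (c : ℤ) := by
      rw [Nat.ModEq.comm, Nat.modEq_iff_dvd]
    by_cases h5 : N + n ≡ c [MOD m]
    · rw [if_pos h5, if_pos (h4.1 h5)]
      ring
    · rw [if_neg h5, if_neg (fun h => h5 (h4.2 h)), mul_zero]
  have h5 : ‖(m : ℂ) * ∑ n ∈ (range H).filter (fun n => N + n ≡ c [MOD m]),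
      e (((N + n : ℕ) : ℝ) * θ) * F (N + n)‖ ≤ m * B := by
    rw [h2]
    refine (norm_sum_le _ _).trans ?_
    calc _ ≤ ∑ l ∈ range m, B := by
          refine sum_le_sum fun l hl => ?_
          rw [norm_mul, norm_e, one_mul]
          exact hB l (mem_range.1 hl)
      _ = m * B := by rw [sum_const, card_range, nsmul_eq_mul]
  rw [norm_mul, Complex.norm_natCast] at h5
  exact le_of_mul_le_mul_left h5 hm'

/-- the geometric sums -/
lemma geo (m q h l N H : ℕ) (hm : 1 ≤ m) (hqm : Nat.Coprime q m) (h1 : 1 ≤ h) (h2 : h < q) :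
    ‖∑ n ∈ range H, e (((N + n : ℕ) : ℝ) * ((h : ℝ) / q + (l : ℝ) / m))‖ ≤ 2 * (q * m) := by
  have hq0 : 0 < q := by omega
  have hq' : (0 : ℝ) < q := by exact_mod_cast hq0
  have hm' : (0 : ℝ) < m := by exact_mod_cast hm
  have hc : (h : ℝ) / q + (l : ℝ) / m = ((h * m + l * q : ℕ) : ℝ) / ((q * m : ℕ) : ℝ) := by
    push_cast
    field_simp
  have hD : 0 < q * m := by positivity
  have hD' : (0 : ℝ) < ((q * m : ℕ) : ℝ) := by exact_mod_cast hD
  have hfr : Int.fract ((h : ℝ) / q + (l : ℝ) / m) =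
      (((h * m + l * q) % (q * m) : ℕ) : ℝ) / ((q * m : ℕ) : ℝ) := by
    rw [hc]
    exact Int.fract_div_natCast_eq_div_natCast_mod
  have hpos : 1 ≤ (h * m + l * q) % (q * m) := by
    rw [Nat.one_le_iff_ne_zero]
    intro h0
    have h3 : q * m ∣ h * m + l * q := Nat.dvd_of_mod_eq_zero h0
    have h4 : q ∣ h * m + l * q := (dvd_mul_right q m).trans h3
    have h5 : q ∣ h * m := (Nat.dvd_add_left (dvd_mul_left q l)).1 h4
    have h6 : q ∣ h := hqm.dvd_of_dvd_mul_right h5
    have := Nat.le_of_dvd (by omega) h6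
    omega
  have hlt : (h * m + l * q) % (q * m) < q * m := Nat.mod_lt _ hD
  have hlt' : (h * m + l * q) % (q * m) + 1 ≤ q * m := hlt
  have hpos' : (1 : ℝ) ≤ (((h * m + l * q) % (q * m) : ℕ) : ℝ) := by exact_mod_cast hpos
  have hlt'' : (((h * m + l * q) % (q * m) : ℕ) : ℝ) + 1 ≤ ((q * m : ℕ) : ℝ) := by
    exact_mod_cast hlt'
  have := norm_linear (fun n => ((N + n : ℕ) : ℝ) * ((h : ℝ) / q + (l : ℝ) / m)) H
    ((h : ℝ) / q + (l : ℝ) / m) (1 / ((q * m : ℕ) : ℝ)) (by positivity)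
    (by rw [hfr]; exact div_le_div_of_nonneg_right hpos' hD'.le)
    (by
      rw [hfr, le_sub_iff_add_le, ← add_div, div_le_one hD']
      exact hlt'') (fun n _ => by push_cast; ring)
  refine this.trans (le_of_eq ?_)
  push_cast
  field_simp

set_option maxHeartbeats 4000000 in
theorem main {ι : Type} [Fintype ι] [DecidableEq ι] (G : ι → Type) [∀ j, Group (G j)]
    [∀ j, Fintype (G j)] [∀ j, DecidableEq (G j)] (b : ι → ℕ) (hb : ∀ j, 2 ≤ b j)
    (hco : ∀ i j, i ≠ j → Nat.Coprime (b i) (b j)) (a : ∀ j, ℕ → G j)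
    (ha : ∀ j n d, d < b j → a j (b j * n + d) = a j n * a j d) (m₀ : ℕ) (hm₀ : 1 ≤ m₀)
    (ε : ℝ) (hε : 0 < ε) (hε1 : ε ≤ 1) :
    ∃ κ : ℝ, 0 < κ ∧ ∀ᶠ M : ℝ in atTop, ∀ n₀ : ℕ, ∃ n : ℕ, M < n ∧ (n : ℝ) ≤ M + M ^ ε ∧
      n ≡ n₀ [MOD m₀] ∧ (∀ j, a j n = a j n₀) ∧
      ∀ q : ℕ, q.Prime → κ * ff M < |(q : ℝ) - n| := by
  obtain ⟨u, p, δ, hδ0, hδ1, hp, hu1, hu2, hps⟩ := power_saving G b hb hco a ha
  set m : ℕ := m₀ * ∏ j, (b j - 1) with hm
  have hb1 : ∀ j, 1 ≤ b j - 1 := fun j => by have := hb j; omega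
  have hm1 : 1 ≤ m := Nat.mul_pos hm₀ (Finset.prod_pos fun j _ => hb1 j)
  have hmr : (1 : ℝ) ≤ m := by exact_mod_cast hm1
  have hmpos : (0 : ℝ) < m := by linarith
  have hmb : ∀ j, b j - 1 ∣ m := fun j =>
    (dvd_prod_of_mem (fun j => b j - 1) (mem_univ j)).trans (dvd_mul_left _ _)
  set P : ℝ := ∏ j, p j with hP
  have hP0 : 0 < P := Finset.prod_pos fun j _ => (hp j).1
  have hP1 : P ≤ 1 := prod_le_one (fun j _ => (hp j).1.le) (fun j _ => (hp j).2)
  set η : ℝ := ε * δ / 16 with hη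
  have hη0 : 0 < η := by rw [hη]; positivity
  have hη1 : η ≤ 1 := by
    rw [hη]
    nlinarith
  obtain ⟨κ, hκ, hcrit⟩ := crit_int_cop m hm1 η hη0 hη1
  refine ⟨κ, hκ, ?_⟩
  have hHt : Tendsto (fun M : ℝ => ⌊M ^ (ε / 2)⌋₊) atTop atTop :=
    tendsto_nat_floor_atTop.comp (tendsto_rpow_atTop (by positivity))
  filter_upwards [hcrit, hHt.eventually hps, (tendsto_rpow_atTop hη0).eventually_ge_atTop
    (5 * (m : ℝ) ^ 2 / P), eventually_ge_atTop (1 : ℝ), ev_pow (ε / 2) ε 2 (by linarith),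
    ev_pow (ε / 4) (ε / 2) 2 (by linarith)]
    with M hcr hpsM hMη hM1 hM2 hM3
  intro n₀
  have hM0 : 0 < M := by linarith
  set H : ℕ := ⌊M ^ (ε / 2)⌋₊ with hH
  set N : ℕ := ⌊M⌋₊ + 1 with hN
  set A : ℝ := M ^ η with hA
  have hA0 : 0 < A := by rw [hA]; positivity
  have hA1 : 1 ≤ A := Real.one_le_rpow hM1 hη0.le
  have hApm : 5 * (m : ℝ) ^ 2 ≤ A * P := by
    rw [div_le_iff₀ hP0] at hMη
    exact hMη
  have hM4 : 1 ≤ M ^ (ε / 4) := Real.one_le_rpow hM1 (by linarith)
  have hHle : (H : ℝ) ≤ M ^ (ε / 2) := Nat.floor_le (by positivity)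
  have hHge : M ^ (ε / 4) ≤ H := by
    have := Nat.lt_floor_add_one (M ^ (ε / 2))
    rw [← hH] at this
    linarith
  have hHr1 : (1 : ℝ) ≤ H := hM4.trans hHge
  have hHp : (0 : ℝ) < H := by linarith
  have hA4 : A ^ 4 ≤ (H : ℝ) ^ δ := by
    have h1 : A ^ 4 = (M ^ (ε / 4)) ^ δ := by
      rw [hA, ← Real.rpow_natCast, ← Real.rpow_mul hM0.le, ← Real.rpow_mul hM0.le]
      congr 1
      rw [hη]
      push_cast
      ring
    rw [h1]
    exact Real.rpow_le_rpow (by positivity) hHge hδ0.le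
  have hA4' : A ^ 4 ≤ H := by
    refine hA4.trans ?_
    calc (H : ℝ) ^ δ ≤ (H : ℝ) ^ (1 : ℝ) := Real.rpow_le_rpow_of_exponent_le hHr1 hδ1
      _ = H := Real.rpow_one _
  have hHδ : (H : ℝ) ^ (1 - δ) * A ^ 4 ≤ H := by
    calc (H : ℝ) ^ (1 - δ) * A ^ 4 ≤ (H : ℝ) ^ (1 - δ) * (H : ℝ) ^ δ :=
          mul_le_mul_of_nonneg_left hA4 (by positivity)
      _ = H := by rw [← Real.rpow_add hHp]; simp
  set W : ℝ := (H : ℝ) ^ (1 - δ) with hW
  have hW0 : 0 ≤ W := by positivity
  -- the family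
  set D : ℕ → ℂ := fun n => (∏ j, if a j n = a j n₀ then (1 : ℂ) else 0) - ∏ j, u j n (a j n₀)
    with hD
  have hD1 : ∀ x : ℝ, ‖∑ n ∈ range H, e (((N + n : ℕ) : ℝ) * x) * D (N + n)‖ ≤ W := by
    intro x
    have h1 := hpsM N (e x) (norm_e x) (fun j => a j n₀)
    refine le_trans (le_of_eq ?_) h1
    congr 1
    refine sum_congr rfl fun n _ => ?_
    rw [e_natmul]
  set s : Finset ℕ := (range H).filter (fun n => N + n ≡ n₀ [MOD m] ∧ ∀ j, a j (N + n) = a j n₀)
    with hs
  have hu0 : ∀ n, n ≡ n₀ [MOD m] → ∏ j, u j n (a j n₀) = (P : ℂ) := by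
    intro n hn
    rw [hP, Complex.ofReal_prod]
    refine prod_congr rfl fun j _ => ?_
    have h1 : n ≡ n₀ [MOD (b j - 1)] := hn.of_dvd (hmb j)
    have h2 : u j n = u j (n % (b j - 1)) := by
      conv_lhs => rw [← Nat.mod_add_div n (b j - 1)]
      exact hu2 j _ _
    have h3 : u j n₀ = u j (n₀ % (b j - 1)) := by
      conv_lhs => rw [← Nat.mod_add_div n₀ (b j - 1)]
      exact hu2 j _ _
    rw [h2, h1, ← h3]
    exact hu1 j n₀
  have hsum : ∀ x : ℝ, ∑ n ∈ s, e (((N + n : ℕ) : ℝ) * x) =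
      ∑ n ∈ (range H).filter (fun n => N + n ≡ n₀ [MOD m]), e (((N + n : ℕ) : ℝ) * x) * D (N + n) +
      P * ∑ n ∈ (range H).filter (fun n => N + n ≡ n₀ [MOD m]), e (((N + n : ℕ) : ℝ) * x) := by
    intro x
    rw [mul_sum, ← sum_add_distrib, hs, ← filter_filter, sum_filter]
    refine sum_congr rfl fun n hn => ?_
    have hn2 := (mem_filter.1 hn).2
    rw [hD]
    beta_reduce
    rw [hu0 _ hn2]
    by_cases h : ∀ j, a j (N + n) = a j n₀
    · rw [if_pos h]
      have : (∏ j, if a j (N + n) = a j n₀ then (1 : ℂ) else 0) = 1 :=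
        prod_eq_one fun j _ => if_pos (h j)
      rw [this]
      ring
    · rw [if_neg h]
      push Not at h
      obtain ⟨j, hj⟩ := h
      have : (∏ j, if a j (N + n) = a j n₀ then (1 : ℂ) else 0) = 0 :=
        prod_eq_zero (mem_univ j) (if_neg hj)
      rw [this]
      ring
  -- the number of elements
  have hcnt : (H : ℝ) / m - 1 ≤ ((range H).filter (fun n => N + n ≡ n₀ [MOD m])).card := by
    have h1 : H / m ≤ ((range H).filter (fun n => N + n ≡ n₀ [MOD m])).card := by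
      set r : ℕ := (n₀ + (m - 1) * N) % m with hr
      have hrm : r < m := Nat.mod_lt _ (by omega)
      have hrN : N + r ≡ n₀ [MOD m] := by
        have h2 : N + r ≡ N + (n₀ + (m - 1) * N) [MOD m] := (Nat.mod_modEq _ _).add_left N
        have h3 : N + (n₀ + (m - 1) * N) = n₀ + m * N := by
          obtain ⟨c, hc⟩ : ∃ c, m = c + 1 := ⟨m - 1, by omega⟩
          rw [hc]
          simp only [Nat.add_sub_cancel]
          ring
        rw [h3] at h2
        refine h2.trans ?_
        have h4 : n₀ + m * N ≡ n₀ + 0 [MOD m] :=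
          (Nat.modEq_zero_iff_dvd.2 (dvd_mul_right m N)).add_left n₀
        simpa using h4
      calc H / m = (range (H / m)).card := (card_range _).symm
        _ ≤ _ := by
            apply Finset.card_le_card_of_injOn (fun t => m * t + r)
            · intro t ht
              rw [mem_coe, mem_range] at ht
              rw [mem_coe, mem_filter, mem_range]
              constructor
              · show m * t + r < H
                have h2 : m * (t + 1) ≤ m * (H / m) := Nat.mul_le_mul_left _ ht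
                have h3 : m * (H / m) ≤ H := Nat.mul_div_le H m
                have h4 : m * (t + 1) = m * t + m := by ring
                omega
              · show N + (m * t + r) ≡ n₀ [MOD m]
                have h2 : N + (m * t + r) = (N + r) + m * t := by ring
                rw [h2]
                have h4 : (N + r) + m * t ≡ (N + r) + 0 [MOD m] :=
                  (Nat.modEq_zero_iff_dvd.2 (dvd_mul_right m t)).add_left _
                exact h4.trans (by simpa using hrN)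
            · intro t _ t' _ h
              simp only at h
              have : m * t = m * t' := by omega
              exact Nat.eq_of_mul_eq_mul_left (by omega) this
    have h2 : (H : ℝ) / m - 1 ≤ ((H / m : ℕ) : ℝ) := by
      have h3 := Nat.lt_floor_add_one ((H : ℝ) / m)
      rw [Nat.floor_div_eq_div] at h3
      linarith
    exact h2.trans (by exact_mod_cast h1)
  have hcard : P * ((H : ℝ) / m - 1) - W ≤ s.card := by
    have h1 := hsum 0
    simp only [mul_zero, Pool.Agent.H469R2.NK.e_zero, sum_const, nsmul_eq_mul, mul_one, one_mul]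
      at h1
    have h2 := ap_sum m hm1 n₀ D N H 0 W (fun l _ => hD1 _)
    simp only [mul_zero, Pool.Agent.H469R2.NK.e_zero, one_mul] at h2
    have h3 : ∑ n ∈ (range H).filter (fun n => N + n ≡ n₀ [MOD m]), D (N + n) =
        ((s.card - P * ((range H).filter (fun n => N + n ≡ n₀ [MOD m])).card : ℝ) : ℂ) := by
      push_cast
      rw [h1]
      ring
    rw [h3, Complex.norm_real, Real.norm_eq_abs] at h2
    have h4 := (abs_le.1 h2).1
    have h5 : P * ((H : ℝ) / m - 1) ≤ P * ((range H).filter (fun n => N + n ≡ n₀ [MOD m])).card :=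
      mul_le_mul_of_nonneg_left hcnt hP0.le
    linarith
  -- the exponential sums
  have hexp : ∀ q h : ℕ, (q : ℝ) ≤ A → Nat.Coprime q m → 1 ≤ h → h < q →
      ‖∑ n ∈ s, e (((N + n : ℕ) : ℝ) * ((h : ℝ) / q))‖ ≤ W + 2 * (A * m) := by
    intro q h hq hqm hh1 hh2
    rw [hsum]
    refine (norm_add_le _ _).trans (add_le_add ?_ ?_)
    · exact ap_sum m hm1 n₀ D N H _ W (fun l _ => hD1 _)
    · rw [norm_mul, Complex.norm_real, Real.norm_of_nonneg hP0.le]
      have h1 := ap_sum m hm1 n₀ (fun _ => 1) N H ((h : ℝ) / q) (2 * (q * m)) (fun l _ => by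
        simp only [mul_one]
        exact geo m q h l N H hm1 hqm hh1 hh2)
      simp only [mul_one] at h1
      calc _ ≤ 1 * (2 * (q * m : ℝ)) := mul_le_mul hP1 h1 (norm_nonneg _) zero_le_one
        _ ≤ 2 * (A * m) := by
            rw [one_mul]
            gcongr
  -- numerical facts
  have hkey : (W + 2 * (A * m)) * A ≤ s.card := by
    refine le_trans ?_ hcard
    -- multiply by A ^ 4 * m
    have hm0 : (0 : ℝ) < m := hmpos
    have e1 : P * ((H : ℝ) / m - 1) - W - (W + 2 * (A * m)) * A =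
        (P * H - (P + W + (W + 2 * (A * m)) * A) * m) / m := by
      field_simp
      ring
    have e2 : (P + W + (W + 2 * (A * m)) * A) * m ≤ P * H := by
      have f1 : (P + W + (W + 2 * (A * m)) * A) * m * A ^ 4 ≤ P * H * A ^ 4 := by
        have g1 : P * A ^ 4 ≤ H := by
          calc P * A ^ 4 ≤ 1 * H := mul_le_mul hP1 hA4' (by positivity) zero_le_one
            _ = H := one_mul _
        have g2 : W * A ^ 4 ≤ H := hHδ
        have g3 : W * A * A ^ 4 ≤ H * A := by
          calc W * A * A ^ 4 = (W * A ^ 4) * A := by ring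
            _ ≤ H * A := mul_le_mul_of_nonneg_right g2 hA0.le
        have g4 : 2 * (A * m) * A * A ^ 4 ≤ 2 * m * A ^ 2 * H := by
          calc 2 * (A * m) * A * A ^ 4 = 2 * m * A ^ 2 * A ^ 4 := by ring
            _ ≤ _ := mul_le_mul_of_nonneg_left hA4' (by positivity)
        have g5 : (P + W + (W + 2 * (A * m)) * A) * A ^ 4 ≤ H * (5 * m * A ^ 2) := by
          have k1 : (1 : ℝ) ≤ m * A ^ 2 := by
            have := one_le_pow₀ hA1 (n := 2)
            nlinarith
          have k2 : A ≤ m * A ^ 2 := by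
            have : A ≤ A ^ 2 := by nlinarith
            nlinarith
          have k3 : (H : ℝ) * A ≤ H * (m * A ^ 2) := mul_le_mul_of_nonneg_left k2 hHp.le
          have k4 : (H : ℝ) ≤ H * (m * A ^ 2) := le_mul_of_one_le_right hHp.le k1
          calc (P + W + (W + 2 * (A * m)) * A) * A ^ 4 =
                P * A ^ 4 + W * A ^ 4 + W * A * A ^ 4 + 2 * (A * m) * A * A ^ 4 := by ring
            _ ≤ H + H + H * A + 2 * m * A ^ 2 * H := by linarith
            _ ≤ H * (m * A ^ 2) + H * (m * A ^ 2) + H * (m * A ^ 2) + 2 * m * A ^ 2 * H := by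
                linarith
            _ = _ := by ring
        calc (P + W + (W + 2 * (A * m)) * A) * m * A ^ 4 =
              ((P + W + (W + 2 * (A * m)) * A) * A ^ 4) * m := by ring
          _ ≤ (H * (5 * m * A ^ 2)) * m := mul_le_mul_of_nonneg_right g5 hm0.le
          _ = H * A ^ 2 * (5 * m ^ 2) := by ring
          _ ≤ H * A ^ 2 * (A * P) := mul_le_mul_of_nonneg_left hApm (by positivity)
          _ = P * H * A ^ 3 := by ring
          _ ≤ P * H * A ^ 4 := by
              apply mul_le_mul_of_nonneg_left _ (by positivity)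
              exact pow_le_pow_right₀ hA1 (by norm_num)
      exact le_of_mul_le_mul_right f1 (by positivity)
    have e3 : 0 ≤ (P * H - (P + W + (W + 2 * (A * m)) * A) * m) / m :=
      div_nonneg (by linarith) hm0.le
    rw [← e1] at e3
    linarith
  have hspos : (0 : ℝ) < s.card := by
    refine lt_of_lt_of_le ?_ hkey
    positivity
  have hsne : s.Nonempty := by
    rw [← card_pos]
    exact_mod_cast hspos
  have hNM : M < N := by
    have := Nat.lt_floor_add_one M
    rw [hN]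
    push_cast
    exact this
  have hNM2 : (N : ℝ) ≤ M + 1 := by
    have := Nat.floor_le hM0.le
    rw [hN]
    push_cast
    linarith
  obtain ⟨i, hi, hi2⟩ := hcr ℕ s (fun n => ((N + n : ℕ) : ℤ)) hsne (by
    intro i _
    push_cast
    have : (0 : ℝ) ≤ i := Nat.cast_nonneg i
    linarith) (by
    intro q h hq hqm hh1 hhq
    have e1 : ∑ i ∈ s, e ((h : ℝ) / q * (((N + i : ℕ) : ℤ) : ℝ)) =
        ∑ i ∈ s, e (((N + i : ℕ) : ℝ) * ((h : ℝ) / q)) := by
      refine sum_congr rfl fun i _ => ?_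
      congr 1
      push_cast
      ring
    rw [e1]
    refine (hexp q h hq hqm hh1 hhq).trans ?_
    rw [Real.rpow_neg hM0.le, ← hA, ← div_eq_mul_inv, le_div_iff₀ hA0]
    exact hkey)
  rw [hs, mem_filter, mem_range] at hi
  obtain ⟨hi1, hi3, hi4⟩ := hi
  refine ⟨N + i, ?_, ?_, ?_, hi4, ?_⟩
  · push_cast
    have : (0 : ℝ) ≤ i := Nat.cast_nonneg i
    linarith
  · push_cast
    have h1 : (i : ℝ) + 1 ≤ H := by exact_mod_cast hi1
    linarith
  · exact hi3.of_dvd (dvd_mul_right _ _)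
  · intro q hq
    have := hi2 q hq
    push_cast at this ⊢
    exact this

end Pool.Agent.L5helper45.MB
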