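import Mathlib

set_option autoImplicit false

/-! # Periodic functions over windows, coprime periods, products -/

namespace Pool.Agent.L5helper45.MB

open Finset

lemma full_window (Q : ℕ) (f : ℕ → ℝ) (hf : ∀ n, f (n + Q) = f n) (N : ℕ) :
    ∑ m ∈ range Q, f (N + m) = ∑ m ∈ range Q, f m := by
  induction N with
  | zero => simp
  | succ N ih =>
    rw [← ih]
    have h1 : ∑ m ∈ range (Q + 1), f (N + m) = ∑ m ∈ range Q, f (N + m) + f (N + Q) :=
      sum_range_succ _ _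
    have h2 : ∑ m ∈ range (Q + 1), f (N + m) = ∑ m ∈ range Q, f (N + (m + 1)) + f (N + 0) :=
      sum_range_succ' _ _
    have h3 : ∑ m ∈ range Q, f (N + 1 + m) = ∑ m ∈ range Q, f (N + (m + 1)) := by
      refine sum_congr rfl fun m _ => ?_
      congr 1
      ring
    rw [h3]
    have h4 := hf N
    rw [add_zero] at h2
    linarith

lemma full_windows (Q : ℕ) (f : ℕ → ℝ) (hf : ∀ n, f (n + Q) = f n) (N h : ℕ) :
    ∑ m ∈ range (Q * h), f (N + m) = h * ∑ m ∈ range Q, f m := by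
  induction h with
  | zero => simp
  | succ h ih =>
    rw [Nat.mul_succ, sum_range_add, ih]
    have h1 : ∑ m ∈ range Q, f (N + (Q * h + m)) = ∑ m ∈ range Q, f m := by
      rw [← full_window Q f hf (N + Q * h)]
      refine sum_congr rfl fun m _ => ?_
      congr 1
      ring
    rw [h1]
    push_cast
    ring

/-- sums of a periodic function over a window -/
lemma window (Q : ℕ) (hQ : 1 ≤ Q) (f : ℕ → ℝ) (hf : ∀ n, f (n + Q) = f n) (h0 : ∀ n, 0 ≤ f n)
    (h1 : ∀ n, f n ≤ 1) (N H : ℕ) :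
    |∑ m ∈ range H, f (N + m) - H / Q * ∑ m ∈ range Q, f m| ≤ Q := by
  have hQ' : (0 : ℝ) < Q := by exact_mod_cast hQ
  have hr : H % Q < Q := Nat.mod_lt _ (by omega)
  have hr' : ((H % Q : ℕ) : ℝ) ≤ Q := by exact_mod_cast hr.le
  have e1 : ∑ m ∈ range H, f (N + m) = (H / Q : ℕ) * ∑ m ∈ range Q, f m +
      ∑ m ∈ range (H % Q), f (N + (Q * (H / Q) + m)) := by
    conv_lhs => rw [← Nat.div_add_mod H Q]
    rw [sum_range_add, full_windows Q f hf]
  have e2 : (H : ℝ) = Q * (H / Q : ℕ) + (H % Q : ℕ) := by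
    exact_mod_cast (Nat.div_add_mod H Q).symm
  have e3 : (H : ℝ) / Q * ∑ m ∈ range Q, f m = (H / Q : ℕ) * ∑ m ∈ range Q, f m +
      (H % Q : ℕ) / Q * ∑ m ∈ range Q, f m := by
    have e4 : (H : ℝ) / Q = (H / Q : ℕ) + (H % Q : ℕ) / Q := by
      rw [div_eq_iff hQ'.ne', add_mul, div_mul_cancel₀ _ hQ'.ne']
      linarith
    rw [e4]
    ring
  have h2 : 0 ≤ ∑ m ∈ range (H % Q), f (N + (Q * (H / Q) + m)) := sum_nonneg fun _ _ => h0 _
  have h3 : ∑ m ∈ range (H % Q), f (N + (Q * (H / Q) + m)) ≤ (H % Q : ℕ) := by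
    calc _ ≤ ∑ m ∈ range (H % Q), (1 : ℝ) := sum_le_sum fun _ _ => h1 _
      _ = _ := by simp
  have h4 : 0 ≤ ∑ m ∈ range Q, f m := sum_nonneg fun _ _ => h0 _
  have h5 : ∑ m ∈ range Q, f m ≤ Q := by
    calc _ ≤ ∑ m ∈ range Q, (1 : ℝ) := sum_le_sum fun _ _ => h1 _
      _ = _ := by simp
  have h6 : 0 ≤ ((H % Q : ℕ) : ℝ) / Q * ∑ m ∈ range Q, f m := by positivity
  have h7 : ((H % Q : ℕ) : ℝ) / Q * ∑ m ∈ range Q, f m ≤ (H % Q : ℕ) := by
    rw [div_mul_eq_mul_div, div_le_iff₀ hQ']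
    exact mul_le_mul_of_nonneg_left h5 (by positivity)
  rw [e1, e3, abs_le]
  constructor <;> linarith

lemma two_mod (A B : ℕ) (hA : 1 ≤ A) (hB : 1 ≤ B) (hco : Nat.Coprime A B) (f g : ℕ → ℝ)
    (hf : ∀ n, f (n % A) = f n) (hg : ∀ n, g (n % B) = g n) :
    ∑ u ∈ range (A * B), f u * g u = (∑ u ∈ range A, f u) * ∑ u ∈ range B, g u := by
  rw [sum_mul_sum, ← sum_product']
  symm
  refine sum_bij' (fun p _ => (Nat.chineseRemainder hco p.1 p.2 : ℕ)) (fun u _ => (u % A, u % B))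
    ?_ ?_ ?_ ?_ ?_
  · intro p _
    exact mem_range.2 (Nat.chineseRemainder_lt_mul hco p.1 p.2 (by omega) (by omega))
  · intro u _
    exact mem_product.2 ⟨mem_range.2 (Nat.mod_lt _ (by omega)), mem_range.2 (Nat.mod_lt _ (by omega))⟩
  · intro p hp
    obtain ⟨h1, h2⟩ := mem_product.1 hp
    rw [mem_range] at h1 h2
    obtain ⟨h3, h4⟩ := (Nat.chineseRemainder hco p.1 p.2).2
    refine Prod.ext ?_ ?_
    · show (Nat.chineseRemainder hco p.1 p.2 : ℕ) % A = p.1
      rw [h3, Nat.mod_eq_of_lt h1]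
    · show (Nat.chineseRemainder hco p.1 p.2 : ℕ) % B = p.2
      rw [h4, Nat.mod_eq_of_lt h2]
  · intro u hu
    rw [mem_range] at hu
    have h5 : (Nat.chineseRemainder hco (u % A) (u % B) : ℕ) ≡ u [MOD A * B] := by
      rw [← Nat.modEq_and_modEq_iff_modEq_mul hco]
      obtain ⟨h3, h4⟩ := (Nat.chineseRemainder hco (u % A) (u % B)).2
      exact ⟨h3.trans (Nat.mod_modEq _ _), h4.trans (Nat.mod_modEq _ _)⟩
    have h6 := Nat.chineseRemainder_lt_mul hco (u % A) (u % B) (by omega) (by omega)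
    have h7 : (Nat.chineseRemainder hco (u % A) (u % B) : ℕ) % (A * B) = u % (A * B) := h5
    rw [Nat.mod_eq_of_lt h6, Nat.mod_eq_of_lt hu] at h7
    exact h7
  · intro p hp
    obtain ⟨h3, h4⟩ := (Nat.chineseRemainder hco p.1 p.2).2
    have h5 : f (Nat.chineseRemainder hco p.1 p.2 : ℕ) = f p.1 := by
      rw [← hf (Nat.chineseRemainder hco p.1 p.2 : ℕ), h3, hf]
    have h6 : g (Nat.chineseRemainder hco p.1 p.2 : ℕ) = g p.2 := by
      rw [← hg (Nat.chineseRemainder hco p.1 p.2 : ℕ), h4, hg]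
    rw [h5, h6]

/-- sums of products of functions with pairwise coprime periods -/
lemma crt_prod {ι : Type*} [DecidableEq ι] (Q : ι → ℕ) (hQ : ∀ j, 1 ≤ Q j) (f : ι → ℕ → ℝ)
    (hf : ∀ j n, f j (n % Q j) = f j n) (t : Finset ι)
    (hco : ∀ i ∈ t, ∀ j ∈ t, i ≠ j → Nat.Coprime (Q i) (Q j)) :
    ∑ u ∈ range (∏ j ∈ t, Q j), ∏ j ∈ t, f j u = ∏ j ∈ t, ∑ u ∈ range (Q j), f j u := by
  induction t using Finset.induction_on with
  | empty => simp
  | insert i t hi ih =>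
    rw [prod_insert hi, prod_insert hi]
    have h1 : Nat.Coprime (Q i) (∏ j ∈ t, Q j) := by
      apply Nat.Coprime.prod_right
      intro j hj
      exact hco i (mem_insert_self _ _) j (mem_insert_of_mem hj) (fun h => hi (h ▸ hj))
    have h2 : ∀ u ∈ range (Q i * ∏ j ∈ t, Q j), ∏ j ∈ insert i t, f j u =
        f i u * ∏ j ∈ t, f j u := fun u _ => prod_insert hi
    rw [sum_congr rfl h2, two_mod (Q i) (∏ j ∈ t, Q j) (hQ i)
      (Nat.one_le_iff_ne_zero.2 (prod_ne_zero_iff.2 fun j _ => by have := hQ j; omega)) h1 (f i)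
      (fun u => ∏ j ∈ t, f j u) (hf i), ih]
    · intro a ha b hb hab
      exact hco a (mem_insert_of_mem ha) b (mem_insert_of_mem hb) hab
    · intro n
      refine prod_congr rfl fun j hj => ?_
      rw [← hf j (n % ∏ j ∈ t, Q j), Nat.mod_mod_of_dvd _ (dvd_prod_of_mem _ hj), hf]

/-- differences of products of numbers of modulus at most one -/
lemma prod_diff {ι : Type*} [DecidableEq ι] (x y : ι → ℂ) (t : Finset ι) (hx : ∀ j ∈ t, ‖x j‖ ≤ 1)
    (hy : ∀ j ∈ t, ‖y j‖ ≤ 1) : ‖∏ j ∈ t, x j - ∏ j ∈ t, y j‖ ≤ ∑ j ∈ t, ‖x j - y j‖ := by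
  induction t using Finset.induction_on with
  | empty => simp
  | insert i t hi ih =>
    rw [prod_insert hi, prod_insert hi, sum_insert hi]
    have h1 := ih (fun j hj => hx j (mem_insert_of_mem hj)) (fun j hj => hy j (mem_insert_of_mem hj))
    have h2 : x i * ∏ j ∈ t, x j - y i * ∏ j ∈ t, y j =
        (x i - y i) * ∏ j ∈ t, x j + y i * (∏ j ∈ t, x j - ∏ j ∈ t, y j) := by ring
    rw [h2]
    refine (norm_add_le _ _).trans (add_le_add ?_ ?_)
    · rw [norm_mul, norm_prod]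
      calc _ ≤ ‖x i - y i‖ * 1 := by
            apply mul_le_mul_of_nonneg_left _ (norm_nonneg _)
            exact prod_le_one (fun j _ => norm_nonneg _) (fun j hj => hx j (mem_insert_of_mem hj))
        _ = _ := mul_one _
    · rw [norm_mul]
      calc _ ≤ 1 * ‖∏ j ∈ t, x j - ∏ j ∈ t, y j‖ := by
            apply mul_le_mul_of_nonneg_right _ (norm_nonneg _)
            exact hy i (mem_insert_self _ _)
        _ ≤ _ := by rw [one_mul]; exact h1

end Pool.Agent.L5helper45.MB
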