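import Mathlib

set_option autoImplicit false

/-! # The van der Corput inequality in a Hilbert space -/

namespace Pool.Agent.L5helper45.MB

open Finset

variable {E : Type*} [NormedAddCommGroup E] [InnerProductSpace ℂ E]

omit [InnerProductSpace ℂ E] in
lemma shift_bound (v : ℕ → E) (hv : ∀ n, ‖v n‖ ≤ 1) (N H r : ℕ) :
    ‖∑ n ∈ range H, v (N + n) - ∑ n ∈ range H, v (N + n + r)‖ ≤ 2 * r := by
  have h1 : ∑ n ∈ range H, v (N + n + r) = ∑ n ∈ range (r + H), v (N + n) - ∑ n ∈ range r, v (N + n) := by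
    rw [sum_range_add, add_sub_cancel_left]
    refine sum_congr rfl fun n _ => ?_
    congr 1
    ring
  have h2 : ∑ n ∈ range (r + H), v (N + n) = ∑ n ∈ range H, v (N + n) +
      ∑ n ∈ range r, v (N + (H + n)) := by
    rw [add_comm r H, sum_range_add]
  have h3 : ∀ M, ‖∑ n ∈ range r, v (M + n)‖ ≤ r := by
    intro M
    refine (norm_sum_le _ _).trans ?_
    calc ∑ n ∈ range r, ‖v (M + n)‖ ≤ ∑ n ∈ range r, (1 : ℝ) := sum_le_sum fun n _ => hv _
      _ = r := by simp
  have h4 : ∑ n ∈ range r, v (N + (H + n)) = ∑ n ∈ range r, v (N + H + n) := by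
    refine sum_congr rfl fun n _ => ?_
    congr 1
    ring
  rw [h1, h2, h4]
  have h5 : ∑ n ∈ range H, v (N + n) - (∑ n ∈ range H, v (N + n) + ∑ n ∈ range r, v (N + H + n) -
      ∑ n ∈ range r, v (N + n)) = ∑ n ∈ range r, v (N + n) - ∑ n ∈ range r, v (N + H + n) := by
    abel
  rw [h5]
  calc _ ≤ ‖∑ n ∈ range r, v (N + n)‖ + ‖∑ n ∈ range r, v (N + H + n)‖ := norm_sub_le _ _
    _ ≤ r + r := add_le_add (h3 _) (h3 _)
    _ = _ := by ring

/-- differences of pairs -/
lemma pair_sum (B : ℕ → ℝ) (R r : ℕ) (hr : r < R) (hB : ∀ s, 1 ≤ s → s < R → 0 ≤ B s) :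
    ∑ r' ∈ (range R).erase r, B (if r' < r then r - r' else r' - r) ≤
      2 * ∑ s ∈ Ico 1 R, B s := by
  classical
  have h1 : ∑ r' ∈ (range R).erase r, B (if r' < r then r - r' else r' - r) =
      ∑ r' ∈ ((range R).erase r).filter (fun r' => r' < r), B (r - r') +
      ∑ r' ∈ ((range R).erase r).filter (fun r' => ¬ r' < r), B (r' - r) := by
    rw [← sum_filter_add_sum_filter_not ((range R).erase r) (fun r' => r' < r)]
    congr 1
    · refine sum_congr rfl fun x hx => ?_
      rw [if_pos (mem_filter.1 hx).2]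
    · refine sum_congr rfl fun x hx => ?_
      rw [if_neg (mem_filter.1 hx).2]
  have h2 : ∀ (t : Finset ℕ) (g : ℕ → ℕ), Set.InjOn g t → (∀ x ∈ t, 1 ≤ g x ∧ g x < R) →
      ∑ x ∈ t, B (g x) ≤ ∑ s ∈ Ico 1 R, B s := by
    intro t g hg hgr
    rw [← sum_image (f := B) (s := t) (g := g) hg]
    apply sum_le_sum_of_subset_of_nonneg
    · intro s hs
      obtain ⟨x, hx, rfl⟩ := mem_image.1 hs
      exact mem_Ico.2 (hgr x hx)
    · intro s hs _
      have := mem_Ico.1 hs
      exact hB s this.1 this.2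
  rw [h1, two_mul]
  apply add_le_add
  · apply h2 _ (fun r' => r - r')
    · intro x hx y hy hxy
      have h3 := (mem_filter.1 hx).2
      have h4 := (mem_filter.1 hy).2
      simp only at hxy h3 h4
      omega
    · intro x hx
      have h3 : x < r := (mem_filter.1 hx).2
      show 1 ≤ r - x ∧ r - x < R
      omega
  · apply h2 _ (fun r' => r' - r)
    · intro x hx y hy hxy
      have h3 := (mem_filter.1 hx).2
      have h4 := (mem_filter.1 hy).2
      have h5 := mem_erase.1 (mem_filter.1 hx).1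
      have h6 := mem_erase.1 (mem_filter.1 hy).1
      simp only at hxy h3 h4
      omega
    · intro x hx
      have h3 := (mem_filter.1 hx).2
      have h5 := mem_erase.1 (mem_filter.1 hx).1
      have h6 := mem_range.1 h5.2
      have h7 := h5.1
      show 1 ≤ x - r ∧ x - r < R
      omega

lemma vdc (v : ℕ → E) (hv : ∀ n, ‖v n‖ ≤ 1) (N H R : ℕ) (B : ℕ → ℝ)
    (hB : ∀ s, 1 ≤ s → s < R → ∀ N' : ℕ,
      ‖∑ m ∈ range H, inner ℂ (v (N' + m)) (v (N' + m + s))‖ ≤ B s) :
    (R : ℝ) * ‖∑ n ∈ range H, v (N + n)‖ ≤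
      (R : ℝ) ^ 2 + Real.sqrt (H * (R * (H + 2 * ∑ s ∈ Ico 1 R, B s))) := by
  classical
  have hB0 : ∀ s, 1 ≤ s → s < R → 0 ≤ B s := fun s h1 h2 => (norm_nonneg _).trans (hB s h1 h2 0)
  set S := ∑ n ∈ range H, v (N + n) with hS
  set g : ℕ → E := fun n => ∑ r ∈ range R, v (N + n + r) with hg
  have h1 : (R : ℝ) • S = ∑ r ∈ range R, (S - ∑ n ∈ range H, v (N + n + r)) +
      ∑ n ∈ range H, g n := by
    rw [sum_sub_distrib, sum_const, card_range, hg, sum_comm, sub_add_cancel, Nat.cast_smul_eq_nsmul]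
  have h2 : ‖∑ r ∈ range R, (S - ∑ n ∈ range H, v (N + n + r))‖ ≤ (R : ℝ) ^ 2 := by
    refine (norm_sum_le _ _).trans ?_
    have h3 : ∀ r ∈ range R, ‖S - ∑ n ∈ range H, v (N + n + r)‖ ≤ 2 * r := fun r _ =>
      shift_bound v hv N H r
    refine (sum_le_sum h3).trans ?_
    rw [← mul_sum]
    have h4 : (∑ r ∈ range R, (r : ℝ)) * 2 = R * (R - 1) := by
      have := Finset.sum_range_id_mul_two R
      rcases Nat.eq_zero_or_pos R with h0 | h0
      · subst h0; simp
      · have h5 : ((∑ i ∈ range R, i : ℕ) : ℝ) * 2 = R * ((R - 1 : ℕ) : ℝ) := by exact_mod_cast this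
        rw [Nat.cast_sub h0] at h5
        push_cast at h5
        exact h5
    have hR0 : (0 : ℝ) ≤ R := Nat.cast_nonneg R
    nlinarith
  have h5 : ∑ n ∈ range H, ‖g n‖ ^ 2 ≤ R * (H + 2 * ∑ s ∈ Ico 1 R, B s) := by
    have e1 : ∀ n, ((‖g n‖ ^ 2 : ℝ) : ℂ) = ∑ r ∈ range R, ∑ r' ∈ range R,
        inner ℂ (v (N + n + r)) (v (N + n + r')) := by
      intro n
      have : ((‖g n‖ ^ 2 : ℝ) : ℂ) = inner ℂ (g n) (g n) := by
        rw [inner_self_eq_norm_sq_to_K]
        push_cast
        rfl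
      rw [this, hg]
      simp only
      rw [sum_inner]
      refine sum_congr rfl fun r _ => ?_
      rw [inner_sum]
    have e2 : ((∑ n ∈ range H, ‖g n‖ ^ 2 : ℝ) : ℂ) = ∑ r ∈ range R, ∑ r' ∈ range R,
        ∑ n ∈ range H, inner ℂ (v (N + n + r)) (v (N + n + r')) := by
      rw [Complex.ofReal_sum, sum_congr rfl (fun n _ => e1 n), sum_comm]
      refine sum_congr rfl fun r _ => ?_
      rw [sum_comm]
    have e3 : ∑ n ∈ range H, ‖g n‖ ^ 2 ≤ ∑ r ∈ range R, ∑ r' ∈ range R,
        ‖∑ n ∈ range H, inner ℂ (v (N + n + r)) (v (N + n + r'))‖ := by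
      have h6 : ∑ n ∈ range H, ‖g n‖ ^ 2 = ‖((∑ n ∈ range H, ‖g n‖ ^ 2 : ℝ) : ℂ)‖ := by
        rw [Complex.norm_real, Real.norm_of_nonneg (sum_nonneg fun _ _ => by positivity)]
      rw [h6, e2]
      refine (norm_sum_le _ _).trans (sum_le_sum fun r _ => ?_)
      exact norm_sum_le _ _
    refine e3.trans ?_
    have e4 : ∀ r ∈ range R, ∑ r' ∈ range R,
        ‖∑ n ∈ range H, inner ℂ (v (N + n + r)) (v (N + n + r'))‖ ≤
        H + 2 * ∑ s ∈ Ico 1 R, B s := by
      intro r hr
      have hr' := mem_range.1 hr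
      rw [← add_sum_erase _ _ hr]
      apply add_le_add
      · refine (norm_sum_le _ _).trans ?_
        calc ∑ n ∈ range H, ‖inner ℂ (v (N + n + r)) (v (N + n + r))‖ ≤ ∑ n ∈ range H, (1 : ℝ) := by
              refine sum_le_sum fun n _ => ?_
              refine (norm_inner_le_norm _ _).trans ?_
              exact mul_le_one₀ (hv _) (norm_nonneg _) (hv _)
          _ = H := by simp
      · refine le_trans (sum_le_sum ?_) (pair_sum B R r hr' hB0)
        intro r' hr'2
        obtain ⟨hne, hr'3⟩ := mem_erase.1 hr'2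
        have hr'4 := mem_range.1 hr'3
        split_ifs with hlt
        · -- r' < r
          have h7 : ‖∑ n ∈ range H, inner ℂ (v (N + n + r)) (v (N + n + r'))‖ =
              ‖∑ n ∈ range H, inner ℂ (v (N + r' + n)) (v (N + r' + n + (r - r')))‖ := by
            rw [← RCLike.norm_conj, map_sum]
            congr 1
            refine sum_congr rfl fun n _ => ?_
            rw [inner_conj_symm]
            have a1 : N + n + r' = N + r' + n := by ring
            have a2 : N + n + r = N + r' + n + (r - r') := by omega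
            rw [a1, a2]
          rw [h7]
          exact hB (r - r') (by omega) (by omega) _
        · have h7 : ‖∑ n ∈ range H, inner ℂ (v (N + n + r)) (v (N + n + r'))‖ =
              ‖∑ n ∈ range H, inner ℂ (v (N + r + n)) (v (N + r + n + (r' - r)))‖ := by
            congr 1
            refine sum_congr rfl fun n _ => ?_
            have a1 : N + n + r = N + r + n := by ring
            have a2 : N + n + r' = N + r + n + (r' - r) := by omega
            rw [a1, a2]
          rw [h7]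
          exact hB (r' - r) (by omega) (by omega) _
    refine (sum_le_sum e4).trans ?_
    rw [sum_const, card_range, nsmul_eq_mul]
  have h8 : ‖∑ n ∈ range H, g n‖ ≤ Real.sqrt (H * (R * (H + 2 * ∑ s ∈ Ico 1 R, B s))) := by
    apply Real.le_sqrt_of_sq_le
    calc ‖∑ n ∈ range H, g n‖ ^ 2 ≤ (∑ n ∈ range H, ‖g n‖) ^ 2 :=
          pow_le_pow_left₀ (norm_nonneg _) (norm_sum_le _ _) 2
      _ ≤ (range H).card * ∑ n ∈ range H, ‖g n‖ ^ 2 := sq_sum_le_card_mul_sum_sq
      _ = H * ∑ n ∈ range H, ‖g n‖ ^ 2 := by rw [card_range]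
      _ ≤ _ := mul_le_mul_of_nonneg_left h5 (Nat.cast_nonneg H)
  have h9 : (R : ℝ) * ‖S‖ = ‖(R : ℝ) • S‖ := by
    rw [norm_smul, Real.norm_of_nonneg (Nat.cast_nonneg R)]
  rw [h9, h1]
  exact (norm_add_le _ _).trans (add_le_add h2 h8)

end Pool.Agent.L5helper45.MB
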