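import Pool.Agent.L5helper45.MB.Group
import Pool.Agent.L5helper45.MB.VdC
import Pool.Agent.L5helper45.MB.Per

set_option autoImplicit false

/-! # Digital functions in several bases: correlations -/

namespace Pool.Agent.L5helper45.MB

open Finset

section Prod

variable {ι : Type} [Fintype ι] [DecidableEq ι] {G : ι → Type} [∀ j, Fintype (G j)]
  [∀ j, DecidableEq (G j)]

omit [∀ j, DecidableEq (G j)] in
lemma fact_sum (F : ∀ j, G j → ℂ) : ∑ x : (∀ j, G j), ∏ j, F j (x j) = ∏ j, ∑ y, F j y := by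
  rw [Finset.prod_univ_sum, Fintype.piFinset_univ]

lemma fact_ind (y y' : ∀ j, G j) : ∑ x : (∀ j, G j),
    (∏ j, if y j = x j then (1 : ℂ) else 0) * (∏ j, if y' j = x j then (1 : ℂ) else 0) =
      ∏ j, if y j = y' j then (1 : ℂ) else 0 := by
  simp_rw [← prod_mul_distrib]
  rw [fact_sum (fun j z => (if y j = z then (1 : ℂ) else 0) * (if y' j = z then (1 : ℂ) else 0))]
  refine prod_congr rfl fun j _ => ?_
  simp only [ite_mul, one_mul, zero_mul, sum_ite_eq, mem_univ, if_true]
  simp only [eq_comm]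

lemma fact_ind' (y : ∀ j, G j) (f : ∀ j, G j → ℂ) : ∑ x : (∀ j, G j),
    (∏ j, if y j = x j then (1 : ℂ) else 0) * (∏ j, f j (x j)) = ∏ j, f j (y j) := by
  simp_rw [← prod_mul_distrib]
  rw [fact_sum (fun j z => (if y j = z then (1 : ℂ) else 0) * f j z)]
  refine prod_congr rfl fun j _ => ?_
  simp only [ite_mul, one_mul, zero_mul, sum_ite_eq, mem_univ, if_true]

/-- the inner products of the centred indicator vectors -/
lemma prod_inner (a : ∀ j, ℕ → G j) (u : ∀ j, ℕ → G j → ℂ) (γ : ι → ℕ → ℂ)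
    (h1 : ∀ j n s, ∑ x, (starRingEnd ℂ) (u j n x) * u j (n + s) x = γ j s)
    (h2 : ∀ j n m, u j m (a j n) = ∑ x, (starRingEnd ℂ) (u j n x) * u j m x) (m s : ℕ) :
    ∑ x : (∀ j, G j), (starRingEnd ℂ) ((∏ j, if a j m = x j then (1 : ℂ) else 0) -
        ∏ j, u j m (x j)) * ((∏ j, if a j (m + s) = x j then (1 : ℂ) else 0) -
        ∏ j, u j (m + s) (x j)) =
      (∏ j, if a j m = a j (m + s) then (1 : ℂ) else 0) - ∏ j, γ j s := by
  have e0 : ∀ x : (∀ j, G j), (starRingEnd ℂ) (∏ j, if a j m = x j then (1 : ℂ) else 0) =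
      ∏ j, if a j m = x j then (1 : ℂ) else 0 := by
    intro x
    rw [map_prod]
    refine prod_congr rfl fun j _ => ?_
    split_ifs <;> simp
  have e1 : ∑ x : (∀ j, G j), (∏ j, if a j m = x j then (1 : ℂ) else 0) *
      (∏ j, if a j (m + s) = x j then (1 : ℂ) else 0) =
      ∏ j, if a j m = a j (m + s) then (1 : ℂ) else 0 :=
    fact_ind (fun j => a j m) (fun j => a j (m + s))
  have e2 : ∑ x : (∀ j, G j), (∏ j, if a j m = x j then (1 : ℂ) else 0) *
      (∏ j, u j (m + s) (x j)) = ∏ j, γ j s := by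
    rw [fact_ind' (fun j => a j m) (fun j z => u j (m + s) z)]
    refine prod_congr rfl fun j _ => ?_
    rw [h2, h1]
  have e3 : ∑ x : (∀ j, G j), (starRingEnd ℂ) (∏ j, u j m (x j)) *
      (∏ j, if a j (m + s) = x j then (1 : ℂ) else 0) = ∏ j, γ j s := by
    have e4 : ∀ x : (∀ j, G j), (starRingEnd ℂ) (∏ j, u j m (x j)) *
        (∏ j, if a j (m + s) = x j then (1 : ℂ) else 0) =
        (∏ j, if a j (m + s) = x j then (1 : ℂ) else 0) *
          ∏ j, (fun (j : ι) (z : G j) => (starRingEnd ℂ) (u j m z)) j (x j) := by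
      intro x
      rw [map_prod, mul_comm]
    rw [sum_congr rfl (fun x _ => e4 x), fact_ind' (fun j => a j (m + s))
      (fun (j : ι) (z : G j) => (starRingEnd ℂ) (u j m z))]
    refine prod_congr rfl fun j _ => ?_
    rw [h2, map_sum, ← h1 j m s]
    refine sum_congr rfl fun x _ => ?_
    rw [map_mul, Complex.conj_conj, mul_comm]
  have e5 : ∑ x : (∀ j, G j), (starRingEnd ℂ) (∏ j, u j m (x j)) *
      (∏ j, u j (m + s) (x j)) = ∏ j, γ j s := by
    have e4 : ∀ x : (∀ j, G j), (starRingEnd ℂ) (∏ j, u j m (x j)) * (∏ j, u j (m + s) (x j)) =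
        ∏ j, (fun (j : ι) (z : G j) => (starRingEnd ℂ) (u j m z) * u j (m + s) z) j (x j) := by
      intro x
      rw [map_prod, ← prod_mul_distrib]
    rw [sum_congr rfl (fun x _ => e4 x),
      fact_sum (fun (j : ι) (z : G j) => (starRingEnd ℂ) (u j m z) * u j (m + s) z)]
    refine prod_congr rfl fun j _ => ?_
    exact h1 j m s
  have e6 : ∀ x : (∀ j, G j), (starRingEnd ℂ) ((∏ j, if a j m = x j then (1 : ℂ) else 0) -
        ∏ j, u j m (x j)) * ((∏ j, if a j (m + s) = x j then (1 : ℂ) else 0) -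
        ∏ j, u j (m + s) (x j)) =
      (∏ j, if a j m = x j then (1 : ℂ) else 0) * (∏ j, if a j (m + s) = x j then (1 : ℂ) else 0) -
      (∏ j, if a j m = x j then (1 : ℂ) else 0) * (∏ j, u j (m + s) (x j)) -
      (starRingEnd ℂ) (∏ j, u j m (x j)) * (∏ j, if a j (m + s) = x j then (1 : ℂ) else 0) +
      (starRingEnd ℂ) (∏ j, u j m (x j)) * (∏ j, u j (m + s) (x j)) := by
    intro x
    rw [map_sub, e0]
    ring
  rw [sum_congr rfl (fun x _ => e6 x), sum_add_distrib, sum_sub_distrib, sum_sub_distrib, e1, e2,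
    e3, e5]
  ring

end Prod

/-- splitting off the last digits -/
lemma split {G : Type} [Group G] (b : ℕ) (hb : 2 ≤ b) (a : ℕ → G)
    (ha : ∀ n d, d < b → a (b * n + d) = a n * a d) (K : ℕ) :
    ∀ m n : ℕ, n < b ^ K → a (b ^ K * m + n) = a m * a n := by
  have ha0 : a 0 = 1 := by
    have := ha 0 0 (by omega)
    simpa using this
  induction K with
  | zero =>
    intro m n hn
    rw [pow_zero, Nat.lt_one_iff] at hn
    subst hn
    simp [ha0]
  | succ K ih =>
    intro m n hn
    have hd : n % b < b := Nat.mod_lt _ (by omega)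
    have hq : n / b < b ^ K := by
      rw [Nat.div_lt_iff_lt_mul (by omega), ← pow_succ]
      exact hn
    have h1 : b ^ (K + 1) * m + n = b * (b ^ K * m + n / b) + n % b := by
      have := Nat.div_add_mod n b
      calc b ^ (K + 1) * m + n = b ^ (K + 1) * m + (b * (n / b) + n % b) := by rw [this]
        _ = _ := by ring
    have h2 : a n = a (n / b) * a (n % b) := by
      conv_lhs => rw [← Nat.div_add_mod n b]
      exact ha _ _ hd
    rw [h1, ha _ _ hd, ih m (n / b) hq, h2, mul_assoc]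

lemma shift_iff {G : Type} [Group G] (b : ℕ) (hb : 2 ≤ b) (a : ℕ → G)
    (ha : ∀ n d, d < b → a (b * n + d) = a n * a d) (K n s : ℕ) (h : n % b ^ K + s < b ^ K) :
    a n = a (n + s) ↔ a (n % b ^ K) = a (n % b ^ K + s) := by
  have h1 : a n = a (n / b ^ K) * a (n % b ^ K) := by
    conv_lhs => rw [← Nat.div_add_mod n (b ^ K)]
    exact split b hb a ha K _ _ (by omega)
  have h2 : a (n + s) = a (n / b ^ K) * a (n % b ^ K + s) := by
    conv_lhs => rw [← Nat.div_add_mod n (b ^ K), add_assoc]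
    exact split b hb a ha K _ _ h
  rw [h1, h2, mul_right_inj]

/-- correlations over a window -/
lemma window_corr {ι : Type} [Fintype ι] [DecidableEq ι] (G : ι → Type) [∀ j, Group (G j)]
    [∀ j, DecidableEq (G j)] (b : ι → ℕ) (hb : ∀ j, 2 ≤ b j)
    (hco : ∀ i j, i ≠ j → Nat.Coprime (b i) (b j)) (a : ∀ j, ℕ → G j)
    (ha : ∀ j n d, d < b j → a j (b j * n + d) = a j n * a j d) (K : ι → ℕ) (γ : ι → ℂ)
    (hγ : ∀ j, ‖γ j‖ ≤ 1) (s H N' : ℕ) (hs : ∀ j, s ≤ b j ^ K j) :
    ‖∑ m ∈ range H, ((∏ j, if a j (N' + m) = a j (N' + m + s) then (1 : ℂ) else 0) - ∏ j, γ j)‖ ≤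
      (∑ j, ((H : ℝ) * s / (b j ^ K j : ℕ) + (b j ^ K j : ℕ))) + (∏ j, b j ^ K j : ℕ) +
      H * ∑ j, (‖∑ m ∈ (range (b j ^ K j)).filter (fun m => m + s < b j ^ K j),
        ((if a j m = a j (m + s) then (1 : ℂ) else 0) - γ j)‖ + s) / (b j ^ K j : ℕ) := by
  set Q : ι → ℕ := fun j => b j ^ K j with hQ
  have hQ1 : ∀ j, 1 ≤ Q j := fun j => Nat.one_le_iff_ne_zero.2 (pow_ne_zero _ (by have := hb j; omega))
  have hQr : ∀ j, (0 : ℝ) < Q j := fun j => by exact_mod_cast hQ1 j
  set c : ι → ℕ → ℝ := fun j n => if a j n = a j (n + s) then 1 else 0 with hc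
  set ct : ι → ℕ → ℝ := fun j n => if n % Q j + s < Q j ∧ a j (n % Q j) = a j (n % Q j + s)
    then 1 else 0 with hct
  set bad : ι → ℕ → ℝ := fun j n => if n % Q j + s < Q j then 0 else 1 with hbad
  have hc01 : ∀ j n, 0 ≤ c j n ∧ c j n ≤ 1 := by
    intro j n
    rw [hc]
    beta_reduce
    split_ifs <;> norm_num
  have hct01 : ∀ j n, 0 ≤ ct j n ∧ ct j n ≤ 1 := by
    intro j n
    rw [hct]
    beta_reduce
    split_ifs <;> norm_num
  have hbad01 : ∀ j n, 0 ≤ bad j n ∧ bad j n ≤ 1 := by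
    intro j n
    rw [hbad]
    beta_reduce
    split_ifs <;> norm_num
  have hdiff : ∀ j n, |c j n - ct j n| ≤ bad j n := by
    intro j n
    rw [hc, hct, hbad]
    beta_reduce
    by_cases h : n % Q j + s < Q j
    · have h1 := shift_iff (b j) (hb j) (a j) (ha j) (K j) n s h
      rw [if_pos h]
      by_cases h2 : a j n = a j (n + s)
      · rw [if_pos h2, if_pos ⟨h, h1.1 h2⟩]
        simp
      · rw [if_neg h2, if_neg (fun h3 => h2 (h1.2 h3.2))]
        simp
    · rw [if_neg h, if_neg (fun h3 : n % Q j + s < Q j ∧ a j (n % Q j) = a j (n % Q j + s) =>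
        h h3.1)]
      split_ifs <;> simp
  have hctper : ∀ j n, ct j (n % Q j) = ct j n := by
    intro j n
    rw [hct]
    beta_reduce
    rw [Nat.mod_mod]
  have hbadper : ∀ j n, bad j (n + Q j) = bad j n := by
    intro j n
    rw [hbad]
    beta_reduce
    rw [Nat.add_mod_right]
  -- the full period sums
  set C : ι → ℝ := fun j => ∑ m ∈ range (Q j), ct j m with hC
  have hCeq : ∀ j, ((C j : ℝ) : ℂ) = ∑ m ∈ (range (Q j)).filter (fun m => m + s < Q j),
      (if a j m = a j (m + s) then (1 : ℂ) else 0) := by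
    intro j
    rw [hC]
    beta_reduce
    rw [Complex.ofReal_sum, sum_filter]
    refine sum_congr rfl fun m hm => ?_
    rw [hct]
    beta_reduce
    rw [Nat.mod_eq_of_lt (mem_range.1 hm)]
    by_cases h1 : m + s < Q j
    · by_cases h2 : a j m = a j (m + s)
      · rw [if_pos ⟨h1, h2⟩, if_pos h1, if_pos h2]
        simp
      · rw [if_neg (fun h => h2 h.2), if_pos h1, if_neg h2]
        simp
    · rw [if_neg (fun h => h1 h.1), if_neg h1]
      simp
  have hcardf : ∀ j, (((range (Q j)).filter (fun m => m + s < Q j)).card : ℂ) = Q j - s := by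
    intro j
    have h1 : (range (Q j)).filter (fun m => m + s < Q j) = range (Q j - s) := by
      ext m
      simp only [mem_filter, mem_range]
      omega
    rw [h1, card_range, Nat.cast_sub (hs j)]
  set β : ι → ℂ := fun j => ∑ m ∈ (range (Q j)).filter (fun m => m + s < Q j),
        ((if a j m = a j (m + s) then (1 : ℂ) else 0) - γ j) with hβ
  have hβeq : ∀ j, β j = C j - (Q j - s) * γ j := by
    intro j
    rw [hβ]
    beta_reduce
    rw [sum_sub_distrib, ← hCeq, sum_const, nsmul_eq_mul, hcardf]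
  have hmean : ∀ j, ‖((C j / Q j : ℝ) : ℂ) - γ j‖ ≤ (‖β j‖ + s) / Q j := by
    intro j
    have hQc : (Q j : ℂ) ≠ 0 := by exact_mod_cast (hQr j).ne'
    have h1 : ((C j / Q j : ℝ) : ℂ) - γ j = (β j - s * γ j) / Q j := by
      rw [hβeq]
      push_cast
      field_simp
      ring
    rw [h1, norm_div, Complex.norm_natCast]
    apply div_le_div_of_nonneg_right _ (hQr j).le
    refine (norm_sub_le _ _).trans ?_
    rw [norm_mul, Complex.norm_natCast]
    have : (s : ℝ) * ‖γ j‖ ≤ s * 1 := mul_le_mul_of_nonneg_left (hγ j) (Nat.cast_nonneg s)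
    linarith
  -- step 1
  have s1 : ‖∑ m ∈ range H, ((∏ j, if a j (N' + m) = a j (N' + m + s) then (1 : ℂ) else 0)) -
      ((∑ m ∈ range H, ∏ j, ct j (N' + m) : ℝ) : ℂ)‖ ≤ ∑ j, ((H : ℝ) * s / Q j + Q j) := by
    rw [Complex.ofReal_sum, ← sum_sub_distrib]
    refine (norm_sum_le _ _).trans ?_
    have h1 : ∀ m ∈ range H, ‖(∏ j, if a j (N' + m) = a j (N' + m + s) then (1 : ℂ) else 0) -
        ((∏ j, ct j (N' + m) : ℝ) : ℂ)‖ ≤ ∑ j, bad j (N' + m) := by
      intro m _
      have h2 : (∏ j, if a j (N' + m) = a j (N' + m + s) then (1 : ℂ) else 0) =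
          ∏ j, ((c j (N' + m) : ℝ) : ℂ) := by
        refine prod_congr rfl fun j _ => ?_
        rw [hc]
        beta_reduce
        split_ifs <;> simp
      rw [h2, Complex.ofReal_prod]
      refine (prod_diff _ _ univ ?_ ?_).trans ?_
      · intro j _
        rw [Complex.norm_real, Real.norm_of_nonneg (hc01 _ _).1]
        exact (hc01 _ _).2
      · intro j _
        rw [Complex.norm_real, Real.norm_of_nonneg (hct01 _ _).1]
        exact (hct01 _ _).2
      · refine sum_le_sum fun j _ => ?_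
        rw [← Complex.ofReal_sub, Complex.norm_real]
        exact hdiff j _
    refine (sum_le_sum h1).trans ?_
    rw [sum_comm]
    refine sum_le_sum fun j _ => ?_
    have h3 := window (Q j) (hQ1 j) (bad j) (hbadper j) (fun n => (hbad01 j n).1)
      (fun n => (hbad01 j n).2) N' H
    have h4 : ∑ m ∈ range (Q j), bad j m ≤ s := by
      have h5 : ∑ m ∈ range (Q j), bad j m = ((range (Q j)).filter (fun m => ¬ m + s < Q j)).card := by
        rw [← sum_boole]
        refine sum_congr rfl fun m hm => ?_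
        rw [hbad]
        beta_reduce
        rw [Nat.mod_eq_of_lt (mem_range.1 hm)]
        by_cases h : m + s < Q j
        · rw [if_pos h, if_neg (not_not.2 h)]
        · rw [if_neg h, if_pos h]
      rw [h5]
      have h6 : (range (Q j)).filter (fun m => ¬ m + s < Q j) ⊆ Ico (Q j - s) (Q j) := by
        intro m hm
        simp only [mem_filter, mem_range, mem_Ico] at hm ⊢
        omega
      have h7 := card_le_card h6
      rw [Nat.card_Ico] at h7
      have h8 : Q j - (Q j - s) ≤ s := by omega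
      exact_mod_cast h7.trans h8
    have h9 := (abs_le.1 h3).2
    have h10 : (H : ℝ) / Q j * ∑ m ∈ range (Q j), bad j m ≤ H * s / Q j := by
      rw [div_mul_eq_mul_div]
      apply div_le_div_of_nonneg_right _ (hQr j).le
      exact mul_le_mul_of_nonneg_left h4 (Nat.cast_nonneg H)
    linarith
  -- step 2
  have hprodQ : 1 ≤ ∏ j, Q j := Nat.one_le_iff_ne_zero.2 (prod_ne_zero_iff.2 fun j _ => by
    have := hQ1 j; omega)
  have s2 : |∑ m ∈ range H, ∏ j, ct j (N' + m) - H * ∏ j, (C j / Q j)| ≤ (∏ j, Q j : ℕ) := by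
    have h1 := window (∏ j, Q j) hprodQ (fun n => ∏ j, ct j n) (by
      intro n
      refine prod_congr rfl fun j _ => ?_
      rw [← hctper j (n + ∏ j, Q j), ← hctper j n]
      congr 1
      have h2 : Q j ∣ ∏ j, Q j := dvd_prod_of_mem _ (mem_univ j)
      obtain ⟨k, hk⟩ := h2
      rw [hk, Nat.add_mul_mod_self_left]) (fun n => prod_nonneg fun j _ => (hct01 j n).1)
      (fun n => prod_le_one (fun j _ => (hct01 j n).1) (fun j _ => (hct01 j n).2)) N' H
    have h3 : ∑ u ∈ range (∏ j, Q j), ∏ j, ct j u = ∏ j, C j :=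
      crt_prod Q hQ1 ct hctper univ (by
        intro i _ j _ hij
        exact Nat.Coprime.pow _ _ (hco i j hij))
    rw [h3] at h1
    have h4 : (H : ℝ) / (∏ j, Q j : ℕ) * ∏ j, C j = H * ∏ j, (C j / Q j) := by
      rw [prod_div_distrib]
      push_cast
      ring
    rw [h4] at h1
    exact h1
  -- step 3
  have hC01 : ∀ j, ‖((C j / Q j : ℝ) : ℂ)‖ ≤ 1 := by
    intro j
    have h1 : 0 ≤ C j := sum_nonneg fun m _ => (hct01 j m).1
    have h2 : C j ≤ Q j := by
      calc C j ≤ ∑ m ∈ range (Q j), (1 : ℝ) := sum_le_sum fun m _ => (hct01 j m).2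
        _ = _ := by simp
    rw [Complex.norm_real, Real.norm_of_nonneg (div_nonneg h1 (hQr j).le)]
    exact (div_le_one (hQr j)).2 h2
  have s3 : ‖(((H : ℝ) * ∏ j, (C j / Q j) : ℝ) : ℂ) - H * ∏ j, γ j‖ ≤
      H * ∑ j, (‖β j‖ + s) / Q j := by
    have h1 : (((H : ℝ) * ∏ j, (C j / Q j) : ℝ) : ℂ) - H * ∏ j, γ j =
        H * (∏ j, ((C j / Q j : ℝ) : ℂ) - ∏ j, γ j) := by
      push_cast
      ring
    rw [h1, norm_mul, Complex.norm_natCast]
    apply mul_le_mul_of_nonneg_left _ (Nat.cast_nonneg H)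
    refine (prod_diff _ _ univ (fun j _ => hC01 j) (fun j _ => hγ j)).trans ?_
    exact sum_le_sum fun j _ => hmean j
  -- together
  have h1 : ∑ m ∈ range H, ((∏ j, if a j (N' + m) = a j (N' + m + s) then (1 : ℂ) else 0) -
      ∏ j, γ j) =
      (∑ m ∈ range H, ((∏ j, if a j (N' + m) = a j (N' + m + s) then (1 : ℂ) else 0)) -
        ((∑ m ∈ range H, ∏ j, ct j (N' + m) : ℝ) : ℂ)) +
      ((∑ m ∈ range H, ∏ j, ct j (N' + m) - H * ∏ j, (C j / Q j) : ℝ) : ℂ) +
      ((((H : ℝ) * ∏ j, (C j / Q j) : ℝ) : ℂ) - H * ∏ j, γ j) := by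
    rw [sum_sub_distrib, sum_const, card_range, nsmul_eq_mul]
    push_cast
    ring
  rw [h1]
  refine (norm_add₃_le).trans ?_
  refine add_le_add (add_le_add s1 ?_) s3
  rw [Complex.norm_real]
  exact s2

end Pool.Agent.L5helper45.MB
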