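import Mathlib

set_option autoImplicit false

/-! # Transfer operators of invertible automatic sequences

`E` is a finite dimensional Hilbert space with isometries `R 0 = id, R 1, …, R (b - 1)`.  On the
orthogonal complement of the linear part `U` (where `R d = (R 1) ^ d` and `(R 1) ^ (b - 1) = 1`) two
consecutive transfer operators `∑_{d < b} z ^ d R d` have norm less than `b ^ 2`. -/

namespace Pool.Agent.L5helper45.MB

open Finset

variable {E : Type*} [NormedAddCommGroup E] [InnerProductSpace ℂ E]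

/-- if a sum of `b` vectors of norm `r` has norm at least `b r` then the vectors are equal -/
lemma all_eq (b : ℕ) (hb : 1 ≤ b) (x : ℕ → E) (r : ℝ) (hr : 0 ≤ r) (hx : ∀ d < b, ‖x d‖ = r)
    (h : b * r ≤ ‖∑ d ∈ range b, x d‖) : ∀ d < b, x d = x 0 := by
  set s := ∑ d ∈ range b, x d with hs
  have hb0 : (0 : ℝ) < b := by exact_mod_cast hb
  have hbc : (b : ℂ) ≠ 0 := by exact_mod_cast hb0.ne'
  set y : E := ((b : ℂ)⁻¹) • s with hy
  have hny : ‖y‖ = ‖s‖ / b := by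
    rw [hy, norm_smul, norm_inv, Complex.norm_natCast]
    field_simp
  have h1 : ∀ d ∈ range b, ‖x d - y‖ ^ 2 = r ^ 2 - 2 * RCLike.re (inner ℂ (x d) y) + ‖y‖ ^ 2 := by
    intro d hd
    rw [norm_sub_sq (𝕜 := ℂ), hx d (mem_range.1 hd)]
  have h2 : ∑ d ∈ range b, RCLike.re (inner ℂ (x d) y) = ‖s‖ ^ 2 / b := by
    rw [← map_sum, ← sum_inner, ← hs, hy, inner_smul_right, inner_self_eq_norm_sq_to_K]
    have : ((b : ℂ)⁻¹) * ((‖s‖ : ℂ)) ^ 2 = ((‖s‖ ^ 2 / b : ℝ) : ℂ) := by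
      push_cast
      field_simp
    rw [show ((b : ℂ)⁻¹) * ((RCLike.ofReal ‖s‖ : ℂ)) ^ 2 = ((b : ℂ)⁻¹) * ((‖s‖ : ℂ)) ^ 2 from rfl, this]
    exact Complex.ofReal_re _
  have h3 : ∑ d ∈ range b, ‖x d - y‖ ^ 2 ≤ 0 := by
    rw [sum_congr rfl h1, sum_add_distrib, sum_sub_distrib, ← mul_sum, h2, sum_const, sum_const,
      card_range, nsmul_eq_mul, nsmul_eq_mul, hny]
    have h4 : (b * r) ^ 2 ≤ ‖s‖ ^ 2 := pow_le_pow_left₀ (by positivity) h 2
    have h5 : (b : ℝ) * r ^ 2 ≤ ‖s‖ ^ 2 / b := by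
      rw [le_div_iff₀ hb0]
      calc (b : ℝ) * r ^ 2 * b = (b * r) ^ 2 := by ring
        _ ≤ _ := h4
    have h6 : (b : ℝ) * (‖s‖ / b) ^ 2 = ‖s‖ ^ 2 / b := by
      field_simp
    rw [h6]
    linarith
  have h4 : ∀ d < b, x d = y := by
    intro d hd
    have h5 := single_le_sum (f := fun d => ‖x d - y‖ ^ 2) (s := range b)
      (fun i _ => by positivity) (mem_range.2 hd)
    have h6 : ‖x d - y‖ ^ 2 ≤ 0 := h5.trans h3
    have h7 : ‖x d - y‖ = 0 := by
      have := sq_nonneg ‖x d - y‖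
      exact pow_eq_zero_iff (two_ne_zero) |>.1 (le_antisymm h6 this)
    exact sub_eq_zero.1 (norm_eq_zero.1 h7)
  intro d hd
  rw [h4 d hd, h4 0 (by omega)]

/-- the transfer operator -/
def Tr (R : ℕ → E →ₗᵢ[ℂ] E) (b : ℕ) (z : ℂ) (f : E) : E := ∑ d ∈ range b, z ^ d • R d f

lemma Tr_norm_le (R : ℕ → E →ₗᵢ[ℂ] E) (b : ℕ) (z : ℂ) (hz : ‖z‖ = 1) (f : E) :
    ‖Tr R b z f‖ ≤ b * ‖f‖ := by
  unfold Tr
  refine (norm_sum_le _ _).trans ?_
  have : ∑ d ∈ range b, ‖z ^ d • R d f‖ = ∑ d ∈ range b, ‖f‖ := by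
    refine sum_congr rfl fun d _ => ?_
    rw [norm_smul, norm_pow, hz, one_pow, one_mul, LinearIsometry.norm_map]
  rw [this, sum_const, card_range, nsmul_eq_mul]

lemma Tr_smul (R : ℕ → E →ₗᵢ[ℂ] E) (b : ℕ) (z c : ℂ) (f : E) :
    Tr R b z (c • f) = c • Tr R b z f := by
  unfold Tr
  rw [smul_sum]
  refine sum_congr rfl fun d _ => ?_
  rw [map_smul, smul_comm]

/-- the linear part -/
def LinPart (R : ℕ → E →ₗᵢ[ℂ] E) (b : ℕ) : Submodule ℂ E where
  carrier := {u | (∀ k d : ℕ, d < b → R d ((R 1)^[k] u) = (R 1)^[k + d] u) ∧ (R 1)^[b - 1] u = u}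
  add_mem' := by
    rintro u v ⟨h1, h2⟩ ⟨h3, h4⟩
    have hadd : ∀ k, (R 1)^[k] (u + v) = (R 1)^[k] u + (R 1)^[k] v := fun k => by
      induction k with
      | zero => rfl
      | succ k ih => rw [Function.iterate_succ_apply', Function.iterate_succ_apply',
          Function.iterate_succ_apply', ih, map_add]
    refine ⟨fun k d hd => ?_, ?_⟩
    · rw [hadd, hadd, map_add, h1 k d hd, h3 k d hd]
    · rw [hadd, h2, h4]
  zero_mem' := by
    have h0 : ∀ k, (R 1)^[k] (0 : E) = 0 := fun k => by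
      induction k with
      | zero => rfl
      | succ k ih => rw [Function.iterate_succ_apply', ih, map_zero]
    exact ⟨fun k d _ => by rw [h0, h0, map_zero], h0 _⟩
  smul_mem' := by
    rintro c u ⟨h1, h2⟩
    have hs : ∀ k, (R 1)^[k] (c • u) = c • (R 1)^[k] u := fun k => by
      induction k with
      | zero => rfl
      | succ k ih => rw [Function.iterate_succ_apply', Function.iterate_succ_apply', ih, map_smul]
    refine ⟨fun k d hd => ?_, ?_⟩
    · rw [hs, hs, map_smul, h1 k d hd]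
    · rw [hs, h2]

lemma mem_LinPart (R : ℕ → E →ₗᵢ[ℂ] E) (b : ℕ) (u : E) : u ∈ LinPart R b ↔
    (∀ k d : ℕ, d < b → R d ((R 1)^[k] u) = (R 1)^[k + d] u) ∧ (R 1)^[b - 1] u = u := Iff.rfl

/-- equality in the trivial bound only on the linear part -/
lemma strict (R : ℕ → E →ₗᵢ[ℂ] E) (b : ℕ) (hb : 2 ≤ b) (hR0 : ∀ f, R 0 f = f) (z : ℂ)
    (hz : ‖z‖ = 1) (f : E) (h : (b : ℝ) ^ 2 * ‖f‖ ≤ ‖Tr R b z (Tr R b (z ^ b) f)‖) :
    f ∈ LinPart R b := by
  by_cases hf : f = 0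
  · rw [hf]; exact zero_mem _
  have hb0 : (0 : ℝ) < b := by exact_mod_cast (by omega : 0 < b)
  have hbc : (b : ℂ) ≠ 0 := by exact_mod_cast hb0.ne'
  have hz0 : z ≠ 0 := by
    intro h0
    rw [h0] at hz
    simp at hz
  set g := Tr R b (z ^ b) f with hg
  have hzb : ‖z ^ b‖ = 1 := by rw [norm_pow, hz, one_pow]
  have h1 : ‖g‖ ≤ b * ‖f‖ := Tr_norm_le R b _ hzb f
  have h2 : ‖Tr R b z g‖ ≤ b * ‖g‖ := Tr_norm_le R b z hz g
  have h3 : b * ‖f‖ ≤ ‖g‖ := by
    have : b * (b * ‖f‖) ≤ b * ‖g‖ := by nlinarith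
    exact le_of_mul_le_mul_left this hb0
  have h4 : b * ‖g‖ ≤ ‖Tr R b z g‖ := by nlinarith
  have e1 : ∀ d < b, (z ^ b) ^ d • R d f = f := by
    have := all_eq b (by omega) (fun d => (z ^ b) ^ d • R d f) ‖f‖ (norm_nonneg _) (fun d _ => by
      rw [norm_smul, norm_pow, hzb, one_pow, one_mul, LinearIsometry.norm_map]) h3
    intro d hd
    have h5 := this d hd
    simp only [pow_zero, hR0, one_smul] at h5
    exact h5
  have hgf : g = (b : ℂ) • f := by
    rw [hg]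
    unfold Tr
    rw [sum_congr rfl (fun d hd => e1 d (mem_range.1 hd)), sum_const, card_range]
    rw [← Nat.cast_smul_eq_nsmul ℂ]
  have e2 : ∀ d < b, z ^ d • R d f = f := by
    have := all_eq b (by omega) (fun d => z ^ d • R d g) ‖g‖ (norm_nonneg _) (fun d _ => by
      rw [norm_smul, norm_pow, hz, one_pow, one_mul, LinearIsometry.norm_map]) h4
    intro d hd
    have h5 := this d hd
    simp only [pow_zero, hR0, one_smul] at h5
    rw [hgf, map_smul, smul_comm] at h5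
    exact smul_right_injective E hbc h5
  have e3 := e1 1 (by omega)
  have e4 := e2 1 (by omega)
  rw [pow_one] at e3 e4
  have e5 : z ^ b = z := by
    have h5 : (z ^ b - z) • R 1 f = 0 := by rw [sub_smul, e3, e4, sub_self]
    rcases smul_eq_zero.1 h5 with h6 | h6
    · exact sub_eq_zero.1 h6
    · exfalso
      rw [h6, smul_zero] at e4
      exact hf e4.symm
  have e6 : z ^ (b - 1) = 1 := by
    have h5 : z ^ (b - 1) * z = 1 * z := by
      rw [← pow_succ, Nat.sub_add_cancel (by omega), one_mul]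
      exact e5
    exact mul_right_cancel₀ hz0 h5
  have e7 : ∀ d < b, R d f = (z⁻¹) ^ d • f := by
    intro d hd
    have h5 := e2 d hd
    calc R d f = (z⁻¹) ^ d • (z ^ d • R d f) := by
          rw [smul_smul, ← mul_pow, inv_mul_cancel₀ hz0, one_pow, one_smul]
      _ = _ := by rw [h5]
  have e8 : ∀ k, (R 1)^[k] f = (z⁻¹) ^ k • f := by
    intro k
    induction k with
    | zero => simp
    | succ k ih => rw [Function.iterate_succ_apply', ih, map_smul, e7 1 (by omega), pow_one,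
        smul_smul, pow_succ]
  rw [mem_LinPart]
  refine ⟨fun k d hd => ?_, ?_⟩
  · rw [e8, e8, map_smul, e7 d hd, smul_smul, pow_add]
  · rw [e8, inv_pow, e6, inv_one, one_smul]

section Inv

variable (R : ℕ → E →ₗᵢ[ℂ] E) (b : ℕ)

lemma LinPart_iter (u : E) (hu : u ∈ LinPart R b) (k : ℕ) : (R 1)^[k] u ∈ LinPart R b := by
  rw [mem_LinPart] at hu ⊢
  obtain ⟨h1, h2⟩ := hu
  refine ⟨fun l d hd => ?_, ?_⟩
  · rw [← Function.iterate_add_apply, ← Function.iterate_add_apply, h1 _ d hd]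
    congr 1
    ring
  · rw [← Function.iterate_add_apply, add_comm, Function.iterate_add_apply, h2]

lemma LinPart_R (u : E) (hu : u ∈ LinPart R b) (d : ℕ) (hd : d < b) :
    R d u = (R 1)^[d] u := by
  have := ((mem_LinPart R b u).1 hu).1 0 d hd
  simpa using this

lemma LinPart_period (u : E) (hu : u ∈ LinPart R b) (k : ℕ) : (R 1)^[(b - 1) * k] u = u := by
  induction k with
  | zero => simp
  | succ k ih => rw [Nat.mul_succ, Function.iterate_add_apply, hu.2, ih]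

/-- the isometries preserve the orthogonal complement -/
lemma perp_R (hb : 2 ≤ b) (f : E) (hf : f ∈ (LinPart R b)ᗮ) (d : ℕ) (hd : d < b) :
    R d f ∈ (LinPart R b)ᗮ := by
  rw [Submodule.mem_orthogonal] at hf ⊢
  intro u hu
  set u' := (R 1)^[(b - 2) * d] u with hu'
  have h1 : u' ∈ LinPart R b := LinPart_iter R b u hu _
  have h2 : R d u' = u := by
    rw [LinPart_R R b u' h1 d hd, hu', ← Function.iterate_add_apply]
    have h3 : d + (b - 2) * d = (b - 1) * d := by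
      obtain ⟨c, rfl⟩ : ∃ c, b = c + 2 := ⟨b - 2, by omega⟩
      simp only [Nat.add_sub_cancel]
      have : c + 2 - 1 = c + 1 := by omega
      rw [this]
      ring
    rw [h3]
    exact LinPart_period R b u hu d
  rw [← h2, LinearIsometry.inner_map_map]
  exact hf u' h1

end Inv

/-- the contraction -/
lemma contraction [FiniteDimensional ℂ E] (R : ℕ → E →ₗᵢ[ℂ] E) (b : ℕ) (hb : 2 ≤ b)
    (hR0 : ∀ f, R 0 f = f) : ∃ ρ : ℝ, 1 ≤ ρ ∧ ρ < (b : ℝ) ^ 2 ∧ ∀ z : ℂ, ‖z‖ = 1 →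
      ∀ f ∈ (LinPart R b)ᗮ, ‖Tr R b z (Tr R b (z ^ b) f)‖ ≤ ρ * ‖f‖ := by
  have hb2 : (1 : ℝ) < (b : ℝ) ^ 2 := by
    have : (2 : ℝ) ≤ b := by exact_mod_cast hb
    nlinarith
  have : ProperSpace E := FiniteDimensional.proper_rclike ℂ E
  set K : Set (ℂ × E) := Metric.sphere (0 : ℂ) 1 ×ˢ
    (Metric.sphere (0 : E) 1 ∩ ((LinPart R b)ᗮ : Set E)) with hK
  have hKc : IsCompact K := (isCompact_sphere _ _).prod
    ((isCompact_sphere _ _).inter_right (Submodule.isClosed_orthogonal _))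
  have hcont : Continuous (fun p : ℂ × E => ‖Tr R b p.1 (Tr R b (p.1 ^ b) p.2)‖) := by
    unfold Tr
    fun_prop
  have hscale : ∀ (z : ℂ) (c : ℂ) (f : E), Tr R b z (Tr R b (z ^ b) (c • f)) =
      c • Tr R b z (Tr R b (z ^ b) f) := by
    intro z c f
    rw [Tr_smul, Tr_smul]
  rcases K.eq_empty_or_nonempty with hKe | hKn
  · refine ⟨1, le_rfl, hb2, ?_⟩
    intro z hz f hf
    by_cases hf0 : f = 0
    · subst hf0
      unfold Tr
      simp
    · exfalso
      have hn : ‖f‖ ≠ 0 := norm_ne_zero_iff.2 hf0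
      have : (z, ((‖f‖ : ℂ)⁻¹) • f) ∈ K := by
        refine Set.mk_mem_prod (by simpa using hz) ⟨?_, Submodule.smul_mem _ _ hf⟩
        simp [norm_smul, hn]
      rw [hKe] at this
      exact this
  · obtain ⟨⟨z₀, f₀⟩, h0, hmax⟩ := hKc.exists_isMaxOn hKn hcont.continuousOn
    obtain ⟨hz0, hf0, hf0'⟩ : z₀ ∈ Metric.sphere (0 : ℂ) 1 ∧ f₀ ∈ Metric.sphere (0 : E) 1 ∧
        f₀ ∈ (LinPart R b)ᗮ := ⟨h0.1, h0.2.1, h0.2.2⟩
    have hz0' : ‖z₀‖ = 1 := by simpa using hz0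
    have hf0n : ‖f₀‖ = 1 := by simpa using hf0
    refine ⟨max 1 ‖Tr R b z₀ (Tr R b (z₀ ^ b) f₀)‖, le_max_left _ _, max_lt hb2 ?_, ?_⟩
    · by_contra hcon
      push Not at hcon
      have h1 := strict R b hb hR0 z₀ hz0' f₀ (by rw [hf0n, mul_one]; exact hcon)
      have h2 : f₀ = 0 := by
        have := (Submodule.mem_orthogonal _ _).1 hf0' f₀ h1
        exact inner_self_eq_zero.1 this
      rw [h2, norm_zero] at hf0n
      exact zero_ne_one hf0n
    · intro z hz f hf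
      by_cases hf0 : f = 0
      · subst hf0
        unfold Tr
        simp
      · have hn : ‖f‖ ≠ 0 := norm_ne_zero_iff.2 hf0
        have hnp : 0 < ‖f‖ := norm_pos_iff.2 hf0
        have hnc : (‖f‖ : ℂ) ≠ 0 := by exact_mod_cast hn
        have hmem : (z, ((‖f‖ : ℂ)⁻¹) • f) ∈ K := by
          refine Set.mk_mem_prod (by simpa using hz) ⟨?_, Submodule.smul_mem _ _ hf⟩
          simp [norm_smul, hn]
        have h1 := hmax hmem
        simp only [Set.mem_ofPred_eq] at h1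
        rw [hscale, norm_smul, norm_inv, Complex.norm_real, norm_norm] at h1
        rw [inv_mul_le_iff₀ hnp] at h1
        calc _ ≤ ‖f‖ * ‖Tr R b z₀ (Tr R b (z₀ ^ b) f₀)‖ := h1
          _ ≤ ‖f‖ * max 1 ‖Tr R b z₀ (Tr R b (z₀ ^ b) f₀)‖ :=
            mul_le_mul_of_nonneg_left (le_max_right _ _) hnp.le
          _ = _ := mul_comm _ _

lemma sum_blocks {M : Type*} [AddCommMonoid M] (b N : ℕ) (f : ℕ → M) :
    ∑ n ∈ range (b * N), f n = ∑ m ∈ range N, ∑ d ∈ range b, f (b * m + d) := by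
  induction N with
  | zero => simp
  | succ N ih => rw [Nat.mul_succ, sum_range_add, ih, sum_range_succ]

lemma Tr_sum (R : ℕ → E →ₗᵢ[ℂ] E) (b : ℕ) (w : ℕ → E)
    (hw : ∀ n d, d < b → w (b * n + d) = R d (w n)) (N : ℕ) (z : ℂ) :
    ∑ n ∈ range (b * N), z ^ n • w n = Tr R b z (∑ n ∈ range N, (z ^ b) ^ n • w n) := by
  unfold Tr
  rw [sum_blocks, sum_comm]
  refine sum_congr rfl fun d hd => ?_
  rw [map_sum, smul_sum]
  refine sum_congr rfl fun n _ => ?_
  rw [hw n d (mem_range.1 hd), map_smul, smul_smul, ← pow_mul, ← pow_add, add_comm]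

/-- exponential sums over the complement of the linear part -/
lemma sup_bound (R : ℕ → E →ₗᵢ[ℂ] E) (b : ℕ)
    (ρ : ℝ) (hρ : 0 ≤ ρ) (hρ' : ∀ z : ℂ, ‖z‖ = 1 →
      ∀ f ∈ (LinPart R b)ᗮ, ‖Tr R b z (Tr R b (z ^ b) f)‖ ≤ ρ * ‖f‖)
    (w : ℕ → E) (hw : ∀ n d, d < b → w (b * n + d) = R d (w n)) (hw' : ∀ n, w n ∈ (LinPart R b)ᗮ)
    (L : ℕ) : ∀ z : ℂ, ‖z‖ = 1 → ‖∑ n ∈ range ((b ^ 2) ^ L), z ^ n • w n‖ ≤ ρ ^ L * ‖w 0‖ := by
  induction L with
  | zero => intro z hz; simp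
  | succ L ih =>
    intro z hz
    have e1 : (b ^ 2) ^ (L + 1) = b * (b * (b ^ 2) ^ L) := by ring
    rw [e1, Tr_sum R b w hw, Tr_sum R b w hw]
    have hzb : ‖(z ^ b) ^ b‖ = 1 := by rw [norm_pow, norm_pow, hz, one_pow, one_pow]
    calc _ ≤ ρ * ‖∑ n ∈ range ((b ^ 2) ^ L), ((z ^ b) ^ b) ^ n • w n‖ := by
          apply hρ' z hz
          exact Submodule.sum_mem _ fun n _ => Submodule.smul_mem _ _ (hw' n)
      _ ≤ ρ * (ρ ^ L * ‖w 0‖) := mul_le_mul_of_nonneg_left (ih _ hzb) hρ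
      _ = _ := by ring

end Pool.Agent.L5helper45.MB
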