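import Pool.Agent.L5helper45.MB.Prod

set_option autoImplicit false

/-! # Digital functions in several bases: sums over windows -/

namespace Pool.Agent.L5helper45.MB

open Finset

/-- sums over windows twisted by an arbitrary additive character -/
lemma vec_bound {ι : Type} [Fintype ι] [DecidableEq ι] (G : ι → Type) [∀ j, Group (G j)]
    [∀ j, Fintype (G j)] [∀ j, DecidableEq (G j)] (b : ι → ℕ) (hb : ∀ j, 2 ≤ b j)
    (hco : ∀ i j, i ≠ j → Nat.Coprime (b i) (b j)) (a : ∀ j, ℕ → G j)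
    (ha : ∀ j n d, d < b j → a j (b j * n + d) = a j n * a j d) :
    ∃ (u : ∀ j, ℕ → G j → ℂ) (p ρ : ι → ℝ), (∀ j, 1 ≤ ρ j ∧ ρ j < (b j : ℝ) ^ 2) ∧
      (∀ j, 0 < p j ∧ p j ≤ 1) ∧ (∀ j n, u j n (a j n) = p j) ∧
      (∀ j n k, u j (n + (b j - 1) * k) = u j n) ∧
      ∀ (L : ι → ℕ) (R H N : ℕ), (∀ j, R ≤ b j ^ (2 * L j)) → ∀ z : ℂ, ‖z‖ = 1 →
        ∀ x : (∀ j, G j), (R : ℝ) * ‖∑ n ∈ range H, z ^ (N + n) *
          ((∏ j, if a j (N + n) = x j then (1 : ℂ) else 0) - ∏ j, u j (N + n) (x j))‖ ≤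
        (R : ℝ) ^ 2 + Real.sqrt (H * (R * (H + 2 *
          (R * ((∑ j, ((H : ℝ) * R / (b j ^ (2 * L j) : ℕ) + (b j ^ (2 * L j) : ℕ))) +
            (∏ j, b j ^ (2 * L j) : ℕ)) +
          H * ∑ j, (ρ j ^ L j * Real.sqrt ((b j ^ (2 * L j) : ℕ) * R) + R ^ 2) /
            (b j ^ (2 * L j) : ℕ))))) := by
  choose u γ p ρ hρ hp hγ0 hγ1 hu1 hu2 hu3 hu4 hu5 using fun j => base (b j) (hb j) (a j) (ha j)
  refine ⟨u, p, ρ, hρ, hp, hu1, hu2, ?_⟩
  intro L R H N hR z hz x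
  have hzz : (starRingEnd ℂ) z * z = 1 := by
    rw [mul_comm, Complex.mul_conj, Complex.normSq_eq_norm_sq, hz]
    simp
  have hQr : ∀ j, (0 : ℝ) < (b j ^ (2 * L j) : ℕ) := fun j => by
    have := hb j
    exact_mod_cast (by positivity : 0 < b j ^ (2 * L j))
  set V : ℕ → EuclideanSpace ℂ (∀ j, G j) := fun n => WithLp.toLp 2 (fun x => z ^ n *
    ((∏ j, if a j n = x j then (1 : ℂ) else 0) - ∏ j, u j n (x j))) with hV
  have hinner : ∀ m s, inner ℂ (V m) (V (m + s)) =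
      z ^ s * ((∏ j, if a j m = a j (m + s) then (1 : ℂ) else 0) - ∏ j, γ j s) := by
    intro m s
    rw [PiLp.inner_apply, ← prod_inner a u γ hu3 hu4 m s, mul_sum]
    refine sum_congr rfl fun y _ => ?_
    rw [RCLike.inner_apply, hV]
    simp only
    rw [map_mul, map_pow]
    have h1 : z ^ (m + s) * (starRingEnd ℂ) z ^ m = z ^ s := by
      rw [pow_add, mul_comm (z ^ m) (z ^ s), mul_assoc, ← mul_pow, mul_comm z, hzz, one_pow, mul_one]
    calc _ = (z ^ (m + s) * (starRingEnd ℂ) z ^ m) *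
          ((starRingEnd ℂ) ((∏ j, if a j m = y j then (1 : ℂ) else 0) - ∏ j, u j m (y j)) *
          ((∏ j, if a j (m + s) = y j then (1 : ℂ) else 0) - ∏ j, u j (m + s) (y j))) := by ring
      _ = _ := by rw [h1]
  have hVn : ∀ n, ‖V n‖ ≤ 1 := by
    intro n
    have h1 := hinner n 0
    rw [add_zero, inner_self_eq_norm_sq_to_K, pow_zero, one_mul] at h1
    have h2 : (∏ j, if a j n = a j n then (1 : ℂ) else 0) = 1 := prod_eq_one fun j _ => if_pos rfl
    have h3 : ∏ j, γ j 0 = ((∏ j, p j : ℝ) : ℂ) := by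
      rw [Complex.ofReal_prod]
      exact prod_congr rfl fun j _ => hγ0 j
    rw [h2, h3] at h1
    have h4 : ‖V n‖ ^ 2 = 1 - ∏ j, p j := by
      have h5 : ((‖V n‖ ^ 2 : ℝ) : ℂ) = ((1 - ∏ j, p j : ℝ) : ℂ) := by
        rw [Complex.ofReal_sub, Complex.ofReal_one, ← h1]
        push_cast
        rfl
      exact_mod_cast h5
    have h6 : 0 ≤ ∏ j, p j := prod_nonneg fun j _ => (hp j).1.le
    have h7 : ‖V n‖ ^ 2 ≤ 1 := by linarith
    exact (sq_le_one_iff₀ (norm_nonneg _)).1 h7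
  set β : ι → ℕ → ℝ := fun j s => ‖∑ m ∈ (range (b j ^ (2 * L j))).filter
    (fun m => m + s < b j ^ (2 * L j)), ((if a j m = a j (m + s) then (1 : ℂ) else 0) - γ j s)‖
    with hβ
  have hβs : ∀ j, ∑ s ∈ range R, β j s ≤ ρ j ^ L j * Real.sqrt ((b j ^ (2 * L j) : ℕ) * R) := by
    intro j
    have h1 := hu5 j (L j) R (by rw [← pow_mul]; exact hR j)
    rw [← pow_mul] at h1
    exact h1
  set B : ℕ → ℝ := fun s => (∑ j, ((H : ℝ) * s / (b j ^ (2 * L j) : ℕ) + (b j ^ (2 * L j) : ℕ))) +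
    (∏ j, b j ^ (2 * L j) : ℕ) + H * ∑ j, (β j s + s) / (b j ^ (2 * L j) : ℕ) with hB
  have hv := vdc V hVn N H R B (by
    intro s hs1 hs2 N'
    have h1 := window_corr G b hb hco a ha (fun j => 2 * L j) (fun j => γ j s)
      (fun j => hγ1 j s) s H N' (fun j => hs2.le.trans (hR j))
    refine le_trans (le_of_eq ?_) h1
    rw [sum_congr rfl (fun m _ => hinner (N' + m) s), ← mul_sum, norm_mul, norm_pow, hz, one_pow,
      one_mul])
  have hBsum : ∑ s ∈ Ico 1 R, B s ≤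
      R * ((∑ j, ((H : ℝ) * R / (b j ^ (2 * L j) : ℕ) + (b j ^ (2 * L j) : ℕ))) +
            (∏ j, b j ^ (2 * L j) : ℕ)) +
          H * ∑ j, (ρ j ^ L j * Real.sqrt ((b j ^ (2 * L j) : ℕ) * R) + R ^ 2) /
            (b j ^ (2 * L j) : ℕ) := by
    rw [hB]
    beta_reduce
    rw [sum_add_distrib]
    apply add_le_add
    · have h1 : ∀ s ∈ Ico 1 R, (∑ j, ((H : ℝ) * s / (b j ^ (2 * L j) : ℕ) + (b j ^ (2 * L j) : ℕ))) +
          (∏ j, b j ^ (2 * L j) : ℕ) ≤
          (∑ j, ((H : ℝ) * R / (b j ^ (2 * L j) : ℕ) + (b j ^ (2 * L j) : ℕ))) +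
          (∏ j, b j ^ (2 * L j) : ℕ) := by
        intro s hs
        have hs' : (s : ℝ) ≤ R := by exact_mod_cast (mem_Ico.1 hs).2.le
        have h2 : ∑ j, ((H : ℝ) * s / (b j ^ (2 * L j) : ℕ) + (b j ^ (2 * L j) : ℕ)) ≤
            ∑ j, ((H : ℝ) * R / (b j ^ (2 * L j) : ℕ) + (b j ^ (2 * L j) : ℕ)) := by
          refine sum_le_sum fun j _ => ?_
          have : (H : ℝ) * s / (b j ^ (2 * L j) : ℕ) ≤ (H : ℝ) * R / (b j ^ (2 * L j) : ℕ) := by
            apply div_le_div_of_nonneg_right _ (hQr j).le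
            exact mul_le_mul_of_nonneg_left hs' (Nat.cast_nonneg H)
          linarith
        linarith
      refine (sum_le_sum h1).trans ?_
      rw [sum_const, nsmul_eq_mul, Nat.card_Ico]
      apply mul_le_mul_of_nonneg_right
      · exact_mod_cast Nat.sub_le _ _
      · have h3 : (0 : ℝ) ≤ ∑ j, ((H : ℝ) * R / (b j ^ (2 * L j) : ℕ) + (b j ^ (2 * L j) : ℕ)) :=
          sum_nonneg fun j _ => by positivity
        have h4 : (0 : ℝ) ≤ (∏ j, b j ^ (2 * L j) : ℕ) := Nat.cast_nonneg _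
        linarith
    · rw [← mul_sum, sum_comm]
      apply mul_le_mul_of_nonneg_left _ (Nat.cast_nonneg H)
      refine sum_le_sum fun j _ => ?_
      rw [← sum_div]
      apply div_le_div_of_nonneg_right _ (hQr j).le
      rw [sum_add_distrib]
      apply add_le_add
      · refine le_trans (sum_le_sum_of_subset_of_nonneg ?_ ?_) (hβs j)
        · intro s hs
          exact mem_range.2 (mem_Ico.1 hs).2
        · intro s _ _
          exact norm_nonneg _
      · have h1 : ∀ s ∈ Ico 1 R, (s : ℝ) ≤ R := fun s hs => by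
          exact_mod_cast (mem_Ico.1 hs).2.le
        refine (sum_le_sum h1).trans ?_
        rw [sum_const, nsmul_eq_mul, Nat.card_Ico, sq]
        apply mul_le_mul_of_nonneg_right _ (Nat.cast_nonneg R)
        exact_mod_cast Nat.sub_le _ _
  have hcomp : ‖∑ n ∈ range H, z ^ (N + n) *
          ((∏ j, if a j (N + n) = x j then (1 : ℂ) else 0) - ∏ j, u j (N + n) (x j))‖ ≤
      ‖∑ n ∈ range H, V (N + n)‖ := by
    have h1 : (∑ n ∈ range H, V (N + n)) x = ∑ n ∈ range H, z ^ (N + n) *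
          ((∏ j, if a j (N + n) = x j then (1 : ℂ) else 0) - ∏ j, u j (N + n) (x j)) := by
      rw [WithLp.ofLp_sum, Finset.sum_apply]
    rw [← h1]
    exact PiLp.norm_apply_le _ x
  calc _ ≤ (R : ℝ) * ‖∑ n ∈ range H, V (N + n)‖ :=
        mul_le_mul_of_nonneg_left hcomp (Nat.cast_nonneg R)
    _ ≤ _ := hv
    _ ≤ _ := by
        apply add_le_add le_rfl
        apply Real.sqrt_le_sqrt
        apply mul_le_mul_of_nonneg_left _ (Nat.cast_nonneg H)
        apply mul_le_mul_of_nonneg_left _ (Nat.cast_nonneg R)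
        linarith

end Pool.Agent.L5helper45.MB
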